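import Pool.Agent.H8.NS.Glue

/-!
# Exceptional sets and integrals over the blocks
-/

open MeasureTheory Set Filter Topology
open scoped ENNReal NNReal ContDiff

namespace Pool.Agent.K1H11.NS

/-- the neighbourhoods of the singular times -/
def Exc (n : ℕ) (h δ : ℝ) : Set ℝ := ⋃ i ∈ Finset.range n, Ioc ((i : ℝ) * h) (i * h + δ)

lemma Exc_meas (n : ℕ) (h δ : ℝ) : MeasurableSet (Exc n h δ) :=
  Finset.measurableSet_biUnion _ fun _ _ => measurableSet_Ioc

lemma Exc_vol (n : ℕ) (h : ℝ) {δ : ℝ} : volume (Exc n h δ) ≤ ENNReal.ofReal (n * δ) := by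
  unfold Exc
  refine (measure_biUnion_finset_le _ _).trans ?_
  have h1 : ∀ i ∈ Finset.range n, volume (Ioc ((i : ℝ) * h) (i * h + δ)) ≤ ENNReal.ofReal δ := by
    intro i _
    rw [Real.volume_Ioc, add_sub_cancel_left]
  refine (Finset.sum_le_sum h1).trans ?_
  rw [Finset.sum_const, Finset.card_range, nsmul_eq_mul, ENNReal.ofReal_mul (Nat.cast_nonneg n), ENNReal.ofReal_natCast]

lemma Exc_out {n : ℕ} {h δ : ℝ} (hh : 0 < h) {P : ℝ → Prop}
    (h1 : ∀ i : ℕ, i < n → ∀ s, 0 < s → δ ≤ s → s ≤ h → P (i * h + s)) {t : ℝ} (ht : 0 < t) (htn : t ≤ n * h)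
    (hE : t ∉ Exc n h δ) : P t := by
  obtain ⟨i, hi, s, hs, hsh, rfl⟩ := find_block hh ht htn
  refine h1 i hi s hs ?_ hsh
  by_contra hcon
  push Not at hcon
  apply hE
  unfold Exc
  rw [mem_iUnion₂]
  exact ⟨i, Finset.mem_range.2 hi, by linarith, by linarith⟩

lemma lint_shift (T d : ℝ) (f : ℝ → ℝ≥0∞) : ∫⁻ t in Ioc T (T + d), f t = ∫⁻ r in Ioc 0 d, f (T + r) := by
  rw [← shift_lint T (fun r => f (T + r)) (Ioc 0 d), shift_Ioc]
  refine setLIntegral_congr_fun measurableSet_Ioc fun t _ => ?_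
  simp only [add_sub_cancel]

lemma lp_blocks {h δ : ℝ} (hh : 0 < h) (hδ : 0 < δ) {f g : ℝ → ℝ≥0∞} {B : ℝ≥0∞} (n : ℕ)
    (h1 : ∀ i : ℕ, i < n → ∀ s, 0 < s → s ≤ δ → f (i * h + s) ≤ g s)
    (h2 : ∀ i : ℕ, i < n → ∀ s, 0 < s → δ ≤ s → s ≤ h → f (i * h + s) ≤ B) :
    ∫⁻ t in Ioc 0 (n * h), f t ≤ n * (∫⁻ s in Ioc 0 δ, g s) + ENNReal.ofReal (n * h) * B := by
  induction n with
  | zero => simp
  | succ n ih =>
    have ih' := ih (fun i hi => h1 i (by omega)) fun i hi => h2 i (by omega)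
    have e1 : ((n + 1 : ℕ) : ℝ) * h = n * h + h := by push_cast; ring
    have hsub : Ioc 0 (((n + 1 : ℕ) : ℝ) * h) ⊆ Ioc 0 (n * h) ∪ (Ioc (n * h) (n * h + δ) ∪ Ioc (n * h + δ) (n * h + δ + (h - δ))) := by
      intro t ht
      rw [e1] at ht
      rcases le_or_gt t (n * h) with h3 | h3
      · exact Or.inl ⟨ht.1, h3⟩
      · rcases le_or_gt t (n * h + δ) with h4 | h4
        · exact Or.inr (Or.inl ⟨h3, h4⟩)
        · exact Or.inr (Or.inr ⟨h4, by linarith [ht.2]⟩)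
    refine (lintegral_mono_set hsub).trans ((lintegral_union_le _ _ _).trans ((add_le_add ih'
      (lintegral_union_le _ _ _)).trans ?_))
    have p1 : ∫⁻ t in Ioc (n * h) (n * h + δ), f t ≤ ∫⁻ s in Ioc 0 δ, g s := by
      rw [lint_shift]
      exact setLIntegral_mono' measurableSet_Ioc fun s hs => h1 n (by omega) s hs.1 hs.2
    have p2 : ∫⁻ t in Ioc (n * h + δ) (n * h + δ + (h - δ)), f t ≤ ENNReal.ofReal h * B := by
      rw [lint_shift]
      calc ∫⁻ r in Ioc 0 (h - δ), f (n * h + δ + r) ≤ ∫⁻ _ in Ioc 0 (h - δ), B := by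
            refine setLIntegral_mono' measurableSet_Ioc fun s hs => ?_
            rw [add_assoc]
            exact h2 n (by omega) (δ + s) (by linarith [hs.1]) (by linarith [hs.1]) (by linarith [hs.2])
        _ = B * ENNReal.ofReal (h - δ) := by rw [setLIntegral_const, Real.volume_Ioc, sub_zero]
        _ ≤ B * ENNReal.ofReal h := mul_le_mul' le_rfl (ENNReal.ofReal_le_ofReal (by linarith))
        _ = _ := mul_comm _ _
    refine (add_le_add le_rfl (add_le_add p1 p2)).trans (le_of_eq ?_)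
    rw [e1, ENNReal.ofReal_add (by positivity) hh.le]
    push_cast
    ring

/-- the growth at the singular times is integrable to the power `p < 2` -/
lemma small_lint {p : ℝ} (hp : 0 < p) (hp2 : p < 2) {M : ℝ} (hM : 0 ≤ M) {ρ : ℝ≥0∞} (hρ : 0 < ρ) : ∃ d : ℝ, 0 < d ∧
    ∀ δ, 0 < δ → δ ≤ d → ∫⁻ s in Ioc 0 δ, ENNReal.ofReal (M + 1 / Real.sqrt s) ^ p ≤ ρ := by
  have hfin : ∫⁻ s in Ioc (0 : ℝ) 1, ENNReal.ofReal (M + 1 / Real.sqrt s) ^ p ≠ ⊤ := by
    have h1 : IntegrableOn (fun s : ℝ => s ^ (-(p / 2))) (Ioc 0 1) := by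
      have := (intervalIntegral.intervalIntegrable_rpow' (a := 0) (b := 1) (r := -(p / 2)) (by linarith))
      rwa [intervalIntegrable_iff_integrableOn_Ioc_of_le zero_le_one] at this
    have h2 : ∫⁻ s in Ioc (0 : ℝ) 1, ‖s ^ (-(p / 2))‖ₑ ≠ ⊤ := h1.2.ne
    refine ne_top_of_le_ne_top (ENNReal.mul_ne_top (ENNReal.rpow_ne_top_of_nonneg hp.le
      (ENNReal.ofReal_ne_top (r := M + 1))) h2) ?_
    rw [← lintegral_const_mul' _ _ (ENNReal.rpow_ne_top_of_nonneg hp.le ENNReal.ofReal_ne_top)]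
    refine setLIntegral_mono' measurableSet_Ioc fun s hs => ?_
    have hs0 : 0 < s := hs.1
    have hss : 0 < Real.sqrt s := Real.sqrt_pos.2 hs0
    have hs1 : Real.sqrt s ≤ 1 := by
      rw [Real.sqrt_le_left one_pos.le, one_pow]; exact hs.2
    have e1 : ‖s ^ (-(p / 2))‖ₑ = ENNReal.ofReal (1 / Real.sqrt s) ^ p := by
      rw [← ofReal_norm, Real.norm_of_nonneg (Real.rpow_nonneg hs0.le _),
        ENNReal.ofReal_rpow_of_pos (by positivity)]
      congr 1
      rw [Real.sqrt_eq_rpow, one_div, ← Real.rpow_neg hs0.le, ← Real.rpow_mul hs0.le]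
      congr 1
      ring
    rw [e1, ← ENNReal.mul_rpow_of_nonneg _ _ hp.le, ← ENNReal.ofReal_mul (by positivity)]
    apply ENNReal.rpow_le_rpow _ hp.le
    apply ENNReal.ofReal_le_ofReal
    have h3 : 1 ≤ 1 / Real.sqrt s := by rw [le_div_iff₀ hss]; linarith
    nlinarith
  have hs : Tendsto (fun n : ℕ => (volume.restrict (Ioc (0 : ℝ) 1)) (Ioc 0 (1 / ((n : ℝ) + 1)))) atTop (𝓝 0) := by
    have h1 : Tendsto (fun n : ℕ => ENNReal.ofReal (1 / ((n : ℝ) + 1))) atTop (𝓝 0) := by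
      have := (ENNReal.continuous_ofReal.tendsto 0).comp tendsto_one_div_add_atTop_nhds_zero_nat
      rwa [ENNReal.ofReal_zero] at this
    refine tendsto_of_tendsto_of_tendsto_of_le_of_le tendsto_const_nhds h1 (fun _ => zero_le) fun n => ?_
    refine (Measure.restrict_apply_le _ _).trans ?_
    rw [Real.volume_Ioc, sub_zero]
  have ht := tendsto_setLIntegral_zero hfin hs
  obtain ⟨n, hn⟩ := (ht.eventually (gt_mem_nhds hρ)).exists
  have hd : (0 : ℝ) < 1 / ((n : ℝ) + 1) := by positivity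
  have hd1 : 1 / ((n : ℝ) + 1) ≤ 1 := by
    rw [div_le_one (by positivity)]
    have : (0 : ℝ) ≤ n := Nat.cast_nonneg n
    linarith
  refine ⟨1 / ((n : ℝ) + 1), hd, fun δ hδ hδn => ?_⟩
  refine le_trans ?_ hn.le
  rw [Measure.restrict_restrict measurableSet_Ioc, inter_eq_left.2 (Ioc_subset_Ioc_right hd1)]
  exact lintegral_mono_set (Ioc_subset_Ioc_right hδn)

end Pool.Agent.K1H11.NS
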