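import Pool.Agent.H8.NS.Step8

/-!
# Weighted norms
-/

open MeasureTheory Set Filter Topology
open scoped ENNReal NNReal ContDiff

namespace Pool.Agent.K1H11.NS

/-- a weight which tends to zero at time zero -/
structure Wgt (φ : ℝ → ℝ≥0∞) : Prop where
  mono : Monotone φ
  le_one : ∀ t, φ t ≤ 1
  lim : Tendsto φ (𝓝[>] 0) (𝓝 0)

/-- the weighted norm in `L²((0, 1]; ℓ¹)` -/
noncomputable def WL (φ : ℝ → ℝ≥0∞) (x : Fam) : ℝ≥0∞ :=
  LN (fun t => (Ioc 0 1).indicator (fun t => φ t * NW (Wa Wt.one) (at' x t)) t)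

variable {φ : ℝ → ℝ≥0∞}

lemma WL_meas (hφ : Wgt φ) {x : Fam} (hx : CF x) :
    Measurable fun t => (Ioc (0 : ℝ) 1).indicator (fun t => φ t * NW (Wa Wt.one) (at' x t)) t :=
  (hφ.mono.measurable.mul (NW_meas _ hx)).indicator measurableSet_Ioc

lemma WL_add (hφ : Wgt φ) {x y : Fam} (hx : CF x) (hy : CF y) : WL φ (x + y) ≤ WL φ x + WL φ y := by
  unfold WL
  refine (LN_mono fun s _ => ?_).trans (LN_add_le (WL_meas hφ hx) (WL_meas hφ hy))
  by_cases hs : s ∈ Ioc (0 : ℝ) 1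
  · simp only [indicator_of_mem hs]
    rw [← mul_add]
    exact mul_le_mul' le_rfl (NW_add_le _ _ _)
  · simp only [indicator_of_notMem hs, add_zero, le_refl]

lemma WL_le_XN (hφ : Wgt φ) (x : Fam) : WL φ x ≤ XN x := by
  refine LN_mono fun s _ => ?_
  refine (indicator_le_self _ _ s).trans ?_
  calc φ s * NW (Wa Wt.one) (at' x s) ≤ 1 * NW (Wa Wt.one) (at' x s) := mul_le_mul' (hφ.le_one s) le_rfl
    _ = _ := one_mul _

lemma LN_sq (f : ℝ → ℝ≥0∞) : LN f ^ (2 : ℝ) = ∫⁻ t in Ioi 0, f t ^ (2 : ℝ) := by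
  unfold LN
  rw [← ENNReal.rpow_mul]
  norm_num

lemma LV_sq (t : ℝ) (ht : 0 ≤ t) (x : Fam) :
    LV t x ^ (2 : ℝ) = ∫⁻ s in Ioc (t / 4) t, NW (Wa Wt.one) (at' x s) ^ (2 : ℝ) := by
  unfold LV
  rw [LN_sq]
  have e1 : ∀ s, ((Ioc (t / 4) t).indicator (fun s => NW (Wa Wt.one) (at' x s)) s) ^ (2 : ℝ) =
      (Ioc (t / 4) t).indicator (fun s => NW (Wa Wt.one) (at' x s) ^ (2 : ℝ)) s := by
    intro s
    by_cases hs : s ∈ Ioc (t / 4) t
    · simp only [indicator_of_mem hs]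
    · simp only [indicator_of_notMem hs]
      exact ENNReal.zero_rpow_of_pos (by norm_num)
  simp_rw [e1]
  rw [lintegral_indicator measurableSet_Ioc, Measure.restrict_restrict measurableSet_Ioc]
  congr 2
  ext s
  simp only [mem_inter_iff, mem_Ioc, mem_Ioi]
  constructor
  · exact fun h => h.1
  · exact fun h => ⟨h, by linarith [h.1]⟩

lemma DN2_ge (x : Fam) :
    ∫⁻ s in Ioc 0 1, NW (Wa Wt.one) (at' x s) ^ (2 : ℝ) ≤ DN 2 x ^ (2 : ℝ) := by
  have e1 : DN 2 x ^ (2 : ℝ) = ∑' j : ℕ, LV ((1 / 4) ^ j) x ^ (2 : ℝ) := by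
    unfold DN
    rw [← ENNReal.rpow_mul]
    norm_num
  have e2 : ∀ j : ℕ, LV ((1 / 4) ^ j) x ^ (2 : ℝ) =
      ∫⁻ s in Ioc ((1 / 4 : ℝ) ^ j / 4) ((1 / 4) ^ j), NW (Wa Wt.one) (at' x s) ^ (2 : ℝ) := fun j =>
    LV_sq _ (by positivity) x
  rw [e1, tsum_congr e2]
  refine (lintegral_mono_set fun s hs => ?_).trans (lintegral_iUnion_le _ _)
  obtain ⟨n, h1, h2⟩ := exists_nat_pow_near_of_lt_one hs.1 hs.2 (y := (1 / 4 : ℝ)) (by norm_num) (by norm_num)
  rw [mem_iUnion]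
  refine ⟨n, ?_, h2⟩
  rw [pow_succ] at h1
  linarith

lemma LN_le_DN2 (x : Fam) : LN (fun t => (Ioc 0 1).indicator (fun t => NW (Wa Wt.one) (at' x t)) t) ≤ DN 2 x := by
  have h1 : LN (fun t => (Ioc 0 1).indicator (fun t => NW (Wa Wt.one) (at' x t)) t) ^ (2 : ℝ) ≤ DN 2 x ^ (2 : ℝ) := by
    refine le_trans ?_ (DN2_ge x)
    rw [LN_sq]
    have e1 : ∀ s, ((Ioc (0 : ℝ) 1).indicator (fun s => NW (Wa Wt.one) (at' x s)) s) ^ (2 : ℝ) =
        (Ioc (0 : ℝ) 1).indicator (fun s => NW (Wa Wt.one) (at' x s) ^ (2 : ℝ)) s := by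
      intro s
      by_cases hs : s ∈ Ioc (0 : ℝ) 1
      · simp only [indicator_of_mem hs]
      · simp only [indicator_of_notMem hs]
        exact ENNReal.zero_rpow_of_pos (by norm_num)
    simp_rw [e1]
    refine (setLIntegral_le_lintegral _ _).trans (le_of_eq ?_)
    rw [lintegral_indicator measurableSet_Ioc]
  have h2 := ENNReal.rpow_le_rpow h1 (show (0 : ℝ) ≤ 1 / 2 by norm_num)
  rw [← ENNReal.rpow_mul, ← ENNReal.rpow_mul] at h2
  norm_num at h2
  exact h2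

/-- The weighted norm is small for small times. -/
lemma WL_le (hφ : Wgt φ) {x : Fam} (hx : CF x) (dl : ℝ) : WL φ x ≤ φ dl * DN 2 x + LNd dl x := by
  have m1 : Measurable fun t => (Ioc (0 : ℝ) 1).indicator (fun t => NW (Wa Wt.one) (at' x t)) t :=
    (NW_meas _ hx).indicator measurableSet_Ioc
  have m2 : Measurable fun t => (Ioi dl).indicator (fun t => NW (Wa Wt.one) (at' x t)) t :=
    (NW_meas _ hx).indicator measurableSet_Ioi
  calc WL φ x ≤ LN (fun t => φ dl * (Ioc (0 : ℝ) 1).indicator (fun t => NW (Wa Wt.one) (at' x t)) t +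
        (Ioi dl).indicator (fun t => NW (Wa Wt.one) (at' x t)) t) := by
        refine LN_mono fun s _ => ?_
        by_cases hs : s ∈ Ioc (0 : ℝ) 1
        · simp only [indicator_of_mem hs]
          rcases le_or_gt s dl with h | h
          · exact (mul_le_mul' (hφ.mono h) le_rfl).trans le_self_add
          · rw [indicator_of_mem (show s ∈ Ioi dl from h)]
            refine le_trans ?_ le_add_self
            calc φ s * NW (Wa Wt.one) (at' x s) ≤ 1 * NW (Wa Wt.one) (at' x s) :=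
                  mul_le_mul' (hφ.le_one s) le_rfl
              _ = _ := one_mul _
        · simp only [indicator_of_notMem hs]
          exact zero_le
    _ ≤ LN (fun t => φ dl * (Ioc (0 : ℝ) 1).indicator (fun t => NW (Wa Wt.one) (at' x t)) t) +
        LN (fun t => (Ioi dl).indicator (fun t => NW (Wa Wt.one) (at' x t)) t) := LN_add_le (m1.const_mul _) m2
    _ = φ dl * LN (fun t => (Ioc (0 : ℝ) 1).indicator (fun t => NW (Wa Wt.one) (at' x t)) t) + LNd dl x := by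
        rw [LN_const_mul _ m1]
        rfl
    _ ≤ _ := add_le_add (mul_le_mul' le_rfl (LN_le_DN2 x)) le_rfl

lemma A1w_liminf {x : ℕ → K → C3} {x' : K → C3} (h : ∀ k, Tendsto (fun n => x n k) atTop (𝓝 (x' k))) {y : ℝ≥0∞}
    (hy : y ≠ ⊤) : (y * ∑' k, ‖x' k‖ₑ) ^ (2 : ℝ) ≤ liminf (fun n => (y * ∑' k, ‖x n k‖ₑ) ^ (2 : ℝ)) atTop := by
  have h1 := lintegral_liminf_le (μ := Measure.count (α := K)) (u := (atTop : Filter ℕ))
    (f := fun n k => y * ‖x n k‖ₑ) fun n => measurable_of_countable _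
  simp_rw [lintegral_count, ENNReal.tsum_mul_left] at h1
  have h2 : y * ∑' k, ‖x' k‖ₑ ≤ liminf (fun n => y * ∑' k, ‖x n k‖ₑ) atTop := by
    refine le_trans (le_of_eq ?_) h1
    rw [← ENNReal.tsum_mul_left]
    refine tsum_congr fun k => ?_
    exact (ENNReal.Tendsto.const_mul ((continuous_enorm.tendsto _).comp (h k)) (Or.inr hy)).liminf_eq.symm
  refine (ENNReal.rpow_le_rpow h2 (by norm_num)).trans (le_of_eq ?_)
  exact (ENNReal.orderIsoRpow 2 (by norm_num)).liminf_apply (f := atTop) (u := fun n => y * ∑' k, ‖x n k‖ₑ)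

/-- lower semicontinuity of the weighted norm -/
lemma WL_lim (hφ : Wgt φ) {T0 : ℝ} {x : ℕ → Fam} {x' : Fam} (hx : ∀ n, CF (x n))
    (h : ∀ k t, 0 < t → t ≤ T0 → Tendsto (fun n => x n k t) atTop (𝓝 (x' k t))) {B : ℝ≥0∞} (hB : ∀ n, WL φ (x n) ≤ B) :
    ∫⁻ t in Ioc 0 (min T0 1), (φ t * ∑' k, ‖x' k t‖ₑ) ^ (2 : ℝ) ≤ B ^ (2 : ℝ) := by
  calc ∫⁻ t in Ioc 0 (min T0 1), (φ t * ∑' k, ‖x' k t‖ₑ) ^ (2 : ℝ) ≤
        ∫⁻ t in Ioc 0 (min T0 1), liminf (fun n => (φ t * ∑' k, ‖x n k t‖ₑ) ^ (2 : ℝ)) atTop := by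
        refine setLIntegral_mono' measurableSet_Ioc fun t ht => ?_
        exact A1w_liminf (fun k => h k t ht.1 (ht.2.trans (min_le_left _ _)))
          (ne_top_of_le_ne_top ENNReal.one_ne_top (hφ.le_one t))
    _ ≤ liminf (fun n => ∫⁻ t in Ioc 0 (min T0 1), (φ t * ∑' k, ‖x n k t‖ₑ) ^ (2 : ℝ)) atTop := by
        refine lintegral_liminf_le fun n => ?_
        have m1 := hφ.mono.measurable.mul (NW_meas (Wa Wt.one) (hx n))
        have e1 : (fun t => (φ t * ∑' k, ‖x n k t‖ₑ) ^ (2 : ℝ)) = fun t => (φ t * NW (Wa Wt.one) (at' (x n) t)) ^ (2 : ℝ) := by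
          funext t
          rw [NW_Wa_zero]
          rfl
        rw [e1]
        exact m1.pow_const _
    _ ≤ liminf (fun _ : ℕ => B ^ (2 : ℝ)) atTop := by
        refine liminf_le_liminf (Eventually.of_forall fun n => ?_)
        refine le_trans ?_ (ENNReal.rpow_le_rpow (hB n) (by norm_num))
        unfold WL
        rw [LN_sq]
        have e1 : ∀ t, (Ioc (0 : ℝ) 1).indicator (fun t => φ t * NW (Wa Wt.one) (at' (x n) t)) t ^ (2 : ℝ) =
            (Ioc (0 : ℝ) 1).indicator (fun t => (φ t * ∑' k, ‖x n k t‖ₑ) ^ (2 : ℝ)) t := by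
          intro t
          by_cases ht : t ∈ Ioc (0 : ℝ) 1
          · simp only [indicator_of_mem ht, NW_Wa_zero]
            rfl
          · simp only [indicator_of_notMem ht]
            exact ENNReal.zero_rpow_of_pos (by norm_num)
        simp_rw [e1]
        rw [lintegral_indicator measurableSet_Ioc, Measure.restrict_restrict measurableSet_Ioc]
        refine lintegral_mono_set fun t ht => ⟨⟨ht.1, ht.2.trans (min_le_right _ _)⟩, ht.1⟩
    _ = _ := by simp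

end Pool.Agent.K1H11.NS
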