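import Pool.Agent.H8.NS.Rec
import Pool.Agent.H8.NS.Wgt

/-!
# The construction with local targets, with a weight
-/

open MeasureTheory Set Filter Topology
open scoped ENNReal NNReal ContDiff

namespace Pool.Agent.K1H11.NS

open H459R3.NS (ee fc fr cube S SP Per pd D Rap)
open Pool.Agent.H356R3.NS (shellSum critNorm leiLin)

/-- consecutive states -/
structure CRelW (φ : ℝ → ℝ≥0∞) (c : ℝ) (F : Fam) (T0 : ℝ) (V' : K → C3) (n : ℕ) (s s' : CStF c F) : Prop
    extends CRelF c F T0 V' n s s' where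
  wl : WL φ (s'.b.u - s.b.u) ≤ ENNReal.ofReal ((1 / 4) ^ n)

/-- the weight makes a given constant small -/
lemma Wgt.small {φ : ℝ → ℝ≥0∞} (hφ : Wgt φ) (K2 : ℝ) {e : ℝ} (he : 0 < e) :
    ∃ d : ℝ, 0 < d ∧ φ d * ENNReal.ofReal K2 ≤ ENNReal.ofReal e := by
  have h1 : Tendsto (fun t => φ t * ENNReal.ofReal K2) (𝓝[>] 0) (𝓝 0) := by
    have := ENNReal.Tendsto.mul_const hφ.lim (Or.inr (ENNReal.ofReal_ne_top (r := K2)))
    rwa [zero_mul] at this
  obtain ⟨d, hd1, hd2⟩ := ((h1.eventually (gt_mem_nhds (show (0 : ℝ≥0∞) < ENNReal.ofReal e by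
    rw [ENNReal.ofReal_pos]; exact he))).and self_mem_nhdsWithin).exists
  exact ⟨d, hd2, hd1.le⟩

lemma exists_next8F {φ : ℝ → ℝ≥0∞} (hφ : Wgt φ) {c : ℝ} (hc : 0 < c) {F : Fam} (hCF : CF F) {T0 : ℝ}
    (hF : ∀ k t, t ≤ T0 → F k t = 0) {V' : K → C3} (hV' : SD V') (n : ℕ) (s : CStF c F) :
    ∃ s' : CStF c F, CRelW φ c F T0 V' n s s' := by
  set V := s.V with hVdef
  have hV := s.hV
  set ρ : ℝ := 1 / ((n : ℝ) + 1) with hρdef
  have hρ : 0 < ρ := by positivity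
  have h4n : (0 : ℝ) < (1 / 4) ^ n := by positivity
  set ρs := min ρ ((1 / 4) ^ n) with hρs
  have hρs0 : 0 < ρs := lt_min hρ h4n
  have hρs2 : ρs ≤ ρ := min_le_left _ _
  have hρs3 : ρs ≤ (1 / 4) ^ n := min_le_right _ _
  obtain ⟨K2, hK2, hstep⟩ := step_all8F hCF hc hV s.b.hD s.hθ s.str s.b.ha s.b.hu (r0 := 2 + ρ) (ρ := ρs)
    (by linarith) hρs0
  obtain ⟨d1, hd1, hY⟩ := cont0F s.b.ha s.b.hu hρ
  have hsd := s.b.hu.dom' s.b.ha
  obtain ⟨b, hb, hb'⟩ := s.b.hu.dom' s.b.ha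
  set M := ∑' k, b k + 1 with hM
  have hAb : ∀ t, An s.b.u t ≤ ∑' k, b k := fun t =>
    Summable.tsum_le_tsum (fun k => hb' k t) (hb.of_nonneg_of_le (fun _ => norm_nonneg _) fun k => hb' k t) hb
  have hM0 : 0 < M := by
    have h1 := (An_nonneg s.b.u 0).trans (hAb 0)
    linarith
  set d2 := (ρ / M) ^ 2 with hd2def
  have hd2 : 0 < d2 := by positivity
  obtain ⟨d3, hd3, hd3'⟩ := hφ.small K2 (show 0 < (1 / 4 : ℝ) ^ n / 2 by positivity)
  set dl' := min (min (min d1 d2) d3) (s.b.dl / 2) with hdl'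
  have hdlp : 0 < dl' := lt_min (lt_min (lt_min hd1 hd2) hd3) (half_pos s.b.hdl)
  have hdl1 : dl' ≤ d1 := (min_le_left _ _).trans ((min_le_left _ _).trans (min_le_left _ _))
  have hdl2 : dl' ≤ d2 := (min_le_left _ _).trans ((min_le_left _ _).trans (min_le_right _ _))
  have hdl3 : dl' ≤ d3 := (min_le_left _ _).trans (min_le_right _ _)
  obtain ⟨ε', hε', hlate⟩ := late2F hF hc (half_pos hdlp) (half_pos s.b.hbe) s.b.ha s.b.hu
  set σ := min ε' ((1 / 4) ^ n / 2) with hσ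
  have hσ0 : 0 < σ := lt_min hε' (by positivity)
  have hσ1 : σ ≤ ε' := min_le_left _ _
  have hσ2 : σ ≤ (1 / 4) ^ n / 2 := min_le_right _ _
  obtain ⟨D', hD', hStr', a', ha', u', hu', huL, huW, huD, hDN2, hL2, hN1, hN2, hcr⟩ := hstep (dl := dl' / 2) (σ := σ)
    (half_pos hdlp) hσ0
  obtain ⟨δ, hδ, hopen⟩ := open_solF (sh_cf hCF dl') hc ha' (hu'.sh hCF ha' hdlp.le) one_pos
  have hVV : SD (V - V') := hV.sub hV'
  have hNVV : NH (V - V') ≤ ENNReal.ofReal (NH (V - V')).toReal := by rw [ENNReal.ofReal_toReal hVV.NH_ne]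
  have hsq : Real.sqrt (36 * s.θ + ρs) ≤ Real.sqrt (36 * s.θ + (1 / 4) ^ n) := Real.sqrt_le_sqrt (by linarith)
  have hsc := Real.sqrt_nonneg c
  have hbd : 16 * Real.sqrt c * Real.sqrt (36 * s.θ + ρs) + ρs ≤
      16 * Real.sqrt c * Real.sqrt (36 * s.θ + (1 / 4) ^ n) + (1 / 4) ^ n := by
    have : 16 * Real.sqrt c * Real.sqrt (36 * s.θ + ρs) ≤ 16 * Real.sqrt c * Real.sqrt (36 * s.θ + (1 / 4) ^ n) :=
      mul_le_mul_of_nonneg_left hsq (by positivity)
    linarith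
  have hwl : WL φ (u' - s.b.u) ≤ ENNReal.ofReal ((1 / 4) ^ n) := by
    have hcd : CF (u' - s.b.u) := fun k => (hu'.cf k).sub (s.b.hu.cf k)
    refine (WL_le hφ hcd (dl' / 2)).trans ?_
    have h1 : φ (dl' / 2) ≤ φ d3 := hφ.mono (by linarith)
    refine (add_le_add ((mul_le_mul' h1 hDN2).trans hd3') (huL.trans (ENNReal.ofReal_le_ofReal hσ2))).trans ?_
    rw [← ENNReal.ofReal_add (by positivity) (by positivity)]
    apply ENNReal.ofReal_le_ofReal
    linarith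
  refine ⟨⟨⟨D', a', u', dl', min δ (s.b.be / 2), hD', ha', hu', hdlp, lt_min hδ (half_pos s.b.hbe)⟩,
    V', ρs + (NH (V - V')).toReal, hV', by positivity, ?_⟩, ⟨rfl,
    ⟨min_le_right _ _, min_le_right _ _, fun t ht htT => ?_, fun t ht => ?_, fun t ht0 ht => ?_, fun r hr => ?_,
      fun h h1 h2 h3 h4 => ?_⟩, ?_, ?_, ?_, fun t ht0 ht => ?_, fun q hq => ?_⟩, hwl⟩
  · have h1 := hStr'.add (Str_of_NH hVV ENNReal.toReal_nonneg hNVV)
    have e1 : D' - V + (V - V') = D' - V' := by abel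
    rwa [e1] at h1
  · refine hlate a' ha' _ u' hu' (huL.trans (ENNReal.ofReal_le_ofReal hσ1)) t ?_ htT
    have : dl' ≤ t := ht
    linarith
  · exact (huW t ht).trans (ENNReal.ofReal_le_ofReal hρs2)
  · have ht2 : t ≤ d2 := (show t ≤ dl' from ht).trans hdl2
    refine (LW_le_of hsd ht0 hM0.le fun s' _ => ?_).trans (ENNReal.ofReal_le_ofReal ?_)
    · have := hAb s'
      linarith
    · have h1 : Real.sqrt t ≤ ρ / M := by
        rw [Real.sqrt_le_left (by positivity)]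
        exact ht2
      calc Real.sqrt t * M ≤ ρ / M * M := mul_le_mul_of_nonneg_right h1 hM0.le
        _ = ρ := by field_simp
  · obtain ⟨c1, c2⟩ := hcr r hr
    refine ⟨c1.trans (ENNReal.ofReal_le_ofReal hρs2), fun N hN hNr t ht0 ht => ?_⟩
    have h5 : N (at' s.b.u t - s.b.D) ≤ ENNReal.ofReal (2 * ρ) := by
      refine (hN.le _).trans ?_
      rw [ENNReal.ofReal_mul (by norm_num), ENNReal.ofReal_ofNat]
      refine mul_le_mul' le_rfl (hY t ht0 ((show t ≤ dl' from ht).trans hdl1))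
    refine (c2 N hN hNr t ht0).trans ?_
    calc _ ≤ ENNReal.ofReal (2 * ρ) + N (s.b.D - V) + ENNReal.ofReal ρ :=
          add_le_add (add_le_add h5 le_rfl) (ENNReal.ofReal_le_ofReal hρs2)
      _ = N (s.b.D - V) + (ENNReal.ofReal (2 * ρ) + ENNReal.ofReal ρ) := by ring
      _ = _ := by
          rw [← ENNReal.ofReal_add (by positivity) hρ.le]
          congr 2
          rw [hρdef]; ring
  · obtain ⟨a'', ha'', z, hz, -⟩ := hopen h h1 h2 h3 (h4.trans (min_le_left _ _))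
    exact ⟨a'', ha'', z, hz⟩
  · show ρs + (NH (V - V')).toReal ≤ (1 / 4) ^ n + (NH (V - V')).toReal
    linarith
  · refine hL2.trans (ENNReal.ofReal_le_ofReal ?_)
    linarith
  · exact hN1.trans (ENNReal.ofReal_le_ofReal hbd)
  · have h5 : NH (at' s.b.u t - s.b.D) ≤ ENNReal.ofReal (2 * ρ) := by
      refine (NH_solid.le _).trans ?_
      rw [ENNReal.ofReal_mul (by norm_num), ENNReal.ofReal_ofNat]
      refine mul_le_mul' le_rfl (hY t ht0 ((show t ≤ dl' from ht).trans hdl1))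
    refine (hN2 t ht0).trans ?_
    calc _ ≤ ENNReal.ofReal (2 * ρ) + NH (s.b.D - V) + ENNReal.ofReal (16 * Real.sqrt c *
          Real.sqrt (36 * s.θ + (1 / 4) ^ n) + (1 / 4) ^ n) :=
          add_le_add (add_le_add h5 le_rfl) (ENNReal.ofReal_le_ofReal hbd)
      _ = NH (s.b.D - V) + (ENNReal.ofReal (2 * ρ) + ENNReal.ofReal (16 * Real.sqrt c *
          Real.sqrt (36 * s.θ + (1 / 4) ^ n) + (1 / 4) ^ n)) := by ring
      _ = _ := by
          rw [← ENNReal.ofReal_add (by positivity) (by positivity)]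
          congr 2
          rw [hρdef]; ring
  · exact (huD q hq).trans (ENNReal.ofReal_le_ofReal hρs3)

/-- the weighted norms of the members of the sequence -/
lemma WL_seq {φ : ℝ → ℝ≥0∞} (hφ : Wgt φ) {u : ℕ → Fam} (hu : ∀ n, CF (u n))
    (h : ∀ n, WL φ (u (n + 1) - u n) ≤ ENNReal.ofReal ((1 / 4) ^ n)) (n : ℕ) :
    WL φ (u n) ≤ XN (u 0) + ENNReal.ofReal 2 := by
  have key : ∀ n : ℕ, WL φ (u n) ≤ XN (u 0) + ENNReal.ofReal (2 * (1 - (1 / 4) ^ n)) := by
    intro n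
    induction n with
    | zero => simpa using WL_le_XN hφ (u 0)
    | succ n ih =>
      have e1 : u (n + 1) = u n + (u (n + 1) - u n) := by abel
      rw [e1]
      have h1 : ((1 : ℝ) / 4) ^ n ≤ 1 := pow_le_one₀ (by norm_num) (by norm_num)
      have h2 : (0 : ℝ) < (1 / 4) ^ n := by positivity
      refine (WL_add hφ (hu n) fun k => (hu (n + 1) k).sub (hu n k)).trans ((add_le_add ih (h n)).trans ?_)
      rw [add_assoc, ← ENNReal.ofReal_add (by nlinarith) (by positivity)]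
      apply add_le_add le_rfl
      apply ENNReal.ofReal_le_ofReal
      rw [pow_succ]
      linarith
  refine (key n).trans (add_le_add le_rfl (ENNReal.ofReal_le_ofReal ?_))
  have h2 : (0 : ℝ) < (1 / 4) ^ n := by positivity
  linarith

end Pool.Agent.K1H11.NS
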