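import Pool.Agent.H8.NS.Block1
import Pool.Agent.H8.NS.Rec8

/-!
# One block of the construction: a flow on `(0, T₀]` with a prescribed value at the time zero and near a local solution
-/

open MeasureTheory Set Filter Topology
open scoped ENNReal NNReal ContDiff

namespace Pool.Agent.K1H11.NS

open H459R3.NS (ee fc fr cube S SP Per pd D Rap)
open Pool.Agent.H356R3.NS (shellSum critNorm leiLin)

/-- the size of the perturbation in `H⁻¹` -/
noncomputable def BB (c θ : ℝ) (n0 : ℕ) : ℝ :=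
  16 * Real.sqrt c * Real.sqrt (36 * (θ + 2 * (1 / 4) ^ n0) + (1 / 4) ^ n0) + (1 / 4) ^ n0

lemma BB_le {c θ θ' : ℝ} {n n0 : ℕ} (hθ : θ ≤ θ' + 2 * (1 / 4) ^ n0) :
    16 * Real.sqrt c * Real.sqrt (36 * θ + (1 / 4) ^ (n + n0)) + (1 / 4) ^ (n + n0) ≤ BB c θ' n0 := by
  unfold BB
  have h1 := quarter_shift' n n0
  have h2 : Real.sqrt (36 * θ + (1 / 4) ^ (n + n0)) ≤ Real.sqrt (36 * (θ' + 2 * (1 / 4) ^ n0) + (1 / 4) ^ n0) :=
    Real.sqrt_le_sqrt (by linarith)
  have h3 := mul_le_mul_of_nonneg_left h2 (show 0 ≤ 16 * Real.sqrt c by positivity)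
  linarith

/-- **One block.** -/
theorem blockF {φ : ℝ → ℝ≥0∞} (hφ : Wgt φ) {c : ℝ} (hc : 0 < c) : ∃ θc : ℝ, 0 < θc ∧ ∀ {F : Fam}, CF F → ∀ {T0 : ℝ},
    (∀ k t, t ≤ T0 → F k t = 0) → ∀ {g : K → C3}, SD g → ∀ {a : Wt}, Sup a → ∀ {w : Fam}, SolF c F a g w →
    ∀ (n0 : ℕ) {V : ℕ → K → C3}, (∀ n, SD (V n)) →
    (∀ n, NH (V n - V (n + 1)) ≤ ENNReal.ofReal ((1 / 4) ^ (n + n0))) →
    ∀ {δ β : ℝ}, 0 < δ → δ ≤ T0 → 0 < β → ∃ U : Fam,
      (∀ t0, 0 < t0 → t0 ≤ T0 → SD (at' U t0) ∧ ∃ a' : Wt, Sup a' ∧ ∃ z : Fam,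
        SolF c (sh t0 F) a' (at' U t0) z ∧ ∀ k s, 0 ≤ s → t0 + s ≤ T0 → z k s = U k (t0 + s)) ∧
      (∀ t, δ ≤ t → t ≤ T0 → Summable (fun k => ‖U k t - w k t‖) ∧ ∑' k, ‖U k t - w k t‖ ≤ β) ∧
      (∀ ρ : ℝ, 0 < ρ → ∃ δ' : ℝ, 0 < δ' ∧ ∀ t, 0 < t → t ≤ δ' → Real.sqrt t * ∑' k, ‖U k t‖ ≤ ρ) ∧
      (∃ G : ℕ → ℝ≥0∞, (∀ (j : ℕ) (t : ℝ), (1 / 4) ^ (j + 1) < t → t ≤ (1 / 4) ^ j → t ≤ T0 →
        ENNReal.ofReal (Real.sqrt t * ∑' k, ‖U k t‖) ≤ G j) ∧ ∀ q : ℝ, 2 < q → ∑' j, G j ^ q ≠ ⊤) ∧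
      (∀ r : ℝ, 2 < r → ∀ N : (K → C3) → ℝ≥0∞, GoodN N → (∀ x, N x ≤ critNorm r x) → ∀ v : K → C3,
        Tendsto (fun n => N (V n - v)) atTop (𝓝 0) → ∀ ρ : ℝ, 0 < ρ → ∃ δ' : ℝ, 0 < δ' ∧ ∀ t, 0 < t → t ≤ δ' →
        N (at' U t - v) ≤ ENNReal.ofReal ρ) ∧
      ∫⁻ t in Ioc 0 T0, E2 (at' U t) ^ (2 : ℝ) ≠ ⊤ ∧
      (∀ v : K → C3, Tendsto (fun n => NH (V n - v)) atTop (𝓝 0) →
        (∀ ρ : ℝ, 0 < ρ → ∃ δ' : ℝ, 0 < δ' ∧ ∀ t, 0 < t → t ≤ δ' → NH (at' U t - v) ≤ ENNReal.ofReal ρ) ∧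
        ∀ t, 0 < t → t ≤ δ → NH (at' U t - v) ≤ NH (at' w t - g) +
          ENNReal.ofReal (2 * β + (NH (g - V 0)).toReal + 2 * BB c (NH (g - V 0)).toReal n0 +
            2 / ((n0 : ℝ) + 1) + 3 * (1 / 4) ^ n0)) ∧
      (3 / ((n0 : ℝ) + 1) ≤ θc → ∀ t, 0 < t → t ≤ δ →
        Real.sqrt t * ∑' k, ‖U k t‖ ≤ Real.sqrt t * (An w t + β) + 12 / ((n0 : ℝ) + 1)) ∧
      (∀ r : ℝ, 2 + 1 / ((n0 : ℝ) + 1) ≤ r → ∀ N : (K → C3) → ℝ≥0∞, GoodN N → (∀ x, N x ≤ critNorm r x) →
        ∀ (v : K → C3) (κ : ℝ), 0 ≤ κ → (∀ n, N (V n - v) ≤ ENNReal.ofReal κ) → ∀ t, 0 < t → t ≤ δ →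
        N (at' U t - v) ≤ N (at' w t - g) + N (g - V 0) + ENNReal.ofReal (2 * β + 4 / ((n0 : ℝ) + 1) + 3 * κ)) ∧
      ∫⁻ t in Ioc 0 (min T0 1), (φ t * ∑' k, ‖U k t‖ₑ) ^ (2 : ℝ) ≠ ⊤ := by
  obtain ⟨θc, hθc, hwin⟩ := win_AnL hc
  refine ⟨θc, hθc, fun {F} hCF {T0} hF {g} hg {a} ha {w} hw n0 {V} hV hVV {δ β} hδ hδT hβ => ?_⟩
  choose f hf using fun n s => exists_next8F hφ hc hCF hF (hV (n + 1)) (n + n0) s
  have hD0 : SD (g - V 0) := hg.sub (hV 0)
  set θ0 : ℝ := (NH (g - V 0)).toReal with hθ0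
  have hθ00 : 0 ≤ θ0 := ENNReal.toReal_nonneg
  have hNg : NH (g - V 0) = ENNReal.ofReal θ0 := by rw [hθ0, ENNReal.ofReal_toReal hD0.NH_ne]
  set b0 : BStF c F := ⟨g, a, w, δ, β, hg, ha, hw, hδ, hβ⟩ with hb0
  set c0 : CStF c F := ⟨b0, V 0, θ0, hV 0, hθ00, Str_of_NH hD0 hθ00 hNg.le⟩ with hc0
  obtain ⟨S, hS0, hR⟩ : ∃ S : ℕ → CStF c F, S 0 = c0 ∧ ∀ n, CRelW φ c F T0 (V (n + 1)) (n + n0) (S n) (S (n + 1)) :=
    ⟨fun n => Nat.rec c0 f n, rfl, fun n => hf n _⟩
  have hSV : ∀ n, (S n).V = V n := by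
    intro n
    cases n with
    | zero => rw [hS0]
    | succ m => exact (hR m).tgt
  have hRb' : ∀ n, BRelF c F T0 (V n) (n + n0) (S n).b (S (n + 1)).b := fun n => by
    have := (hR n).base
    rwa [hSV n] at this
  have hRb : ∀ n, BRelF c F T0 (V n) n (S n).b (S (n + 1)).b := fun n => (hRb' n).mono
  have hS0b : (S 0).b = b0 := by rw [hS0]
  have hS0u : (S 0).b.u = w := by rw [hS0b]
  have hS0D : (S 0).b.D = g := by rw [hS0b]
  have hS0d : (S 0).b.dl = δ := by rw [hS0b]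
  have hS0e : (S 0).b.be = β := by rw [hS0b]
  have hS0t : (S 0).θ = θ0 := by rw [hS0]
  obtain ⟨U, hU1, hU2, hU3, hU4, hU5⟩ := bif_seqF hc hCF hF (S := fun n => (S n).b) hRb (by rw [hS0d]; exact hδT)
  have hdn : ∀ (n : ℕ) (q : ℝ), 2 + 1 / ((n : ℝ) + 1) ≤ q →
      DN q ((S (n + 1)).b.u - (S n).b.u) ≤ ENNReal.ofReal ((1 / 4) ^ n) := by
    intro n q hq
    refine ((hR n).dn q ?_).trans (ENNReal.ofReal_le_ofReal (quarter_shift n n0))
    have := one_div_shift n n0
    linarith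
  have dl0 : ∀ n, 0 < (S n).b.dl := fun n => (S n).b.hdl
  have be0 : ∀ n, 0 < (S n).b.be := fun n => (S n).b.hbe
  have dlh : ∀ n, (S (n + 1)).b.dl ≤ (S n).b.dl / 2 := fun n => (hRb n).dl
  have beh : ∀ n, (S (n + 1)).b.be ≤ (S n).b.be / 2 := fun n => (hRb n).be
  have hanti : Antitone fun n => (S n).b.dl := half_anti dl0 dlh
  have hbanti : Antitone fun n => (S n).b.be := half_anti be0 beh
  have hbe1 : ∀ n, (S n).b.be ≤ β := fun n => by
    have := hbanti (Nat.zero_le n)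
    simp only [hS0e] at this
    exact this
  have hdl : Tendsto (fun n => (S n).b.dl) atTop (𝓝 0) := half_tendsto dl0 dlh
  have hbe : Tendsto (fun n => (S n).b.be) atTop (𝓝 0) := half_tendsto be0 beh
  have hd : ∀ n, Dom (S n).b.u := fun n => (S n).b.hu.dom' (S n).b.ha
  have hcf : ∀ n, CF (S n).b.u := fun n => (S n).b.hu.cf
  -- the stresses
  have hth : ∀ n, (S (n + 1)).θ ≤ 2 * (1 / 4) ^ (n + n0) := by
    intro n
    have h1 := (hR n).th
    rw [hSV n] at h1
    have h2 : (NH (V n - V (n + 1))).toReal ≤ (1 / 4) ^ (n + n0) :=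
      ENNReal.toReal_le_of_le_ofReal (by positivity) (hVV n)
    linarith
  have h4n0 : (0 : ℝ) < (1 / 4) ^ n0 := by positivity
  have hthB : ∀ n, (S n).θ ≤ θ0 + 2 * (1 / 4) ^ n0 := by
    intro n
    cases n with
    | zero => rw [hS0t]; linarith
    | succ m =>
      have h1 := hth m
      have h2 := quarter_shift' m n0
      linarith
  have hBB : ∀ n, 16 * Real.sqrt c * Real.sqrt (36 * (S n).θ + (1 / 4) ^ (n + n0)) + (1 / 4) ^ (n + n0) ≤ BB c θ0 n0 :=
    fun n => BB_le (hthB n)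
  have hBB0 : 0 ≤ BB c θ0 n0 := by unfold BB; positivity
  have hUle : ∀ m t, 0 < t → (S (m + 1)).b.dl ≤ t → t ≤ T0 → ∑' k, ‖U k t‖ ≤ An (S m).b.u t + (S m).b.be := by
    intro m t ht hm htT
    obtain ⟨q1, q2⟩ := hU2 m t hm htT
    have hs1 : Summable fun k => ‖(S m).b.u k t‖ := (hd m).sn t
    have hs2 : Summable fun k => ‖U k t‖ := (hU3 t ht htT).1.rr.summ
    refine (hs2.tsum_le_tsum (fun k => ?_) (hs1.add q1)).trans ?_
    · have : U k t = (S m).b.u k t + (U k t - (S m).b.u k t) := by abel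
      calc ‖U k t‖ = ‖(S m).b.u k t + (U k t - (S m).b.u k t)‖ := by rw [← this]
        _ ≤ _ := norm_add_le _ _
    · rw [hs1.tsum_add q1]
      exact add_le_add le_rfl q2
  have hN := NH_solid.toGoodN
  -- the distance of `U` from the approximations in `H⁻¹`
  have hNU : ∀ m t, 0 < t → (S (m + 1)).b.dl ≤ t → t ≤ T0 → NH (at' U t - at' (S m).b.u t) ≤
      ENNReal.ofReal (2 * (S m).b.be) := by
    intro m t ht hm htT
    obtain ⟨q1, q2⟩ := hU2 m t hm htT
    exact NH_le_An q1 q2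
  refine ⟨U, hU3, fun t ht htT => ?_, hU4, growth_seqF hc hF hRb hdn (fun t ht htT => (hU3 t ht htT).1) hU2, hU5,
    ?_, fun v hv => ⟨?_, fun t ht htd => ?_⟩, fun hn0 t ht htd => ?_, fun r hr N hN hNr v κ hκ hVv t ht htd => ?_,
    ?_⟩
  · have h1 : (S 1).b.dl ≤ t := by
      have h2 := dlh 0
      have h3 := dl0 0
      rw [zero_add] at h2
      rw [hS0d] at h2 h3
      linarith
    have h6 := hU2 0 t h1 htT
    rw [hS0u, hS0e] at h6
    exact h6
  · -- the norm in `L²`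
    have hsq : ∀ n, Real.sqrt (36 * (S (n + 1)).θ + (1 / 4) ^ (n + 1 + n0)) ≤ 9 * (1 / 2) ^ n := by
      intro n
      rw [Real.sqrt_le_left (by positivity)]
      have h1 := hth n
      have h3 := quarter_shift n n0
      have e1 : ((1 : ℝ) / 2) ^ n * (1 / 2) ^ n = (1 / 4) ^ n := by
        rw [← mul_pow]; norm_num
      have h2 : (0 : ℝ) < (1 / 4) ^ n := by positivity
      have h4 : ((1 : ℝ) / 4) ^ (n + 1 + n0) ≤ (1 / 4) ^ n :=
        pow_le_pow_of_le_one (by norm_num) (by norm_num) (by omega)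
      nlinarith
    have h42 : ∀ n : ℕ, ((1 : ℝ) / 4) ^ n ≤ (1 / 2) ^ n := fun n =>
      pow_le_pow_left₀ (by norm_num) (by norm_num) n
    set B0 := 14 * Real.sqrt (36 * (S 0).θ + (1 / 4) ^ (0 + n0)) + (1 / 4) ^ (0 + n0) with hB0
    have hB00 : 0 ≤ B0 := by positivity
    have key : ∀ n, L2N ((S (n + 1)).b.u - w) ≤ ENNReal.ofReal (B0 + 254 * (1 - (1 / 2) ^ n)) := by
      intro n
      induction n with
      | zero =>
        have h1 := (hR 0).l2
        rw [hS0u] at h1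
        refine h1.trans (ENNReal.ofReal_le_ofReal ?_)
        simp [hB0]
      | succ n ih =>
        have e1 : (S (n + 1 + 1)).b.u - w = ((S (n + 1 + 1)).b.u - (S (n + 1)).b.u) + ((S (n + 1)).b.u - w) := by abel
        have c1 : CF ((S (n + 1 + 1)).b.u - (S (n + 1)).b.u) := fun k =>
          ((S (n + 1 + 1)).b.hu.cf k).sub ((S (n + 1)).b.hu.cf k)
        have c2 : CF ((S (n + 1)).b.u - w) := fun k => ((S (n + 1)).b.hu.cf k).sub (hw.cf k)
        rw [e1]
        have h3 : (0 : ℝ) ≤ (1 / 2) ^ n := by positivity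
        have h4 : ((1 : ℝ) / 2) ^ n ≤ 1 := pow_le_one₀ (by norm_num) (by norm_num)
        refine (L2N_add c1 c2).trans ((add_le_add (hR (n + 1)).l2 ih).trans ?_)
        rw [← ENNReal.ofReal_add (by positivity) (by nlinarith)]
        apply ENNReal.ofReal_le_ofReal
        have h1 := hsq n
        have h5 : ((1 : ℝ) / 2) ^ (n + 1) = (1 / 2) ^ n * (1 / 2) := pow_succ _ _
        rw [h5]
        have h6 : ((1 : ℝ) / 4) ^ (n + 1 + n0) ≤ (1 / 2) ^ n * (1 / 2) := by
          have h7 := h42 (n + 1)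
          have h8 := quarter_shift (n + 1) n0
          rw [h5] at h7
          exact h8.trans h7
        linarith
    have hXfin : XN w ≠ ⊤ := hw.XN_ne
    have hB : ∀ n, L2N (S (n + 1)).b.u ≤ ENNReal.ofReal (B0 + 254) + XN w := by
      intro n
      have e1 : (S (n + 1)).b.u = ((S (n + 1)).b.u - w) + w := by abel
      have c2 : CF ((S (n + 1)).b.u - w) := fun k => ((S (n + 1)).b.hu.cf k).sub (hw.cf k)
      rw [e1]
      refine (L2N_add c2 hw.cf).trans (add_le_add ((key n).trans (ENNReal.ofReal_le_ofReal ?_)) (L2N_le_XN w))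
      have : (0 : ℝ) ≤ (1 / 2) ^ n := by positivity
      linarith
    refine ne_top_of_le_ne_top ?_ (L2_limL (x := fun n => (S (n + 1)).b.u) (fun n => (S (n + 1)).b.hu.cf)
      (fun k t ht htT => (tendsto_add_atTop_iff_nat 1).2 (hU1 k t ht htT)) hB)
    exact ENNReal.rpow_ne_top_of_nonneg (by norm_num) (ENNReal.add_ne_top.2 ⟨ENNReal.ofReal_ne_top, hXfin⟩)
  · -- the initial value in `H⁻¹`
    intro ρ hρ
    have hsc := Real.sqrt_nonneg c
    have hsq : ∀ n, Real.sqrt (36 * (S (n + 1)).θ + (1 / 4) ^ (n + 1 + n0)) ≤ 9 * (1 / 2) ^ n := by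
      intro n
      rw [Real.sqrt_le_left (by positivity)]
      have h1 := hth n
      have h3 := quarter_shift n n0
      have e1 : ((1 : ℝ) / 2) ^ n * (1 / 2) ^ n = (1 / 4) ^ n := by
        rw [← mul_pow]; norm_num
      have h2 : (0 : ℝ) < (1 / 4) ^ n := by positivity
      have h4 : ((1 : ℝ) / 4) ^ (n + 1 + n0) ≤ (1 / 4) ^ n :=
        pow_le_pow_of_le_one (by norm_num) (by norm_num) (by omega)
      nlinarith
    have h42 : ∀ n : ℕ, ((1 : ℝ) / 4) ^ n ≤ (1 / 2) ^ n := fun n =>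
      pow_le_pow_left₀ (by norm_num) (by norm_num) n
    set Kc := 16 * Real.sqrt c * 9 + 1 with hKc
    have hKc0 : 0 < Kc := by positivity
    have hbd : ∀ n, 16 * Real.sqrt c * Real.sqrt (36 * (S (n + 1)).θ + (1 / 4) ^ (n + 1 + n0)) + (1 / 4) ^ (n + 1 + n0) ≤
        Kc * (1 / 2) ^ n := by
      intro n
      have h1 := mul_le_mul_of_nonneg_left (hsq n) (show 0 ≤ 16 * Real.sqrt c by positivity)
      have h2 := (quarter_shift (n + 1) n0).trans (h42 (n + 1))
      have h5 : ((1 : ℝ) / 2) ^ (n + 1) = (1 / 2) ^ n * (1 / 2) := pow_succ _ _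
      rw [h5] at h2
      have h3 : (0 : ℝ) ≤ (1 / 2) ^ n := by positivity
      rw [hKc]
      nlinarith
    have hpow : Tendsto (fun n : ℕ => Kc * (1 / 2 : ℝ) ^ n) atTop (𝓝 0) := by
      have := (tendsto_pow_atTop_nhds_zero_of_lt_one (r := (1 / 2 : ℝ)) (by norm_num) (by norm_num)).const_mul Kc
      rwa [mul_zero] at this
    have hn3' : Tendsto (fun n : ℕ => 2 / ((n : ℝ) + 1)) atTop (𝓝 0) := by
      have := tendsto_one_div_add_atTop_nhds_zero_nat.const_mul (2 : ℝ)
      rw [mul_zero] at this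
      refine this.congr fun n => by ring
    have hρ8 : (0 : ℝ≥0∞) < ENNReal.ofReal (ρ / 8) := by
      rw [ENNReal.ofReal_pos]; positivity
    obtain ⟨n3, hn3⟩ := Filter.eventually_atTop.1 ((((hbe.eventually (gt_mem_nhds (show 0 < ρ / 16 by positivity))).and
      (hv.eventually (gt_mem_nhds hρ8))).and (hpow.eventually (gt_mem_nhds (show 0 < ρ / 16 by positivity)))).and
      (hn3'.eventually (gt_mem_nhds (show 0 < ρ / 16 by positivity))))
    set n1 := n3 + 3 with hn1def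
    refine ⟨(S n1).b.dl / 2, by have := dl0 n1; positivity, fun t ht htd => ?_⟩
    have htn : t < (S n1).b.dl := by have := dl0 n1; linarith
    have htT : t ≤ T0 := by
      have h1 : (S n1).b.dl ≤ (S 0).b.dl := hanti (Nat.zero_le _)
      rw [hS0d] at h1
      linarith
    -- the index
    obtain ⟨n, hnn, hm1, hm3⟩ : ∃ n, n1 ≤ n + 1 ∧ (S (n + 2)).b.dl ≤ t ∧ t < (S (n + 1)).b.dl := by
      classical
      have hex : ∃ m, (S m).b.dl ≤ t := by
        obtain ⟨m, hm⟩ := (hdl.eventually (gt_mem_nhds ht)).exists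
        exact ⟨m, hm.le⟩
      set m := Nat.find hex with hm
      have hm1 : (S m).b.dl ≤ t := Nat.find_spec hex
      have hm2 : n1 < m := by
        by_contra hcon
        push Not at hcon
        have : (S n1).b.dl ≤ (S m).b.dl := hanti hcon
        linarith
      obtain ⟨n, hn⟩ : ∃ n, m = n + 2 := ⟨m - 2, by omega⟩
      have hm3 : t < (S (n + 1)).b.dl := by
        have := Nat.find_min hex (m := n + 1) (by omega)
        push Not at this
        exact this
      rw [hn] at hm1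
      exact ⟨n, by omega, hm1, hm3⟩
    obtain ⟨n', rfl⟩ : ∃ n', n = n' + 2 := ⟨n - 2, by omega⟩
    obtain ⟨⟨⟨-, v1⟩, -⟩, w1⟩ := hn3 (n' + 2) (by omega)
    obtain ⟨⟨⟨-, v2⟩, p1⟩, -⟩ := hn3 (n' + 1) (by omega)
    obtain ⟨⟨⟨-, -⟩, p2⟩, -⟩ := hn3 n' (by omega)
    obtain ⟨⟨⟨b1, -⟩, -⟩, -⟩ := hn3 (n' + 2 + 1) (by omega)
    have p3 := (hR (n' + 2)).nh2 t ht.le hm3.le
    have p5 := (hR (n' + 1)).nh1
    rw [hSV] at p3 p5
    have hb1 := hbd (n' + 1)
    have hb2 := hbd n'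
    have p4 : NH ((S (n' + 2)).b.D - V (n' + 2)) ≤
        ENNReal.ofReal (ρ / 16) + (ENNReal.ofReal (ρ / 8) + ENNReal.ofReal (ρ / 8)) := by
      have e3 : (S (n' + 2)).b.D - V (n' + 2) = ((S (n' + 2)).b.D - V (n' + 1)) +
          ((V (n' + 1) - v) + -(V (n' + 2) - v)) := by abel
      rw [e3]
      refine (hN.add _ _).trans (add_le_add ?_ ((hN.add _ _).trans (add_le_add v2.le ((hN.neg _).trans v1.le))))
      exact p5.trans (ENNReal.ofReal_le_ofReal (hb2.trans p2.le))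
    have p3' : NH (at' (S (n' + 2 + 1)).b.u t - V (n' + 2)) ≤
        ENNReal.ofReal (ρ / 16) + (ENNReal.ofReal (ρ / 8) + ENNReal.ofReal (ρ / 8)) + ENNReal.ofReal (ρ / 8) := by
      refine p3.trans (add_le_add p4 (ENNReal.ofReal_le_ofReal ?_))
      have h7 := hb1.trans p1.le
      have h8 : (2 : ℝ) / (((n' + 2 : ℕ) : ℝ) + 1) ≤ ρ / 16 := w1.le
      have h9 : (2 : ℝ) / (((n' + 2 + n0 : ℕ) : ℝ) + 1) ≤ (2 : ℝ) / (((n' + 2 : ℕ) : ℝ) + 1) := by
        have h10 := one_div_shift (n' + 2) n0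
        have e1 : (2 : ℝ) / (((n' + 2 + n0 : ℕ) : ℝ) + 1) = 2 * (1 / (((n' + 2 + n0 : ℕ) : ℝ) + 1)) := by ring
        have e2 : (2 : ℝ) / (((n' + 2 : ℕ) : ℝ) + 1) = 2 * (1 / (((n' + 2 : ℕ) : ℝ) + 1)) := by ring
        rw [e1, e2]
        linarith
      have e9 : n' + 1 + 1 + n0 = n' + 2 + n0 := by omega
      have e10 : n' + 1 + 1 = n' + 2 := by omega
      rw [e9, e10] at h7
      linarith
    have e3 : at' U t - v = (at' U t - at' (S (n' + 2 + 1)).b.u t) +
        ((at' (S (n' + 2 + 1)).b.u t - V (n' + 2)) + (V (n' + 2) - v)) := by abel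
    rw [e3]
    have p6 : NH (at' U t - at' (S (n' + 2 + 1)).b.u t) ≤ ENNReal.ofReal (ρ / 8) := by
      refine (hNU (n' + 2 + 1) t ht hm1 htT).trans (ENNReal.ofReal_le_ofReal ?_)
      have := b1
      linarith
    refine (hN.add _ _).trans ((add_le_add p6 ((hN.add _ _).trans (add_le_add p3' v1.le))).trans ?_)
    rw [← ENNReal.ofReal_add (by positivity) (by positivity), ← ENNReal.ofReal_add (by positivity) (by positivity),
      ← ENNReal.ofReal_add (by positivity) (by positivity), ← ENNReal.ofReal_add (by positivity) (by positivity),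
      ← ENNReal.ofReal_add (by positivity) (by positivity)]
    apply ENNReal.ofReal_le_ofReal
    linarith
  · -- the distance in `H⁻¹`, quantitatively
    have htT : t ≤ T0 := htd.trans hδT
    have hn0p : (0 : ℝ) < 2 / ((n0 : ℝ) + 1) := by positivity
    have hvn : ∀ n, NH (V n - v) ≤ ENNReal.ofReal (2 * (1 / 4) ^ n0) := fun n => NH_lim_le hVV hv n
    rcases le_or_gt (S 1).b.dl t with h1 | h1
    · -- the time is not small
      have p1 := hNU 0 t ht h1 htT
      rw [hS0u, hS0e] at p1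
      have e3 : at' U t - v = (at' U t - at' w t) + ((at' w t - g) + ((g - V 0) + (V 0 - v))) := by abel
      rw [e3]
      calc _ ≤ ENNReal.ofReal (2 * β) + (NH (at' w t - g) + (ENNReal.ofReal θ0 + ENNReal.ofReal (2 * (1 / 4) ^ n0))) :=
            (hN.add _ _).trans (add_le_add p1 ((hN.add _ _).trans (add_le_add le_rfl ((hN.add _ _).trans
              (add_le_add hNg.le (hvn 0))))))
        _ = NH (at' w t - g) + ENNReal.ofReal (2 * β + θ0 + 2 * (1 / 4) ^ n0) := by
            rw [ENNReal.ofReal_add (by positivity) (by positivity), ENNReal.ofReal_add (by positivity) hθ00]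
            ring
        _ ≤ _ := by
            apply add_le_add le_rfl
            apply ENNReal.ofReal_le_ofReal
            linarith
    · obtain ⟨n, m1, m2⟩ := find_idx dl0 dlh ht h1
      have p1 : NH (at' U t - at' (S (n + 1)).b.u t) ≤ ENNReal.ofReal (2 * β) :=
        (hNU (n + 1) t ht m1 htT).trans (ENNReal.ofReal_le_ofReal (by have := hbe1 (n + 1); linarith))
      have p2 := (hR n).nh2 t ht.le m2.le
      rw [hSV] at p2
      have h2n : 2 / (((n + n0 : ℕ) : ℝ) + 1) ≤ 2 / ((n0 : ℝ) + 1) := by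
        have h10 := one_div_shift' n n0
        have e1 : (2 : ℝ) / (((n + n0 : ℕ) : ℝ) + 1) = 2 * (1 / (((n + n0 : ℕ) : ℝ) + 1)) := by ring
        have e2 : (2 : ℝ) / ((n0 : ℝ) + 1) = 2 * (1 / ((n0 : ℝ) + 1)) := by ring
        rw [e1, e2]
        linarith
      have p3 : ENNReal.ofReal (2 / (((n + n0 : ℕ) : ℝ) + 1) + (16 * Real.sqrt c * Real.sqrt (36 * (S n).θ +
          (1 / 4) ^ (n + n0)) + (1 / 4) ^ (n + n0))) ≤ ENNReal.ofReal (2 / ((n0 : ℝ) + 1) + BB c θ0 n0) := by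
        apply ENNReal.ofReal_le_ofReal
        have := hBB n
        linarith
      have p4 : NH ((S n).b.D - V n) ≤ ENNReal.ofReal (θ0 + BB c θ0 n0 + (1 / 4) ^ n0) := by
        cases n with
        | zero =>
          rw [hS0D, hNg]
          apply ENNReal.ofReal_le_ofReal
          linarith
        | succ m =>
          have e3 : (S (m + 1)).b.D - V (m + 1) = ((S (m + 1)).b.D - V m) + (V m - V (m + 1)) := by abel
          rw [e3]
          have q1 := (hR m).nh1
          rw [hSV] at q1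
          refine (hN.add _ _).trans ((add_le_add (q1.trans (ENNReal.ofReal_le_ofReal (hBB m))) (hVV m)).trans ?_)
          rw [← ENNReal.ofReal_add hBB0 (by positivity)]
          apply ENNReal.ofReal_le_ofReal
          have := quarter_shift' m n0
          linarith
      have e3 : at' U t - v = (at' U t - at' (S (n + 1)).b.u t) + ((at' (S (n + 1)).b.u t - V n) + (V n - v)) := by
        abel
      rw [e3]
      calc _ ≤ ENNReal.ofReal (2 * β) + ((ENNReal.ofReal (θ0 + BB c θ0 n0 + (1 / 4) ^ n0) +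
            ENNReal.ofReal (2 / ((n0 : ℝ) + 1) + BB c θ0 n0)) + ENNReal.ofReal (2 * (1 / 4) ^ n0)) :=
            (hN.add _ _).trans (add_le_add p1 ((hN.add _ _).trans (add_le_add (p2.trans (add_le_add p4 p3)) (hvn n))))
        _ = ENNReal.ofReal (2 * β + θ0 + 2 * BB c θ0 n0 + 2 / ((n0 : ℝ) + 1) + 3 * (1 / 4) ^ n0) := by
            rw [← ENNReal.ofReal_add (by positivity) (by positivity), ← ENNReal.ofReal_add (by positivity) (by positivity),
              ← ENNReal.ofReal_add (by positivity) (by positivity)]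
            congr 1
            ring
        _ ≤ _ := le_add_self
  · -- the growth, quantitatively
    have htT : t ≤ T0 := htd.trans hδT
    have hst0 := Real.sqrt_nonneg t
    have hnp : (0 : ℝ) < (n0 : ℝ) + 1 := by positivity
    have h12 : (0 : ℝ) < 12 / ((n0 : ℝ) + 1) := by positivity
    rcases le_or_gt (S 1).b.dl t with h1 | h1
    · have p1 := hUle 0 t ht h1 htT
      rw [hS0u, hS0e] at p1
      have := mul_le_mul_of_nonneg_left p1 hst0
      linarith
    · obtain ⟨n, m1, m2⟩ := find_idx dl0 dlh ht h1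
      have m3 : (S (n + 2 + 1)).b.dl ≤ t := (hanti (Nat.le_succ (n + 2))).trans m1
      have p1 := hUle (n + 2) t ht m3 htT
      set lam := 3 / ((n0 : ℝ) + 1) with hlam
      have hl0 : 0 < lam := by positivity
      have hW : LW t (S (n + 2)).b.u ≤ ENNReal.ofReal lam := by
        have e1 : (S (n + 2)).b.u = ((S (n + 2)).b.u - (S (n + 1)).b.u) +
            (((S (n + 1)).b.u - (S n).b.u) + (S n).b.u) := by abel
        have c1 : CF ((S (n + 2)).b.u - (S (n + 1)).b.u) := fun k => (hcf (n + 2) k).sub (hcf (n + 1) k)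
        have c2 : CF ((S (n + 1)).b.u - (S n).b.u) := fun k => (hcf (n + 1) k).sub (hcf n k)
        have c3 : CF (((S (n + 1)).b.u - (S n).b.u) + (S n).b.u) := fun k => (c2 k).add (hcf n k)
        rw [e1]
        refine (LW_add t c1 c3).trans ((add_le_add ((hRb' (n + 1)).win t ht) ((LW_add t c2 (hcf n)).trans
          (add_le_add ((hRb' n).win t ht) ((hRb' n).small t ht m2.le)))).trans ?_)
        rw [← ENNReal.ofReal_add (by positivity) (by positivity), ← ENNReal.ofReal_add (by positivity) (by positivity)]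
        apply ENNReal.ofReal_le_ofReal
        have q1 := one_div_shift' (n + 1) n0
        have q2 := one_div_shift' n n0
        have e2 : lam = 3 * (1 / ((n0 : ℝ) + 1)) := by rw [hlam]; ring
        rw [e2]
        linarith
      have hA := hwin (S (n + 2)).b.u (hcf (n + 2)) (hd (n + 2)) t lam
        (((S (n + 2)).b.hu.DS (S (n + 2)).b.ha hF).mono htT) ht hl0 hn0 hW
      have hAw := An_nonneg w t
      have hb2 := hbe1 (n + 2)
      have e4 : 12 / ((n0 : ℝ) + 1) = 4 * lam := by rw [hlam]; ring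
      calc Real.sqrt t * ∑' k, ‖U k t‖ ≤ Real.sqrt t * (An (S (n + 2)).b.u t + (S (n + 2)).b.be) :=
            mul_le_mul_of_nonneg_left p1 hst0
        _ = Real.sqrt t * An (S (n + 2)).b.u t + Real.sqrt t * (S (n + 2)).b.be := by ring
        _ ≤ 4 * lam + Real.sqrt t * (An w t + β) := by
            refine add_le_add hA (mul_le_mul_of_nonneg_left ?_ hst0)
            linarith
        _ = _ := by rw [e4]; ring
  · -- the distance in a critical norm
    have htT : t ≤ T0 := htd.trans hδT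
    have hNU' : ∀ m t, 0 < t → (S (m + 1)).b.dl ≤ t → t ≤ T0 → N (at' U t - at' (S m).b.u t) ≤
        ENNReal.ofReal (2 * β) := by
      intro m t ht hm htT
      obtain ⟨q1, q2⟩ := hU2 m t hm htT
      refine (GoodN_le_An hN (x := at' U t - at' (S m).b.u t) q1 q2).trans (ENNReal.ofReal_le_ofReal ?_)
      have := hbe1 m
      linarith
    have h4p : (0 : ℝ) < 4 / ((n0 : ℝ) + 1) := by positivity
    rcases le_or_gt (S 1).b.dl t with h1 | h1
    · -- the time is not small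
      have p1 := hNU' 0 t ht h1 htT
      rw [hS0u] at p1
      have e3 : at' U t - v = (at' U t - at' w t) + ((at' w t - g) + ((g - V 0) + (V 0 - v))) := by abel
      rw [e3]
      calc _ ≤ ENNReal.ofReal (2 * β) + (N (at' w t - g) + (N (g - V 0) + ENNReal.ofReal κ)) :=
            (hN.add _ _).trans (add_le_add p1 ((hN.add _ _).trans (add_le_add le_rfl ((hN.add _ _).trans
              (add_le_add le_rfl (hVv 0))))))
        _ = N (at' w t - g) + N (g - V 0) + ENNReal.ofReal (2 * β + κ) := by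
            rw [ENNReal.ofReal_add (by positivity) hκ]
            ring
        _ ≤ _ := by
            apply add_le_add le_rfl
            apply ENNReal.ofReal_le_ofReal
            linarith
    · obtain ⟨n, m1, m2⟩ := find_idx dl0 dlh ht h1
      have p1 := hNU' (n + 1) t ht m1 htT
      have hrn : 2 + 1 / (((n + n0 : ℕ) : ℝ) + 1) ≤ r := by
        have := one_div_shift' n n0
        linarith
      have p2 := ((hRb' n).crit r hrn).2 N hN hNr t ht.le m2.le
      have h3n : ENNReal.ofReal (3 / (((n + n0 : ℕ) : ℝ) + 1)) ≤ ENNReal.ofReal (3 / ((n0 : ℝ) + 1)) := by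
        apply ENNReal.ofReal_le_ofReal
        have h10 := one_div_shift' n n0
        have e1 : (3 : ℝ) / (((n + n0 : ℕ) : ℝ) + 1) = 3 * (1 / (((n + n0 : ℕ) : ℝ) + 1)) := by ring
        have e2 : (3 : ℝ) / ((n0 : ℝ) + 1) = 3 * (1 / ((n0 : ℝ) + 1)) := by ring
        rw [e1, e2]
        linarith
      have p4 : N ((S n).b.D - V n) ≤ N (g - V 0) + ENNReal.ofReal (1 / ((n0 : ℝ) + 1) + 2 * κ) := by
        cases n with
        | zero =>
          rw [hS0D]
          exact le_self_add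
        | succ m =>
          have hrm : 2 + 1 / (((m + n0 : ℕ) : ℝ) + 1) ≤ r := by
            have := one_div_shift' m n0
            linarith
          have e3 : (S (m + 1)).b.D - V (m + 1) = ((S (m + 1)).b.D - V m) + ((V m - v) + -(V (m + 1) - v)) := by abel
          rw [e3]
          have q1 := (hNr _).trans ((hRb' m).crit r hrm).1
          refine (hN.add _ _).trans ((add_le_add q1 ((hN.add _ _).trans (add_le_add (hVv m)
            ((hN.neg _).trans (hVv (m + 1)))))).trans (le_trans ?_ le_add_self))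
          rw [← ENNReal.ofReal_add hκ hκ, ← ENNReal.ofReal_add (by positivity) (by positivity)]
          apply ENNReal.ofReal_le_ofReal
          have := one_div_shift' m n0
          linarith
      have e3 : at' U t - v = (at' U t - at' (S (n + 1)).b.u t) + ((at' (S (n + 1)).b.u t - V n) + (V n - v)) := by
        abel
      rw [e3]
      calc _ ≤ ENNReal.ofReal (2 * β) + (((N (g - V 0) + ENNReal.ofReal (1 / ((n0 : ℝ) + 1) + 2 * κ)) +
            ENNReal.ofReal (3 / ((n0 : ℝ) + 1))) + ENNReal.ofReal κ) :=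
            (hN.add _ _).trans (add_le_add p1 ((hN.add _ _).trans (add_le_add (p2.trans (add_le_add p4 h3n)) (hVv n))))
        _ = N (g - V 0) + ENNReal.ofReal (2 * β + 4 / ((n0 : ℝ) + 1) + 3 * κ) := by
            have e5 : ENNReal.ofReal (2 * β) + (((N (g - V 0) + ENNReal.ofReal (1 / ((n0 : ℝ) + 1) + 2 * κ)) +
                ENNReal.ofReal (3 / ((n0 : ℝ) + 1))) + ENNReal.ofReal κ) = N (g - V 0) + (ENNReal.ofReal (2 * β) +
                ENNReal.ofReal (1 / ((n0 : ℝ) + 1) + 2 * κ) + ENNReal.ofReal (3 / ((n0 : ℝ) + 1)) +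
                ENNReal.ofReal κ) := by ring
            rw [e5, ← ENNReal.ofReal_add (by positivity) (by positivity),
              ← ENNReal.ofReal_add (by positivity) (by positivity),
              ← ENNReal.ofReal_add (by positivity) (by positivity)]
            congr 2
            ring
        _ ≤ _ := add_le_add le_add_self le_rfl
  · -- the weighted norm
    have h1 := WL_seq hφ (u := fun n => (S n).b.u) hcf fun n => (hR n).wl.trans (ENNReal.ofReal_le_ofReal
      (quarter_shift n n0))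
    have h2 := WL_lim hφ (T0 := T0) hcf hU1 h1
    refine ne_top_of_le_ne_top (ENNReal.rpow_ne_top_of_nonneg (by norm_num) (ENNReal.add_ne_top.2
      ⟨?_, ENNReal.ofReal_ne_top⟩)) h2
    show XN (S 0).b.u ≠ ⊤
    rw [hS0u]
    exact hw.XN_ne

end Pool.Agent.K1H11.NS
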