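import Pool.Agent.H8.NS.Gr

/-!
# Auxiliary facts for one block of the construction
-/

open MeasureTheory Set Filter Topology
open scoped ENNReal NNReal ContDiff

namespace Pool.Agent.K1H11.NS

open H459R3.NS (ee fc fr cube S SP Per pd D Rap)
open Pool.Agent.H356R3.NS (shellSum critNorm leiLin)

lemma one_div_shift (n n0 : ℕ) : 1 / (((n + n0 : ℕ) : ℝ) + 1) ≤ 1 / ((n : ℝ) + 1) := by
  apply one_div_le_one_div_of_le (by positivity)
  push_cast
  have : (0 : ℝ) ≤ n0 := Nat.cast_nonneg _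
  linarith

lemma one_div_shift' (n n0 : ℕ) : 1 / (((n + n0 : ℕ) : ℝ) + 1) ≤ 1 / ((n0 : ℝ) + 1) := by
  rw [add_comm n n0]
  exact one_div_shift n0 n

lemma quarter_shift (n n0 : ℕ) : ((1 : ℝ) / 4) ^ (n + n0) ≤ (1 / 4) ^ n :=
  pow_le_pow_of_le_one (by norm_num) (by norm_num) (by omega)

lemma quarter_shift' (n n0 : ℕ) : ((1 : ℝ) / 4) ^ (n + n0) ≤ (1 / 4) ^ n0 :=
  pow_le_pow_of_le_one (by norm_num) (by norm_num) (by omega)

lemma BRelF.mono {c : ℝ} {F : Fam} {T0 : ℝ} {V : K → C3} {n n0 : ℕ} {s s' : BStF c F}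
    (h : BRelF c F T0 V (n + n0) s s') : BRelF c F T0 V n s s' where
  dl := h.dl
  be := h.be
  diff := h.diff
  win := fun t ht => (h.win t ht).trans (ENNReal.ofReal_le_ofReal (one_div_shift n n0))
  small := fun t ht h1 => (h.small t ht h1).trans (ENNReal.ofReal_le_ofReal (one_div_shift n n0))
  crit := fun r hr => by
    have h1 := one_div_shift n n0
    obtain ⟨c1, c2⟩ := h.crit r (by linarith)
    refine ⟨c1.trans (ENNReal.ofReal_le_ofReal h1), fun N hN hNr t ht0 ht => ?_⟩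
    refine (c2 N hN hNr t ht0 ht).trans (add_le_add le_rfl (ENNReal.ofReal_le_ofReal ?_))
    have e1 : 3 / (((n + n0 : ℕ) : ℝ) + 1) = 3 * (1 / (((n + n0 : ℕ) : ℝ) + 1)) := by ring
    have e2 : 3 / ((n : ℝ) + 1) = 3 * (1 / ((n : ℝ) + 1)) := by ring
    rw [e1, e2]
    linarith
  opn := h.opn

/-- the index of a small time -/
lemma find_idx {dl : ℕ → ℝ} (dl0 : ∀ n, 0 < dl n) (dlh : ∀ n, dl (n + 1) ≤ dl n / 2) {t : ℝ} (ht : 0 < t)
    (ht1 : t < dl 1) : ∃ n, dl (n + 2) ≤ t ∧ t < dl (n + 1) := by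
  classical
  have hdl : Tendsto dl atTop (𝓝 0) := half_tendsto dl0 dlh
  have hanti : Antitone dl := half_anti dl0 dlh
  have hex : ∃ m, dl m ≤ t := by
    obtain ⟨m, hm⟩ := (hdl.eventually (gt_mem_nhds ht)).exists
    exact ⟨m, hm.le⟩
  set m := Nat.find hex with hm
  have hm1 : dl m ≤ t := Nat.find_spec hex
  have hm2 : 1 < m := by
    by_contra hcon
    push Not at hcon
    have : dl 1 ≤ dl m := hanti hcon
    linarith
  obtain ⟨n, hn⟩ : ∃ n, m = n + 2 := ⟨m - 2, by omega⟩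
  have hm3 : t < dl (n + 1) := by
    have := Nat.find_min hex (m := n + 1) (by omega)
    push Not at this
    exact this
  rw [hn] at hm1
  exact ⟨n, hm1, hm3⟩

/-- lower semicontinuity of the norm in `L²` on a bounded time interval -/
lemma L2_limL {T0 : ℝ} {x : ℕ → Fam} {x' : Fam} (hx : ∀ n, CF (x n))
    (h : ∀ k t, 0 < t → t ≤ T0 → Tendsto (fun n => x n k t) atTop (𝓝 (x' k t))) {B : ℝ≥0∞} (hB : ∀ n, L2N (x n) ≤ B) :
    ∫⁻ t in Ioc 0 T0, E2 (at' x' t) ^ (2 : ℝ) ≤ B ^ (2 : ℝ) := by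
  calc ∫⁻ t in Ioc 0 T0, E2 (at' x' t) ^ (2 : ℝ) ≤ ∫⁻ t in Ioc 0 T0, liminf (fun n => E2 (at' (x n) t) ^ (2 : ℝ)) atTop := by
        refine setLIntegral_mono' measurableSet_Ioc fun t ht => ?_
        simp_rw [E2_rpow]
        exact E2s_liminf fun k => h k t ht.1 ht.2
    _ ≤ liminf (fun n => ∫⁻ t in Ioc 0 T0, E2 (at' (x n) t) ^ (2 : ℝ)) atTop :=
        lintegral_liminf_le fun n => (E2_meas (hx n)).pow_const _
    _ ≤ liminf (fun _ : ℕ => B ^ (2 : ℝ)) atTop := by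
        refine liminf_le_liminf (Eventually.of_forall fun n => ?_)
        have h2 : L2N (x n) ^ (2 : ℝ) = ∫⁻ t in Ioi 0, E2 (at' (x n) t) ^ (2 : ℝ) := by
          unfold L2N LN
          rw [← ENNReal.rpow_mul]
          norm_num
        have h3 : ∫⁻ t in Ioc 0 T0, E2 (at' (x n) t) ^ (2 : ℝ) ≤ ∫⁻ t in Ioi 0, E2 (at' (x n) t) ^ (2 : ℝ) :=
          lintegral_mono_set Ioc_subset_Ioi_self
        refine h3.trans ?_
        rw [← h2]
        exact ENNReal.rpow_le_rpow (hB n) (by norm_num)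
    _ = _ := by simp

lemma GoodN_le_An {N : (K → C3) → ℝ≥0∞} (hN : GoodN N) {x : K → C3} (hx : SN x) {b : ℝ} (hb : ∑' k, ‖x k‖ ≤ b) :
    N x ≤ ENNReal.ofReal (2 * b) := by
  refine (hN.le _).trans ?_
  rw [ENNReal.ofReal_mul (by norm_num), ENNReal.ofReal_ofNat]
  exact mul_le_mul' le_rfl ((LL_le_tsum hx).trans (ENNReal.ofReal_le_ofReal hb))

lemma NH_le_An {x : K → C3} (hx : SN x) {b : ℝ} (hb : ∑' k, ‖x k‖ ≤ b) : NH x ≤ ENNReal.ofReal (2 * b) := by
  refine (NH_solid.toGoodN.le _).trans ?_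
  rw [ENNReal.ofReal_mul (by norm_num), ENNReal.ofReal_ofNat]
  exact mul_le_mul' le_rfl ((LL_le_tsum hx).trans (ENNReal.ofReal_le_ofReal hb))

/-- distances of the members of a fast converging sequence to its limit -/
lemma NH_lim_le {V : ℕ → K → C3} {v : K → C3} {n0 : ℕ} (hVV : ∀ n, NH (V n - V (n + 1)) ≤ ENNReal.ofReal ((1 / 4) ^ (n + n0)))
    (hv : Tendsto (fun n => NH (V n - v)) atTop (𝓝 0)) (n : ℕ) : NH (V n - v) ≤ ENNReal.ofReal (2 * (1 / 4) ^ n0) := by
  have hN := NH_solid.toGoodN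
  have key : ∀ j : ℕ, NH (V n - V (n + j)) ≤ ENNReal.ofReal (2 * (1 / 4) ^ n0 * (1 - (1 / 4) ^ j)) := by
    intro j
    induction j with
    | zero =>
      rw [add_zero, sub_self]
      refine (hN.le _).trans ?_
      rw [show leiLin (0 : K → C3) = 0 by simpa using LL_le_tsum (x := (0 : K → C3)) (by simp [SN])]
      simp
    | succ j ih =>
      have e1 : V n - V (n + (j + 1)) = (V n - V (n + j)) + (V (n + j) - V (n + j + 1)) := by
        rw [← add_assoc]; abel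
      rw [e1]
      refine (hN.add _ _).trans ((add_le_add ih (hVV (n + j))).trans ?_)
      have h1 : ((1 : ℝ) / 4) ^ j ≤ 1 := pow_le_one₀ (by norm_num) (by norm_num)
      have h0 : (0 : ℝ) < (1 / 4) ^ j := by positivity
      have h2 : (0 : ℝ) < (1 / 4) ^ n0 := by positivity
      rw [← ENNReal.ofReal_add (mul_nonneg (by positivity) (by linarith)) (by positivity)]
      apply ENNReal.ofReal_le_ofReal
      have h3 : ((1 : ℝ) / 4) ^ (n + j + n0) ≤ (1 / 4) ^ j * (1 / 4) ^ n0 := by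
        rw [← pow_add]
        exact pow_le_pow_of_le_one (by norm_num) (by norm_num) (by omega)
      rw [pow_succ]
      nlinarith
  have h1 : ∀ j : ℕ, NH (V n - v) ≤ ENNReal.ofReal (2 * (1 / 4) ^ n0) + NH (V (n + j) - v) := by
    intro j
    have e1 : V n - v = (V n - V (n + j)) + (V (n + j) - v) := by abel
    rw [e1]
    refine (hN.add _ _).trans (add_le_add ((key j).trans (ENNReal.ofReal_le_ofReal ?_)) le_rfl)
    have h0 : (0 : ℝ) < (1 / 4) ^ j := by positivity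
    have h2 : (0 : ℝ) < (1 / 4) ^ n0 := by positivity
    nlinarith
  have h2 : Tendsto (fun j => ENNReal.ofReal (2 * (1 / 4) ^ n0) + NH (V (n + j) - v)) atTop
      (𝓝 (ENNReal.ofReal (2 * (1 / 4) ^ n0) + 0)) := by
    refine tendsto_const_nhds.add ?_
    have := (tendsto_add_atTop_iff_nat (f := fun j => NH (V j - v)) n).2 hv
    refine this.congr fun j => ?_
    rw [add_comm]
  rw [add_zero] at h2
  exact ge_of_tendsto h2 (Eventually.of_forall h1)

end Pool.Agent.K1H11.NS
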