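import Pool.Agent.H8.NS.Flow

/-!
# One block as a flow
-/

open MeasureTheory Set Filter Topology
open scoped ENNReal NNReal ContDiff

namespace Pool.Agent.K1H11.NS

open H459R3.NS (ee fc fr cube S SP Per pd D Rap)
open Pool.Agent.H356R3.NS (shellSum critNorm leiLin)

/-- data in `H⁻¹` -/
structure DH (b : K → C3) : Prop where
  sym : Sym b
  z : b 0 = 0
  dt : ∀ k, dt k (b k) = 0
  nh : NH b ≠ ⊤

lemma SD.toDH {b : K → C3} (h : SD b) : DH b := ⟨h.sym, h.z, h.dt, h.NH_ne⟩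

lemma trc_seq {b : K → C3} (hb : NH b ≠ ⊤) {N : (K → C3) → ℝ≥0∞}
    (hN : N b ≠ ⊤ → Tendsto (fun n => N (trc n b - b)) atTop (𝓝 0)) (n0 : ℕ) : ∃ φ : ℕ → ℕ, Tendsto φ atTop atTop ∧
    (∀ n, NH (trc (φ n) b - b) ≤ ENNReal.ofReal ((1 / 4) ^ (n + n0 + 1))) ∧
    (∀ n, NH (trc (φ n) b - trc (φ (n + 1)) b) ≤ ENNReal.ofReal ((1 / 4) ^ (n + n0))) ∧
    (N b ≠ ⊤ → ∀ n, N (trc (φ n) b - b) ≤ ENNReal.ofReal ((1 / 4) ^ (n + n0 + 1))) := by
  have ht := trc_NH hb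
  have h1 : ∀ n : ℕ, ∃ k, n ≤ k ∧ NH (trc k b - b) ≤ ENNReal.ofReal ((1 / 4) ^ (n + n0 + 1)) ∧
      (N b ≠ ⊤ → N (trc k b - b) ≤ ENNReal.ofReal ((1 / 4) ^ (n + n0 + 1))) := by
    intro n
    have h2 : (0 : ℝ≥0∞) < ENNReal.ofReal ((1 / 4) ^ (n + n0 + 1)) := by
      rw [ENNReal.ofReal_pos]; positivity
    by_cases hNb : N b ≠ ⊤
    · obtain ⟨k, ⟨hk1, hk3⟩, hk2⟩ := (((ht.eventually (gt_mem_nhds h2)).and ((hN hNb).eventually (gt_mem_nhds h2))).and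
        (eventually_ge_atTop n)).exists
      exact ⟨k, hk2, hk1.le, fun _ => hk3.le⟩
    · obtain ⟨k, hk1, hk2⟩ := ((ht.eventually (gt_mem_nhds h2)).and (eventually_ge_atTop n)).exists
      exact ⟨k, hk2, hk1.le, fun h => absurd h hNb⟩
  choose φ hφ using h1
  refine ⟨φ, tendsto_atTop_mono (fun n => (hφ n).1) tendsto_id, fun n => (hφ n).2.1, fun n => ?_,
    fun h n => (hφ n).2.2 h⟩
  have e1 : trc (φ n) b - trc (φ (n + 1)) b = (trc (φ n) b - b) + -(trc (φ (n + 1)) b - b) := by abel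
  rw [e1]
  refine (NH_solid.toGoodN.add _ _).trans ((add_le_add (hφ n).2.1
    ((NH_solid.toGoodN.neg _).trans (hφ (n + 1)).2.1)).trans ?_)
  rw [← ENNReal.ofReal_add (by positivity) (by positivity)]
  apply ENNReal.ofReal_le_ofReal
  have h1 : (0 : ℝ) < (1 / 4) ^ (n + n0) := by positivity
  have h2 : ((1 : ℝ) / 4) ^ (n + n0 + 1) = (1 / 4) ^ (n + n0) * (1 / 4) := pow_succ _ _
  have h3 : ((1 : ℝ) / 4) ^ (n + 1 + n0 + 1) = (1 / 4) ^ (n + n0) * (1 / 4) * (1 / 4) := by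
    rw [show n + 1 + n0 + 1 = n + n0 + 1 + 1 by omega, pow_succ, pow_succ]
  rw [h2, h3]
  linarith

lemma BB_mono {c θ θ' : ℝ} {n0 : ℕ} (h : θ ≤ θ') : BB c θ n0 ≤ BB c θ' n0 := by
  unfold BB
  have h2 : Real.sqrt (36 * (θ + 2 * (1 / 4) ^ n0) + (1 / 4) ^ n0) ≤
      Real.sqrt (36 * (θ' + 2 * (1 / 4) ^ n0) + (1 / 4) ^ n0) := Real.sqrt_le_sqrt (by linarith)
  have h3 := mul_le_mul_of_nonneg_left h2 (show 0 ≤ 16 * Real.sqrt c by positivity)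
  linarith

/-- **One block, as a flow.** -/
theorem blockA {φ₀ : ℝ → ℝ≥0∞} (hφ₀ : Wgt φ₀) {c : ℝ} (hc : 0 < c) {r : ℝ} (hr : 2 < r) : ∃ θc : ℝ, 0 < θc ∧ ∀ {F : Fam}, CF F → ∀ {T0 : ℝ},
    (∀ k t, t ≤ T0 → F k t = 0) → ∀ {g : K → C3}, SD g → ∀ {a : Wt}, Sup a → ∀ {w : Fam}, SolF c F a g w →
    ∀ (n0 : ℕ) {b : K → C3}, DH b → ∀ {θ : ℝ}, NH (g - b) ≤ ENNReal.ofReal θ → 0 ≤ θ →
    ∀ {h δ β : ℝ}, 0 < δ → δ ≤ h → h < T0 → 0 < β → ∃ U : Fam, Flow c {0} h b U ∧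
      (∀ t, δ ≤ t → t ≤ h → Summable (fun k => ‖U k t - w k t‖) ∧ ∑' k, ‖U k t - w k t‖ ≤ β) ∧
      (∀ t, 0 < t → t ≤ δ → NH (at' U t - b) ≤ NH (at' w t - g) +
          ENNReal.ofReal (2 * β + (θ + (1 / 4) ^ n0) + 2 * BB c (θ + (1 / 4) ^ n0) n0 +
            2 / ((n0 : ℝ) + 1) + 3 * (1 / 4) ^ n0)) ∧
      (3 / ((n0 : ℝ) + 1) ≤ θc → ∀ t, 0 < t → t ≤ δ →
        Real.sqrt t * ∑' k, ‖U k t‖ ≤ Real.sqrt t * (An w t + β) + 12 / ((n0 : ℝ) + 1)) ∧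
      (2 + 1 / ((n0 : ℝ) + 1) ≤ r → critNorm r b ≠ ⊤ → ∀ t, 0 < t → t ≤ δ → critNorm r (at' U t - b) ≤
        critNorm r (at' w t - g) + critNorm r (g - b) + ENNReal.ofReal (2 * β + 4 / ((n0 : ℝ) + 1) + 4 * (1 / 4) ^ n0)) ∧
      FW φ₀ {0} h U := by
  obtain ⟨θc, hθc, hblock⟩ := blockF hφ₀ hc
  refine ⟨θc, hθc, fun {F} hCF {T0} hF {g} hg {a} ha {w} hw n0 {b} hb {θ} hθ hθ0 {h δ β} hδ hδh hhT hβ => ?_⟩
  have hr1 : 1 ≤ r := by linarith
  obtain ⟨φ, hφt, hφ1, hφ2, hφ3⟩ := trc_seq hb.nh (N := critNorm r) (trc_crit hr1) n0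
  have hV : ∀ n, SD (trc (φ n) b) := fun n => trc_SD hb.sym hb.dt (φ n)
  have hlim : Tendsto (fun n => NH (trc (φ n) b - b)) atTop (𝓝 0) := (trc_NH hb.nh).comp hφt
  obtain ⟨U, u1, u2, u3, ⟨G, u4, u5⟩, u6, u7, u8, u9, u10, u11⟩ := hblock hCF hF hg ha hw n0 (V := fun n => trc (φ n) b) hV hφ2
    hδ (hδh.trans hhT.le) hβ
  obtain ⟨v1, v2⟩ := u8 b hlim
  have hh : 0 < h := hδ.trans_le hδh
  have h4 : (0 : ℝ) < (1 / 4) ^ n0 := by positivity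
  have hθ' : (NH (g - trc (φ 0) b)).toReal ≤ θ + (1 / 4) ^ n0 := by
    apply ENNReal.toReal_le_of_le_ofReal (by positivity)
    have e1 : g - trc (φ 0) b = (g - b) + -(trc (φ 0) b - b) := by abel
    rw [e1, ENNReal.ofReal_add hθ0 (by positivity)]
    refine (NH_solid.toGoodN.add _ _).trans (add_le_add hθ ((NH_solid.toGoodN.neg _).trans ((hφ1 0).trans ?_)))
    apply ENNReal.ofReal_le_ofReal
    rw [zero_add, pow_succ]
    linarith
  refine ⟨U, ⟨fun t ht hth => (u1 t ht (hth.trans hhT.le)).1, fun s hs => ?_, fun t0 t1 h0 h01 h1 _ => ?_,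
    fun s hs ρ hρ => ?_, fun s hs => ?_, ?_, v1, fun s hs hs0 => ?_, fun r' hr' hrb => ?_, fun _ _ s hs hs0 => ?_⟩,
    fun t h1 h2 => u2 t h1 (h2.trans hhT.le), fun t ht htδ => ?_, u9, fun hrn hrb t ht htδ => ?_,
    fun s hs => ?_⟩
  · rw [Finset.mem_singleton] at hs
    subst hs
    exact ⟨le_rfl, hh⟩
  · obtain ⟨-, a', ha', z, hz, hzU⟩ := u1 t0 h0 (h01.trans (h1.trans hhT.le))
    refine ⟨T0 - t0, sh t0 F, a', z, by linarith, sh_cf hCF t0, sh_zero_of hF (h01.trans (h1.trans hhT.le)), ha', hz,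
      fun k s hs hst => hzU k s hs (by linarith)⟩
  · rw [Finset.mem_singleton] at hs
    subst hs
    simp_rw [zero_add]
    exact u3 ρ hρ
  · rw [Finset.mem_singleton] at hs
    subst hs
    refine ⟨h, G, hh, by linarith, fun j t ht1 ht2 ht3 => ?_, u5⟩
    simp_rw [zero_add]
    exact u4 j t ht1 ht2 (ht3.trans hhT.le)
  · have e1 : ∀ t, E2 (at' U t) ^ (2 : ℝ) = ∑' k, ‖U k t‖ₑ ^ 2 := by
      intro t
      rw [E2_rpow]
      exact tsum_congr fun k => ENNReal.rpow_two _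
    simp_rw [← e1]
    exact ne_top_of_le_ne_top u7 (lintegral_mono_set (Ioc_subset_Ioc_right hhT.le))
  · rw [Finset.mem_singleton] at hs
    exact absurd hs0 (by rw [hs]; exact lt_irrefl _)
  · exact u6 r' hr' _ (critNorm_goodN (by linarith)) (fun _ => le_rfl) b ((trc_crit (by linarith) hrb).comp hφt)
  · rw [Finset.mem_singleton] at hs
    exact absurd hs0 (by rw [hs]; exact lt_irrefl _)
  · refine (v2 t ht htδ).trans (add_le_add le_rfl (ENNReal.ofReal_le_ofReal ?_))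
    have := BB_mono (c := c) (n0 := n0) hθ'
    linarith
  · have hG := critNorm_goodN hr1
    have q1 : ∀ n, critNorm r (trc (φ n) b - b) ≤ ENNReal.ofReal ((1 / 4) ^ n0) := fun n =>
      (hφ3 hrb n).trans (ENNReal.ofReal_le_ofReal (pow_le_pow_of_le_one (by norm_num) (by norm_num) (by omega)))
    refine (u10 r hrn _ hG (fun _ => le_rfl) b ((1 / 4) ^ n0) h4.le q1 t ht htδ).trans ?_
    have q2 : critNorm r (g - trc (φ 0) b) ≤ critNorm r (g - b) + ENNReal.ofReal ((1 / 4) ^ n0) := by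
      have e1 : g - trc (φ 0) b = (g - b) + -(trc (φ 0) b - b) := by abel
      rw [e1]
      exact (hG.add _ _).trans (add_le_add le_rfl ((hG.neg _).trans (q1 0)))
    calc _ ≤ critNorm r (at' w t - g) + (critNorm r (g - b) + ENNReal.ofReal ((1 / 4) ^ n0)) +
          ENNReal.ofReal (2 * β + 4 / ((n0 : ℝ) + 1) + 3 * (1 / 4) ^ n0) := add_le_add (add_le_add le_rfl q2) le_rfl
      _ = critNorm r (at' w t - g) + critNorm r (g - b) + (ENNReal.ofReal ((1 / 4) ^ n0) +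
          ENNReal.ofReal (2 * β + 4 / ((n0 : ℝ) + 1) + 3 * (1 / 4) ^ n0)) := by ring
      _ = _ := by
          rw [← ENNReal.ofReal_add (by positivity) (by positivity)]
          congr 2
          ring
  · rw [Finset.mem_singleton] at hs
    subst hs
    refine ⟨min h 1, lt_min hh one_pos, by rw [zero_add]; exact min_le_left _ _, ?_⟩
    simp_rw [zero_add]
    refine ne_top_of_le_ne_top u11 (lintegral_mono_set (Ioc_subset_Ioc_right ?_))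
    exact min_le_min hhT.le le_rfl

end Pool.Agent.K1H11.NS
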