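import Pool.Agent.H8.NS.Block

/-!
# Flows with finitely many singular times, on the Fourier side
-/

open MeasureTheory Set Filter Topology
open scoped ENNReal NNReal ContDiff

namespace Pool.Agent.K1H11.NS

open H459R3.NS (ee fc fr cube S SP Per pd D Rap)
open Pool.Agent.H356R3.NS (shellSum critNorm leiLin)

lemma SD.crit_ne {x : K → C3} (hx : SD x) {r : ℝ} (hr : 1 ≤ r) : critNorm r x ≠ ⊤ :=
  ne_top_of_le_ne_top ENNReal.ofReal_ne_top (GoodN_le_An (critNorm_goodN hr) hx.rr.summ le_rfl)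

/-- `V` is a flow on `(0, L]` with the initial value `a` and with the singular times `S ⊆ [0, L)`: on each interval
`[t₀, t₁]` with no singular time in `[t₀, t₁)` it is the restriction of a local solution, and the singular times are
mild. -/
structure Flow (c : ℝ) (S : Finset ℝ) (L : ℝ) (a : K → C3) (V : Fam) : Prop where
  sd : ∀ t, 0 < t → t ≤ L → SD (at' V t)
  hS : ∀ s ∈ S, 0 ≤ s ∧ s < L
  sol : ∀ t0 t1, 0 < t0 → t0 ≤ t1 → t1 ≤ L → (∀ s ∈ S, t0 ≤ s → t1 ≤ s) →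
    ∃ (T' : ℝ) (F' : Fam) (a' : Wt) (z : Fam), t1 - t0 < T' ∧ CF F' ∧ (∀ k t, t ≤ T' → F' k t = 0) ∧ Sup a' ∧
      SolF c F' a' (at' V t0) z ∧ ∀ k s, 0 ≤ s → t0 + s ≤ t1 → z k s = V k (t0 + s)
  grow : ∀ s ∈ S, ∀ ρ : ℝ, 0 < ρ → ∃ δ : ℝ, 0 < δ ∧ ∀ t, 0 < t → t ≤ δ → Real.sqrt t * ∑' k, ‖V k (s + t)‖ ≤ ρ
  growG : ∀ s ∈ S, ∃ (L' : ℝ) (G : ℕ → ℝ≥0∞), 0 < L' ∧ s + L' ≤ L ∧
    (∀ (j : ℕ) (t : ℝ), (1 / 4) ^ (j + 1) < t → t ≤ (1 / 4) ^ j → t ≤ L' →
      ENNReal.ofReal (Real.sqrt t * ∑' k, ‖V k (s + t)‖) ≤ G j) ∧ ∀ q : ℝ, 2 < q → ∑' j, G j ^ q ≠ ⊤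
  l2 : ∫⁻ t in Ioc 0 L, ∑' k, ‖V k t‖ₑ ^ 2 ≠ ⊤
  nh0 : ∀ ρ : ℝ, 0 < ρ → ∃ δ : ℝ, 0 < δ ∧ ∀ t, 0 < t → t ≤ δ → NH (at' V t - a) ≤ ENNReal.ofReal ρ
  nhr : ∀ s ∈ S, 0 < s → ∀ ρ : ℝ, 0 < ρ → ∃ δ : ℝ, 0 < δ ∧ ∀ t, 0 < t → t ≤ δ →
    NH (at' V (s + t) - at' V s) ≤ ENNReal.ofReal ρ
  cr0 : ∀ r : ℝ, 2 < r → critNorm r a ≠ ⊤ → ∀ ρ : ℝ, 0 < ρ → ∃ δ : ℝ, 0 < δ ∧ ∀ t, 0 < t → t ≤ δ →
    critNorm r (at' V t - a) ≤ ENNReal.ofReal ρ
  crr : ∀ r : ℝ, 2 < r → ∀ s ∈ S, 0 < s → ∀ ρ : ℝ, 0 < ρ → ∃ δ : ℝ, 0 < δ ∧ ∀ t, 0 < t → t ≤ δ →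
    critNorm r (at' V (s + t) - at' V s) ≤ ENNReal.ofReal ρ

/-- first `V`, then `V'` from the time `L` on -/
noncomputable def cat (L : ℝ) (V V' : Fam) : Fam := fun k t => if t ≤ L then V k t else V' k (t - L)

lemma cat_left {L : ℝ} {V V' : Fam} {k : K} {t : ℝ} (h : t ≤ L) : cat L V V' k t = V k t := if_pos h

lemma cat_right {L : ℝ} {V V' : Fam} {k : K} {t : ℝ} (h : L < t) : cat L V V' k t = V' k (t - L) :=
  if_neg (not_le.2 h)

lemma at'_cat_left {L : ℝ} {V V' : Fam} {t : ℝ} (h : t ≤ L) : at' (cat L V V') t = at' V t :=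
  funext fun _ => cat_left h

lemma at'_cat_right {L : ℝ} {V V' : Fam} {t : ℝ} (h : L < t) : at' (cat L V V') t = at' V' (t - L) :=
  funext fun _ => cat_right h

theorem Flow.cat {c : ℝ} {S S' : Finset ℝ} {L L' : ℝ} {a : K → C3} {V V' : Fam} (hL : 0 < L) (hL' : 0 < L')
    (h : Flow c S L a V) (h' : Flow c S' L' (at' V L) V') (h0 : (0 : ℝ) ∈ S') :
    Flow c (S ∪ S'.image (fun s => L + s)) (L + L') a (NS.cat L V V') := by
  classical
  have hmem : ∀ s, s ∈ S ∪ S'.image (fun s => L + s) ↔ s ∈ S ∨ ∃ s' ∈ S', L + s' = s := by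
    intro s
    rw [Finset.mem_union, Finset.mem_image]
  have hLm : L ∈ S ∪ S'.image (fun s => L + s) := (hmem L).2 (Or.inr ⟨0, h0, add_zero L⟩)
  refine ⟨fun t ht htL => ?_, fun s hs => ?_, fun t0 t1 h00 h01 h1L hno => ?_, fun s hs ρ hρ => ?_, fun s hs => ?_,
    ?_, fun ρ hρ => ?_, fun s hs hs0 ρ hρ => ?_, fun r hr hra ρ hρ => ?_, fun r hr s hs hs0 ρ hρ => ?_⟩
  · rcases le_or_gt t L with h1 | h1
    · rw [at'_cat_left h1]; exact h.sd t ht h1
    · rw [at'_cat_right h1]; exact h'.sd _ (by linarith) (by linarith)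
  · rcases (hmem s).1 hs with h1 | ⟨s', h1, h2⟩
    · obtain ⟨p1, p2⟩ := h.hS s h1
      exact ⟨p1, by linarith⟩
    · obtain ⟨p1, p2⟩ := h'.hS s' h1
      exact ⟨by linarith, by linarith⟩
  · rcases le_or_gt t1 L with h1 | h1
    · obtain ⟨T', F', a', z, q1, q2, q3, q4, q5, q6⟩ := h.sol t0 t1 h00 h01 h1 fun s hs =>
        hno s ((hmem s).2 (Or.inl hs))
      refine ⟨T', F', a', z, q1, q2, q3, q4, ?_, fun k s hs hst => ?_⟩
      · rw [at'_cat_left (h01.trans h1)]; exact q5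
      · rw [cat_left (hst.trans h1)]; exact q6 k s hs hst
    · have ht0 : L < t0 := by
        by_contra hcon
        push Not at hcon
        have := hno L hLm hcon
        linarith
      obtain ⟨T', F', a', z, q1, q2, q3, q4, q5, q6⟩ := h'.sol (t0 - L) (t1 - L) (by linarith) (by linarith)
        (by linarith) fun s hs hst => by
          have := hno (L + s) ((hmem _).2 (Or.inr ⟨s, hs, rfl⟩)) (by linarith)
          linarith
      refine ⟨T', F', a', z, by linarith, q2, q3, q4, ?_, fun k s hs hst => ?_⟩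
      · rw [at'_cat_right ht0]; exact q5
      · rw [cat_right (by linarith), q6 k s hs (by linarith)]
        congr 1; ring
  · rcases (hmem s).1 hs with h1 | ⟨s', h1, h2⟩
    · obtain ⟨p1, p2⟩ := h.hS s h1
      obtain ⟨δ, hδ, q⟩ := h.grow s h1 ρ hρ
      refine ⟨min δ (L - s), lt_min hδ (by linarith), fun t ht htd => ?_⟩
      have e1 : ∀ k, NS.cat L V V' k (s + t) = V k (s + t) := fun k =>
        cat_left (by have := htd.trans (min_le_right _ _); linarith)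
      simp_rw [e1]
      exact q t ht (htd.trans (min_le_left _ _))
    · obtain ⟨p1, p2⟩ := h'.hS s' h1
      obtain ⟨δ, hδ, q⟩ := h'.grow s' h1 ρ hρ
      refine ⟨δ, hδ, fun t ht htd => ?_⟩
      have e1 : ∀ k, NS.cat L V V' k (s + t) = V' k (s' + t) := fun k => by
        rw [cat_right (by linarith)]
        congr 1
        rw [← h2]; ring
      simp_rw [e1]
      exact q t ht htd
  · rcases (hmem s).1 hs with h1 | ⟨s', h1, h2⟩
    · obtain ⟨L1, G, q1, q2, q3, q4⟩ := h.growG s h1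
      refine ⟨L1, G, q1, by linarith, fun j t ht1 ht2 ht3 => ?_, q4⟩
      have e1 : ∀ k, NS.cat L V V' k (s + t) = V k (s + t) := fun k => cat_left (by linarith)
      simp_rw [e1]
      exact q3 j t ht1 ht2 ht3
    · obtain ⟨p1, p2⟩ := h'.hS s' h1
      obtain ⟨L1, G, q1, q2, q3, q4⟩ := h'.growG s' h1
      refine ⟨L1, G, q1, by linarith, fun j t ht1 ht2 ht3 => ?_, q4⟩
      have ht : 0 < t := lt_trans (by positivity) ht1
      have e1 : ∀ k, NS.cat L V V' k (s + t) = V' k (s' + t) := fun k => by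
        rw [cat_right (by linarith)]
        congr 1
        rw [← h2]; ring
      simp_rw [e1]
      exact q3 j t ht1 ht2 ht3
  · have hu : Ioc 0 (L + L') = Ioc 0 L ∪ Ioc L (L + L') := (Ioc_union_Ioc_eq_Ioc hL.le (by linarith)).symm
    rw [hu]
    refine ne_top_of_le_ne_top ?_ (lintegral_union_le _ _ _)
    refine ENNReal.add_ne_top.2 ⟨?_, ?_⟩
    · refine ne_top_of_le_ne_top h.l2 (le_of_eq ?_)
      refine setLIntegral_congr_fun measurableSet_Ioc fun t ht => ?_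
      exact tsum_congr fun k => by rw [cat_left ht.2]
    · have h3 : ∫⁻ t in Ioc L (L + L'), ∑' k, ‖NS.cat L V V' k t‖ₑ ^ 2 =
          ∫⁻ t in Ioc L (L + L'), (fun r => ∑' k, ‖V' k r‖ₑ ^ 2) (t - L) := by
        refine setLIntegral_congr_fun measurableSet_Ioc fun t ht => ?_
        exact tsum_congr fun k => by rw [cat_right ht.1]
      have h4 : ∫⁻ t in Ioc L (L + L'), (fun r => ∑' k, ‖V' k r‖ₑ ^ 2) (t - L) = ∫⁻ r in Ioc 0 L', ∑' k, ‖V' k r‖ₑ ^ 2 := by
        have e1 : ∫⁻ t in Ioc L (L + L'), (fun r => ∑' k, ‖V' k r‖ₑ ^ 2) (t - L) =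
            ∫⁻ t, (Ioc (0 : ℝ) L').indicator (fun r => ∑' k, ‖V' k r‖ₑ ^ 2) (t - L) := by
          rw [← lintegral_indicator measurableSet_Ioc]
          refine lintegral_congr fun t => ?_
          by_cases ht : t ∈ Ioc L (L + L')
          · rw [indicator_of_mem ht, indicator_of_mem (show t - L ∈ Ioc 0 L' from
              ⟨by linarith [ht.1], by linarith [ht.2]⟩)]
          · rw [indicator_of_notMem ht, indicator_of_notMem]
            intro h5
            exact ht ⟨by linarith [h5.1], by linarith [h5.2]⟩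
        rw [e1, lintegral_sub_right_eq_self (fun t => (Ioc (0 : ℝ) L').indicator (fun r => ∑' k, ‖V' k r‖ₑ ^ 2) t) L,
          lintegral_indicator measurableSet_Ioc]
      rw [h3, h4]
      exact h'.l2
  · obtain ⟨δ, hδ, q⟩ := h.nh0 ρ hρ
    refine ⟨min δ L, lt_min hδ hL, fun t ht htd => ?_⟩
    rw [at'_cat_left (htd.trans (min_le_right _ _))]
    exact q t ht (htd.trans (min_le_left _ _))
  · rcases lt_trichotomy s L with hsL | hsL | hsL
    · rcases (hmem s).1 hs with h1 | ⟨s', h1, h2⟩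
      · obtain ⟨δ, hδ, q⟩ := h.nhr s h1 hs0 ρ hρ
        refine ⟨min δ (L - s), lt_min hδ (by linarith), fun t ht htd => ?_⟩
        rw [at'_cat_left (by have := htd.trans (min_le_right _ _); linarith), at'_cat_left hsL.le]
        exact q t ht (htd.trans (min_le_left _ _))
      · obtain ⟨p1, p2⟩ := h'.hS s' h1
        exfalso; linarith
    · subst hsL
      obtain ⟨δ, hδ, q⟩ := h'.nh0 ρ hρ
      refine ⟨δ, hδ, fun t ht htd => ?_⟩
      rw [at'_cat_right (by linarith), at'_cat_left le_rfl, add_sub_cancel_left]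
      exact q t ht htd
    · rcases (hmem s).1 hs with h1 | ⟨s', h1, h2⟩
      · obtain ⟨p1, p2⟩ := h.hS s h1
        exfalso; linarith
      · have hs' : 0 < s' := by linarith
        obtain ⟨δ, hδ, q⟩ := h'.nhr s' h1 hs' ρ hρ
        refine ⟨δ, hδ, fun t ht htd => ?_⟩
        rw [at'_cat_right (by linarith), at'_cat_right hsL]
        have e1 : s + t - L = s' + t := by rw [← h2]; ring
        have e2 : s - L = s' := by rw [← h2]; ring
        rw [e1, e2]
        exact q t ht htd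
  · obtain ⟨δ, hδ, q⟩ := h.cr0 r hr hra ρ hρ
    refine ⟨min δ L, lt_min hδ hL, fun t ht htd => ?_⟩
    rw [at'_cat_left (htd.trans (min_le_right _ _))]
    exact q t ht (htd.trans (min_le_left _ _))
  · rcases lt_trichotomy s L with hsL | hsL | hsL
    · rcases (hmem s).1 hs with h1 | ⟨s', h1, h2⟩
      · obtain ⟨δ, hδ, q⟩ := h.crr r hr s h1 hs0 ρ hρ
        refine ⟨min δ (L - s), lt_min hδ (by linarith), fun t ht htd => ?_⟩
        rw [at'_cat_left (by have := htd.trans (min_le_right _ _); linarith), at'_cat_left hsL.le]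
        exact q t ht (htd.trans (min_le_left _ _))
      · obtain ⟨p1, p2⟩ := h'.hS s' h1
        exfalso; linarith
    · subst hsL
      obtain ⟨δ, hδ, q⟩ := h'.cr0 r hr ((h.sd s hs0 le_rfl).crit_ne (by linarith)) ρ hρ
      refine ⟨δ, hδ, fun t ht htd => ?_⟩
      rw [at'_cat_right (by linarith), at'_cat_left le_rfl, add_sub_cancel_left]
      exact q t ht htd
    · rcases (hmem s).1 hs with h1 | ⟨s', h1, h2⟩
      · obtain ⟨p1, p2⟩ := h.hS s h1
        exfalso; linarith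
      · have hs' : 0 < s' := by linarith
        obtain ⟨δ, hδ, q⟩ := h'.crr r hr s' h1 hs' ρ hρ
        refine ⟨δ, hδ, fun t ht htd => ?_⟩
        rw [at'_cat_right (by linarith), at'_cat_right hsL]
        have e1 : s + t - L = s' + t := by rw [← h2]; ring
        have e2 : s - L = s' := by rw [← h2]; ring
        rw [e1, e2]
        exact q t ht htd

/-- the growth after the singular times, measured with a weight -/
def FW (φ : ℝ → ℝ≥0∞) (S : Finset ℝ) (L : ℝ) (V : Fam) : Prop :=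
  ∀ s ∈ S, ∃ L' : ℝ, 0 < L' ∧ s + L' ≤ L ∧ ∫⁻ t in Ioc 0 L', (φ t * ∑' k, ‖V k (s + t)‖ₑ) ^ (2 : ℝ) ≠ ⊤

theorem FW.cat {φ : ℝ → ℝ≥0∞} {S S' : Finset ℝ} {L L' : ℝ} {V V' : Fam} (hL' : 0 < L')
    (h : FW φ S L V) (h' : FW φ S' L' V') (hS' : ∀ s ∈ S', 0 ≤ s) :
    FW φ (S ∪ S'.image (fun s => L + s)) (L + L') (NS.cat L V V') := by
  classical
  intro s hs
  rw [Finset.mem_union, Finset.mem_image] at hs
  rcases hs with h1 | ⟨s', h1, h2⟩
  · obtain ⟨L1, q1, q2, q3⟩ := h s h1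
    refine ⟨L1, q1, by linarith, ?_⟩
    refine ne_top_of_le_ne_top q3 (le_of_eq ?_)
    refine setLIntegral_congr_fun measurableSet_Ioc fun t ht => ?_
    have e1 : ∀ k, NS.cat L V V' k (s + t) = V k (s + t) := fun k => cat_left (by linarith [ht.2])
    simp only [e1]
  · obtain ⟨L1, q1, q2, q3⟩ := h' s' h1
    have h0 := hS' s' h1
    refine ⟨L1, q1, by linarith, ?_⟩
    refine ne_top_of_le_ne_top q3 (le_of_eq ?_)
    refine setLIntegral_congr_fun measurableSet_Ioc fun t ht => ?_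
    have e1 : ∀ k, NS.cat L V V' k (s + t) = V' k (s' + t) := fun k => by
      rw [cat_right (by linarith [ht.1])]
      congr 1
      rw [← h2]; ring
    simp only [e1]

end Pool.Agent.K1H11.NS
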