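import Pool.Agent.H8.NS.Path

/-!
# Gluing the blocks
-/

open MeasureTheory Set Filter Topology
open scoped ENNReal NNReal ContDiff

namespace Pool.Agent.K1H11.NS

open H459R3.NS (ee fc fr cube S SP Per pd D Rap)
open Pool.Agent.H356R3.NS (shellSum critNorm leiLin)

/-- **Gluing the blocks.** -/
theorem glue_blocks {φ₀ : ℝ → ℝ≥0∞} {c h : ℝ} (hh : 0 < h) {n : ℕ} {Q : ℕ → ℝ → (K → C3) → Prop}
    {E : ℕ → (K → C3) → Prop}
    (step : ∀ j, j < n → ∀ b, E j b → ∃ U : Fam, (Flow c {0} h b U ∧ FW φ₀ {0} h U) ∧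
      (∀ s, 0 < s → s ≤ h → Q j s (at' U s)) ∧ E (j + 1) (at' U h)) {b0 : K → C3} (h0 : E 0 b0) (j : ℕ) (hj : j + 1 ≤ n) :
    ∃ (S : Finset ℝ) (V : Fam), (0 : ℝ) ∈ S ∧ (Flow c S (((j : ℝ) + 1) * h) b0 V ∧ FW φ₀ S (((j : ℝ) + 1) * h) V) ∧
      (∀ i : ℕ, i ≤ j → ∀ s, 0 < s → s ≤ h → Q i s (at' V (i * h + s))) ∧ E (j + 1) (at' V (((j : ℝ) + 1) * h)) := by
  classical
  induction j with
  | zero =>
    obtain ⟨U, u1, u2, u3⟩ := step 0 (by omega) b0 h0
    refine ⟨{0}, U, Finset.mem_singleton_self 0, ?_, fun i hi s hs hsh => ?_, ?_⟩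
    · simpa using u1
    · obtain rfl : i = 0 := by omega
      have := u2 s hs hsh
      simpa using this
    · simpa using u3
  | succ j ih =>
    obtain ⟨S, V, v0, v1, v2, v3⟩ := ih (by omega)
    obtain ⟨U, u1, u2, u3⟩ := step (j + 1) (by omega) _ v3
    have hL : 0 < ((j : ℝ) + 1) * h := by positivity
    set L := ((j : ℝ) + 1) * h with hLdef
    have e1 : (((j + 1 : ℕ) : ℝ) + 1) * h = L + h := by push_cast; rw [hLdef]; ring
    rw [e1]
    refine ⟨_, NS.cat L V U, Finset.mem_union_left _ v0, ⟨v1.1.cat hL hh u1.1 (Finset.mem_singleton_self 0),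
      v1.2.cat hh u1.2 fun s hs => le_of_eq (Finset.mem_singleton.1 hs).symm⟩,
      fun i hi s hs hsh => ?_, ?_⟩
    · rcases Nat.lt_or_ge i (j + 1) with h1 | h1
      · have h2 : (i : ℝ) * h + s ≤ L := by
          have h3 : (i : ℝ) ≤ j := by exact_mod_cast Nat.lt_succ_iff.1 h1
          rw [hLdef]
          nlinarith
        rw [at'_cat_left h2]
        exact v2 i (by omega) s hs hsh
      · obtain rfl : i = j + 1 := by omega
        have e2 : ((j + 1 : ℕ) : ℝ) * h = L := by push_cast; rfl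
        rw [e2, at'_cat_right (by linarith), add_sub_cancel_left]
        exact u2 s hs hsh
    · rw [at'_cat_right (by linarith), add_sub_cancel_left]
      exact u3

/-- the time `t` in the block `i` -/
lemma find_block {h t : ℝ} (hh : 0 < h) (ht : 0 < t) {n : ℕ} (htn : t ≤ n * h) :
    ∃ i : ℕ, i < n ∧ ∃ s, 0 < s ∧ s ≤ h ∧ t = i * h + s := by
  have h1 : 0 < t / h := by positivity
  have h2 : 0 < ⌈t / h⌉₊ := Nat.ceil_pos.2 h1
  have h3 : ((⌈t / h⌉₊ - 1 : ℕ) : ℝ) = (⌈t / h⌉₊ : ℝ) - 1 := by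
    rw [Nat.cast_sub h2]; simp
  have h4 := Nat.le_ceil (t / h)
  have h5 := Nat.ceil_lt_add_one h1.le
  have h6 : ⌈t / h⌉₊ ≤ n := Nat.ceil_le.2 (by rwa [div_le_iff₀ hh])
  refine ⟨⌈t / h⌉₊ - 1, by omega, t - ((⌈t / h⌉₊ - 1 : ℕ) : ℝ) * h, ?_, ?_, by ring⟩
  · rw [h3]
    have : ((⌈t / h⌉₊ : ℝ) - 1) * h < t / h * h := by
      apply mul_lt_mul_of_pos_right _ hh
      linarith
    rw [div_mul_cancel₀ _ hh.ne'] at this
    linarith
  · rw [h3]
    have : t / h * h ≤ (⌈t / h⌉₊ : ℝ) * h := mul_le_mul_of_nonneg_right h4 hh.le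
    rw [div_mul_cancel₀ _ hh.ne'] at this
    linarith

end Pool.Agent.K1H11.NS
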