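import Pool.Agent.H8.NS.Seq

/-!
# The growth of the limit at time zero, with local targets
-/

open MeasureTheory Set Filter Topology
open scoped ENNReal NNReal ContDiff

namespace Pool.Agent.K1H11.NS

open Pool.Agent.H356R3.NS (shellSum critNorm leiLin)

theorem growth_seqF {c : ℝ} (hc : 0 < c) {F : Fam} {T0 : ℝ} (hF : ∀ k t, t ≤ T0 → F k t = 0)
    {V : ℕ → K → C3} {S : ℕ → BStF c F}
    (hR : ∀ n, BRelF c F T0 (V n) n (S n) (S (n + 1)))
    (hDN : ∀ (n : ℕ) (q : ℝ), 2 + 1 / ((n : ℝ) + 1) ≤ q →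
      DN q ((S (n + 1)).u - (S n).u) ≤ ENNReal.ofReal ((1 / 4) ^ n))
    {U : Fam} (hUSD : ∀ t, 0 < t → t ≤ T0 → SD (at' U t))
    (hUs : ∀ n t, (S (n + 1)).dl ≤ t → t ≤ T0 → Summable (fun k => ‖U k t - (S n).u k t‖) ∧
        ∑' k, ‖U k t - (S n).u k t‖ ≤ (S n).be) :
    ∃ G : ℕ → ℝ≥0∞, (∀ (j : ℕ) (t : ℝ), (1 / 4) ^ (j + 1) < t → t ≤ (1 / 4) ^ j → t ≤ T0 →
      ENNReal.ofReal (Real.sqrt t * ∑' k, ‖U k t‖) ≤ G j) ∧ ∀ q : ℝ, 2 < q → ∑' j, G j ^ q ≠ ⊤ := by
  have hd : ∀ n, Dom (S n).u := fun n => (S n).hu.dom' (S n).ha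
  have hcf : ∀ n, CF (S n).u := fun n => (S n).hu.cf
  have hcd : ∀ n, CF ((S (n + 1)).u - (S n).u) := fun n k => (hcf (n + 1) k).sub (hcf n k)
  have dl0 : ∀ n, 0 < (S n).dl := fun n => (S n).hdl
  have be0 : ∀ n, 0 < (S n).be := fun n => (S n).hbe
  have dlh : ∀ n, (S (n + 1)).dl ≤ (S n).dl / 2 := fun n => (hR n).dl
  have beh : ∀ n, (S (n + 1)).be ≤ (S n).be / 2 := fun n => (hR n).be
  have hanti : Antitone fun n => (S n).dl := half_anti dl0 dlh
  have hdl : Tendsto (fun n => (S n).dl) atTop (𝓝 0) := half_tendsto dl0 dlh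
  have hbe : Tendsto (fun n => (S n).be) atTop (𝓝 0) := half_tendsto be0 beh
  set y : ℕ → ℕ → ℝ≥0∞ := fun n j => LV ((1 / 4) ^ j) ((S (n + 1)).u - (S n).u) with hy
  set H : ℕ → ℝ≥0∞ := fun j => LV ((1 / 4) ^ j) (S 0).u + ∑' n, y n j with hH
  -- the sequence `H`
  have hHq : ∀ q : ℝ, 2 < q → ∑' j, H j ^ q ≠ ⊤ := by
    intro q hq
    have hq0 : 0 < q := by linarith
    have hq1 : 1 ≤ q := by linarith
    obtain ⟨n1, hn1⟩ := exists_nat_gt (1 / (q - 2))
    have hq2 : 0 < q - 2 := by linarith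
    refine lqf_add hq1 ?_ ?_
    · rw [← rpow_inv_ne hq0]
      exact ne_top_of_le_ne_top (S 0).hu.XN_ne (DN_le_XN hq.le _ (hcf 0))
    · rw [← rpow_inv_ne hq0]
      refine ne_top_of_le_ne_top ?_ (lq_tsum hq1 y)
      have h1 : ∀ n, (∑' j, y n j ^ q) ^ (1 / q) ≤ (if n < n1 then XN ((S (n + 1)).u - (S n).u) else 0) +
          ENNReal.ofReal ((1 / 4) ^ n) := by
        intro n
        by_cases hn : n < n1
        · rw [if_pos hn]
          exact (DN_le_XN hq.le _ (hcd n)).trans le_self_add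
        · rw [if_neg hn, zero_add]
          refine hDN n q ?_
          have h2 : (n1 : ℝ) ≤ n := by exact_mod_cast not_lt.1 hn
          have h3 : (0 : ℝ) < (n : ℝ) + 1 := by positivity
          have h4 : 1 / ((n : ℝ) + 1) ≤ q - 2 := by
            rw [div_le_iff₀ h3]
            rw [div_lt_iff₀ hq2] at hn1
            nlinarith
          linarith
      refine ne_top_of_le_ne_top ?_ (ENNReal.tsum_le_tsum h1)
      rw [ENNReal.tsum_add]
      refine ENNReal.add_ne_top.2 ⟨?_, ?_⟩
      · rw [tsum_eq_sum (s := Finset.range n1)]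
        · refine (ENNReal.sum_lt_top.2 fun n hn => ?_).ne
          rw [if_pos (Finset.mem_range.1 hn)]
          exact (XN_sub_ne (hcf _) (hcf _) (S (n + 1)).hu.XN_ne (S n).hu.XN_ne).lt_top
        · intro n hn
          rw [if_neg (by simpa using hn)]
      · rw [← ENNReal.ofReal_tsum_of_nonneg (fun n => by positivity)
          (summable_geometric_of_lt_one (by norm_num) (by norm_num))]
        exact ENNReal.ofReal_ne_top
  have hLV : ∀ m j, LV ((1 / 4) ^ j) (S m).u ≤ H j := by
    intro m j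
    have h1 : ∀ m, LV ((1 / 4) ^ j) (S m).u ≤ LV ((1 / 4) ^ j) (S 0).u + ∑ n ∈ Finset.range m, y n j := by
      intro m
      induction m with
      | zero => simp
      | succ m ih =>
        have e1 : (S (m + 1)).u = (S m).u + ((S (m + 1)).u - (S m).u) := by abel
        rw [e1, Finset.sum_range_succ, ← add_assoc]
        exact (LV_add _ (hcf m) (hcd m)).trans (add_le_add ih le_rfl)
    exact (h1 m).trans (add_le_add le_rfl (ENNReal.sum_le_tsum _))
  have hH0 : Tendsto H atTop (𝓝 0) := by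
    have h1 := ENNReal.tendsto_atTop_zero_of_tsum_ne_top (hHq 3 (by norm_num))
    have h2 := ((ENNReal.continuous_rpow_const (y := (1 / 3 : ℝ))).tendsto _).comp h1
    rw [ENNReal.zero_rpow_of_pos (by norm_num)] at h2
    refine h2.congr fun j => ?_
    simp only [Function.comp]
    rw [← ENNReal.rpow_mul]
    norm_num
  obtain ⟨θ, hθ, hwin⟩ := win_AnL hc
  obtain ⟨j0, hj0⟩ := Filter.eventually_atTop.1 (hH0.eventually (gt_mem_nhds
    (show (0 : ℝ≥0∞) < ENNReal.ofReal (θ / 4) by rw [ENNReal.ofReal_pos]; positivity)))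
  -- large times
  obtain ⟨n0, hn0⟩ := (hdl.eventually (gt_mem_nhds (show (0 : ℝ) < (1 / 4) ^ j0 by positivity))).exists
  obtain ⟨b, hb, hb'⟩ := hd n0
  have hAb : ∀ t, An (S n0).u t ≤ ∑' k, b k := fun t =>
    Summable.tsum_le_tsum (fun k => hb' k t) (hb.of_nonneg_of_le (fun _ => norm_nonneg _) fun k => hb' k t) hb
  have hUle : ∀ m t, 0 < t → (S (m + 1)).dl ≤ t → t ≤ T0 → ∑' k, ‖U k t‖ ≤ An (S m).u t + (S m).be := by
    intro m t ht hm htT
    obtain ⟨q1, q2⟩ := hUs m t hm htT
    have hs1 : Summable fun k => ‖(S m).u k t‖ := (hd m).sn t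
    have hs2 : Summable fun k => ‖U k t‖ := (hUSD t ht htT).rr.summ
    refine (hs2.tsum_le_tsum (fun k => ?_) (hs1.add q1)).trans ?_
    · have : U k t = (S m).u k t + (U k t - (S m).u k t) := by abel
      calc ‖U k t‖ = ‖(S m).u k t + (U k t - (S m).u k t)‖ := by rw [← this]
        _ ≤ _ := norm_add_le _ _
    · rw [hs1.tsum_add q1]
      exact add_le_add le_rfl q2
  set M := ∑' k, b k + (S n0).be with hM
  have hM0 : 0 ≤ M := by
    have h1 := (An_nonneg (S n0).u 0).trans (hAb 0)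
    have := be0 n0
    positivity
  refine ⟨fun j => 4 * (H j + H (j + 1)) + (if j < j0 then ENNReal.ofReal M else 0), fun j t h1 h2 htT => ?_,
    fun q hq => ?_⟩
  · have ht : 0 < t := lt_trans (by positivity) h1
    have ht1 : t ≤ 1 := h2.trans (pow_le_one₀ (by norm_num) (by norm_num))
    have hst : Real.sqrt t ≤ 1 := by rw [Real.sqrt_le_left zero_le_one]; linarith
    have hst0 := Real.sqrt_nonneg t
    show _ ≤ 4 * (H j + H (j + 1)) + (if j < j0 then ENNReal.ofReal M else 0)
    by_cases hj : j < j0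
    · rw [if_pos hj]
      refine le_trans (ENNReal.ofReal_le_ofReal ?_) le_add_self
      have h3 : ((1 : ℝ) / 4) ^ j0 ≤ (1 / 4) ^ (j + 1) := pow_le_pow_of_le_one (by norm_num) (by norm_num) hj
      have h4 : (S (n0 + 1)).dl ≤ t := by
        have h5 : (S (n0 + 1)).dl ≤ (S n0).dl := hanti (Nat.le_succ n0)
        linarith
      have h5 := hUle n0 t ht h4 htT
      have h6 := hAb t
      have h7 : 0 ≤ ∑' k, ‖U k t‖ := tsum_nonneg fun _ => norm_nonneg _
      calc Real.sqrt t * ∑' k, ‖U k t‖ ≤ 1 * ∑' k, ‖U k t‖ := mul_le_mul_of_nonneg_right hst h7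
        _ ≤ M := by rw [hM, one_mul]; linarith
    · rw [if_neg hj, add_zero]
      have hj' : j0 ≤ j := not_lt.1 hj
      have hHj := hj0 j hj'
      have hHj1 := hj0 (j + 1) (by omega)
      have hsum : H j + H (j + 1) ≤ ENNReal.ofReal (θ / 2) := by
        refine (add_le_add hHj.le hHj1.le).trans (le_of_eq ?_)
        rw [← ENNReal.ofReal_add (by positivity) (by positivity)]
        congr 1; ring
      have hfin : H j + H (j + 1) ≠ ⊤ := ne_top_of_le_ne_top ENNReal.ofReal_ne_top hsum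
      set L := (H j + H (j + 1)).toReal with hL
      have hL0 : 0 ≤ L := ENNReal.toReal_nonneg
      have hLθ : L ≤ θ / 2 := ENNReal.toReal_le_of_le_ofReal (by positivity) hsum
      have hLe : H j + H (j + 1) = ENNReal.ofReal L := (ENNReal.ofReal_toReal hfin).symm
      have hAm : ∀ m, Real.sqrt t * An (S m).u t ≤ 4 * L := by
        intro m
        have h3 : ∀ η : ℝ, 0 < η → η ≤ θ / 2 → Real.sqrt t * An (S m).u t ≤ 4 * (L + η) := by
          intro η hη hηθ
          refine hwin (S m).u (hcf m) (hd m) t (L + η) (((S m).hu.DS (S m).ha hF).mono htT) ht (by linarith)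
            (by linarith) ?_
          have h4 : (1 / 4 : ℝ) ^ j / 4 < t := by
            rw [pow_succ] at h1; linarith
          refine (LW_le_LV (by positivity) h4 h2 (hcf m)).trans ?_
          have e1 : (1 / 4 : ℝ) ^ j / 4 = (1 / 4) ^ (j + 1) := by rw [pow_succ]; ring
          rw [e1]
          refine (add_le_add (hLV m j) (hLV m (j + 1))).trans ?_
          rw [hLe]
          exact ENNReal.ofReal_le_ofReal (by linarith)
        refine le_of_forall_pos_le_add fun e he => ?_
        have h5 := h3 (min (e / 4) (θ / 2)) (lt_min (by positivity) (by positivity)) (min_le_right _ _)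
        have h6 : min (e / 4) (θ / 2) ≤ e / 4 := min_le_left _ _
        linarith
      have hlim : Real.sqrt t * ∑' k, ‖U k t‖ ≤ 4 * L := by
        have h3 : Tendsto (fun m => 4 * L + (S m).be) atTop (𝓝 (4 * L + 0)) := hbe.const_add _
        rw [add_zero] at h3
        refine ge_of_tendsto h3 ?_
        filter_upwards [hdl.eventually (gt_mem_nhds ht)] with m hm
        have h4 : (S (m + 1)).dl ≤ t := (hanti (Nat.le_succ m)).trans hm.le
        have h5 := hUle m t ht h4 htT
        have hbp := be0 m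
        calc Real.sqrt t * ∑' k, ‖U k t‖ ≤ Real.sqrt t * (An (S m).u t + (S m).be) :=
              mul_le_mul_of_nonneg_left h5 hst0
          _ = Real.sqrt t * An (S m).u t + Real.sqrt t * (S m).be := by ring
          _ ≤ 4 * L + 1 * (S m).be := add_le_add (hAm m) (mul_le_mul_of_nonneg_right hst hbp.le)
          _ = _ := by ring
      rw [hLe]
      refine (ENNReal.ofReal_le_ofReal hlim).trans (le_of_eq ?_)
      rw [ENNReal.ofReal_mul (by norm_num)]
      norm_num
  · have hq0 : 0 < q := by linarith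
    have hq1 : 1 ≤ q := by linarith
    exact lqf_add hq1 (lqf_mul hq0 (lqf_add hq1 (hHq q hq) (lqf_shift (hHq q hq))) (by norm_num))
      (lqf_fin hq0 ENNReal.ofReal_ne_top j0)

end Pool.Agent.K1H11.NS
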