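import Pool.Agent.H8.NS.Last8

/-!
# The last block: a global flow
-/

open MeasureTheory Set Filter Topology
open scoped ENNReal NNReal ContDiff

namespace Pool.Agent.K1H11.NS

open H459R3.NS (ee fc fr cube S SP Per pd D Rap)
open Pool.Agent.H356R3.NS (shellSum critNorm leiLin)

/-- **The last block.** -/
theorem lastBlock {φ₀ : ℝ → ℝ≥0∞} (hφ₀ : Wgt φ₀) {c : ℝ} (hc : 0 < c) {b : K → C3} (hb : DH b) {g : K → C3} (hg : SD g)
    {a : Wt} (ha : Sup a) {w : Fam} (hw : Sol c a g w) {ε : ℝ} (hε : 0 < ε) :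
    ∃ U : Fam, (∀ L : ℝ, 0 < L → Flow c {0} L b U) ∧
      (∀ t0, 0 < t0 → SD (at' U t0) ∧ ∃ a' : Wt, Sup a' ∧ ∃ z : Fam,
        Sol c a' (at' U t0) z ∧ ∀ k s, 0 ≤ s → z k s = U k (t0 + s)) ∧
      (∀ t, ε ≤ t → Summable (fun k => ‖U k t - w k t‖) ∧ ∑' k, ‖U k t - w k t‖ ≤ ε) ∧
      ∀ L : ℝ, 0 < L → FW φ₀ {0} L U := by
  obtain ⟨φ, hφt, hφ1, hφ2, -⟩ := trc_seq hb.nh (N := NH) (fun h => trc_NH h) 0
  have hlim : Tendsto (fun n => NH (trc (φ n) b - b)) atTop (𝓝 0) := (trc_NH hb.nh).comp hφt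
  obtain ⟨U, u1, u2, u3, ⟨G, u4, u5⟩, u6, u7, u8⟩ := bif_F8 hφ₀ hc (V := fun n => trc (φ n) b)
    (fun n => trc_SD hb.sym hb.dt (φ n)) hg ha hw hε
  obtain ⟨v1, v2⟩ := u7 hφ2
  refine ⟨U, fun L hL => ⟨fun t ht _ => (u1 t ht).1, fun s hs => ?_, fun t0 t1 h0 h01 h1 _ => ?_,
    fun s hs ρ hρ => ?_, fun s hs => ?_, ?_, v2 b hlim, fun s hs hs0 => ?_, fun r' hr' hrb => ?_,
    fun _ _ s hs hs0 => ?_⟩, u1, u2, fun L hL s hs => ?_⟩
  · rw [Finset.mem_singleton] at hs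
    subst hs
    exact ⟨le_rfl, hL⟩
  · obtain ⟨-, a', ha', z, hz, hzU⟩ := u1 t0 h0
    exact ⟨t1 - t0 + 1, 0, a', z, by linarith, fun k => continuous_const, fun _ _ _ => rfl, ha', hz.toSolF0,
      fun k s hs _ => hzU k s hs⟩
  · rw [Finset.mem_singleton] at hs
    subst hs
    simp_rw [zero_add]
    exact u3 ρ hρ
  · rw [Finset.mem_singleton] at hs
    subst hs
    refine ⟨L, G, hL, by linarith, fun j t ht1 ht2 _ => ?_, u5⟩
    simp_rw [zero_add]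
    exact u4 j t ht1 ht2
  · intro h
    apply v1
    unfold L2N LN
    have e1 : ∀ t, E2 (at' U t) ^ (2 : ℝ) = ∑' k, ‖U k t‖ₑ ^ 2 := by
      intro t
      rw [E2_rpow]
      exact tsum_congr fun k => ENNReal.rpow_two _
    simp_rw [e1]
    have h2 : ∫⁻ t in Ioi 0, ∑' k, ‖U k t‖ₑ ^ 2 = ⊤ :=
      top_le_iff.1 (h.symm.le.trans (lintegral_mono_set fun t ht => ht.1))
    rw [h2, ENNReal.top_rpow_of_pos (by norm_num)]
  · rw [Finset.mem_singleton] at hs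
    exact absurd hs0 (by rw [hs]; exact lt_irrefl _)
  · exact u6 r' hr' _ (critNorm_goodN (by linarith)) (fun _ => le_rfl) b ((trc_crit (by linarith) hrb).comp hφt)
  · rw [Finset.mem_singleton] at hs
    exact absurd hs0 (by rw [hs]; exact lt_irrefl _)
  · rw [Finset.mem_singleton] at hs
    subst hs
    refine ⟨min L 1, lt_min hL one_pos, by rw [zero_add]; exact min_le_left _ _, ?_⟩
    simp_rw [zero_add]
    refine ne_top_of_le_ne_top u8 (lintegral_mono_set (Ioc_subset_Ioc_right ?_))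
    rw [min_self]
    exact min_le_right _ _

end Pool.Agent.K1H11.NS
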