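import Pool.Agent.H8.NS.BlockA
import Pool.Graph.R_pool_sql_team_seeded_efc1946e.K1H11.NS4.FlowB
import Pool.Graph.R_pool_sql_team_seeded_efc1946e.K1H11.NS7.Phys7

/-!
# The global construction, with a weight
-/

open MeasureTheory Set Filter Topology
open scoped ENNReal NNReal ContDiff

namespace Pool.Agent.K1H11.NS

open H459R3.NS (ee fc fr cube S SP Per pd D Rap)
open Pool.Agent.H356R3.NS (shellSum critNorm leiLin)

lemma Sol.toSolF0 {c : ℝ} {a : Wt} {V : K → C3} {u : Fam} (h : Sol c a V u) : SolF c 0 a V u :=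
  ⟨h.cf, h.z, h.sym, h.dom, h.l2, fun k t => by rw [sub_zero]; exact h.eq k t⟩

lemma SolF.toSol0 {c : ℝ} {a : Wt} {V : K → C3} {u : Fam} (h : SolF c 0 a V u) : Sol c a V u :=
  ⟨h.cf, h.z, h.sym, h.dom, h.l2, fun k t => by rw [h.eq k t, sub_zero]⟩

/-- One step, without force. -/
theorem step_all8 {c : ℝ} (hc : 0 < c) {V D : K → C3} (hV : SD V) (hD : SD D) {θ : ℝ} (hθ : 0 ≤ θ)
    (hStr : Str (D - V) θ) {a : Wt} (ha : Sup a) {w : Fam} (hw : Sol c a D w)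
    {r0 ρ : ℝ} (hr0 : 2 < r0) (hρ : 0 < ρ) :
    ∃ K2 : ℝ, 0 ≤ K2 ∧ ∀ {dl σ : ℝ}, 0 < dl → 0 < σ →
    ∃ D' : K → C3, SD D' ∧ Str (D' - V) ρ ∧
      ∃ a' : Wt, Sup a' ∧ ∃ u : Fam, Sol c a' D' u ∧
        LNd dl (u - w) ≤ ENNReal.ofReal σ ∧
        (∀ t, 0 < t → LW t (u - w) ≤ ENNReal.ofReal ρ) ∧
        (∀ q : ℝ, r0 ≤ q → DN q (u - w) ≤ ENNReal.ofReal ρ) ∧
        DN 2 (u - w) ≤ ENNReal.ofReal K2 ∧
        L2N (u - w) ≤ ENNReal.ofReal (14 * Real.sqrt (36 * θ + ρ) + ρ) ∧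
        NH (D' - V) ≤ ENNReal.ofReal (16 * Real.sqrt c * Real.sqrt (36 * θ + ρ) + ρ) ∧
        (∀ t, 0 ≤ t → NH (at' u t - V) ≤ NH (at' w t - D) + NH (D - V) +
          ENNReal.ofReal (16 * Real.sqrt c * Real.sqrt (36 * θ + ρ) + ρ)) ∧
        ∀ r : ℝ, r0 ≤ r → critNorm r (D' - V) ≤ ENNReal.ofReal ρ ∧
          ∀ N : (K → C3) → ℝ≥0∞, GoodN N → (∀ x, N x ≤ critNorm r x) → ∀ t, 0 ≤ t →
            N (at' u t - V) ≤ N (at' w t - D) + N (D - V) + ENNReal.ofReal ρ := by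
  have h0 : CF (0 : Fam) := fun k => continuous_const
  obtain ⟨K2, hK2, h⟩ := step_all8F h0 hc hV hD hθ hStr ha hw.toSolF0 hr0 hρ
  refine ⟨K2, hK2, fun {dl σ} hdl hσ => ?_⟩
  obtain ⟨D', hD', hStr', a', ha', u, hu, hrest⟩ := h hdl hσ
  exact ⟨D', hD', hStr', a', ha', u, hu.toSol0, hrest⟩

/-- consecutive states -/
structure CRelG (φ : ℝ → ℝ≥0∞) (c : ℝ) (V' : K → C3) (n : ℕ) (s s' : CSt c) : Prop extends CRel c V' n s s' where
  wl : WL φ (s'.b.u - s.b.u) ≤ ENNReal.ofReal ((1 / 4) ^ n)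

lemma exists_next8 {φ : ℝ → ℝ≥0∞} (hφ : Wgt φ) {c : ℝ} (hc : 0 < c) {V' : K → C3} (hV' : SD V') (n : ℕ) (s : CSt c) :
    ∃ s' : CSt c, CRelG φ c V' n s s' := by
  set V := s.V with hVdef
  have hV := s.hV
  set ρ : ℝ := 1 / ((n : ℝ) + 1) with hρdef
  have hρ : 0 < ρ := by positivity
  have h4n : (0 : ℝ) < (1 / 4) ^ n := by positivity
  set ρs := min ρ ((1 / 4) ^ n) with hρs
  have hρs0 : 0 < ρs := lt_min hρ h4n
  have hρs2 : ρs ≤ ρ := min_le_left _ _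
  have hρs3 : ρs ≤ (1 / 4) ^ n := min_le_right _ _
  obtain ⟨K2, hK2, hstep⟩ := step_all8 hc hV s.b.hD s.hθ s.str s.b.ha s.b.hu (r0 := 2 + ρ) (ρ := ρs)
    (by linarith) hρs0
  obtain ⟨d1, hd1, hY⟩ := cont0 s.b.ha s.b.hu hρ
  have hsd := s.b.hu.dom' s.b.ha
  obtain ⟨b, hb, hb'⟩ := s.b.hu.dom' s.b.ha
  set M := ∑' k, b k + 1 with hM
  have hAb : ∀ t, An s.b.u t ≤ ∑' k, b k := fun t =>
    Summable.tsum_le_tsum (fun k => hb' k t) (hb.of_nonneg_of_le (fun _ => norm_nonneg _) fun k => hb' k t) hb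
  have hM0 : 0 < M := by
    have h1 := (An_nonneg s.b.u 0).trans (hAb 0)
    linarith
  set d2 := (ρ / M) ^ 2 with hd2def
  have hd2 : 0 < d2 := by positivity
  obtain ⟨d3, hd3, hd3'⟩ := hφ.small K2 (show 0 < (1 / 4 : ℝ) ^ n / 2 by positivity)
  set dl' := min (min (min d1 d2) d3) (s.b.dl / 2) with hdl'
  have hdlp : 0 < dl' := lt_min (lt_min (lt_min hd1 hd2) hd3) (half_pos s.b.hdl)
  have hdl1 : dl' ≤ d1 := (min_le_left _ _).trans ((min_le_left _ _).trans (min_le_left _ _))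
  have hdl2 : dl' ≤ d2 := (min_le_left _ _).trans ((min_le_left _ _).trans (min_le_right _ _))
  have hdl3 : dl' ≤ d3 := (min_le_left _ _).trans (min_le_right _ _)
  obtain ⟨ε', hε', hlate⟩ := late2 hc (half_pos hdlp) (half_pos s.b.hbe) s.b.ha s.b.hu
  set σ := min ε' ((1 / 4) ^ n / 2) with hσ
  have hσ0 : 0 < σ := lt_min hε' (by positivity)
  have hσ1 : σ ≤ ε' := min_le_left _ _
  have hσ2 : σ ≤ (1 / 4) ^ n / 2 := min_le_right _ _
  obtain ⟨D', hD', hStr', a', ha', u', hu', huL, huW, huD, hDN2, hL2, hN1, hN2, hcr⟩ := hstep (dl := dl' / 2) (σ := σ)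
    (half_pos hdlp) hσ0
  obtain ⟨δ, hδ, hopen⟩ := open_sol hc ha' (hu'.sh ha' hdlp.le) one_pos
  have hVV : SD (V - V') := hV.sub hV'
  have hNVV : NH (V - V') ≤ ENNReal.ofReal (NH (V - V')).toReal := by rw [ENNReal.ofReal_toReal hVV.NH_ne]
  have hsq : Real.sqrt (36 * s.θ + ρs) ≤ Real.sqrt (36 * s.θ + (1 / 4) ^ n) := Real.sqrt_le_sqrt (by linarith)
  have hsc := Real.sqrt_nonneg c
  have hbd : 16 * Real.sqrt c * Real.sqrt (36 * s.θ + ρs) + ρs ≤
      16 * Real.sqrt c * Real.sqrt (36 * s.θ + (1 / 4) ^ n) + (1 / 4) ^ n := by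
    have : 16 * Real.sqrt c * Real.sqrt (36 * s.θ + ρs) ≤ 16 * Real.sqrt c * Real.sqrt (36 * s.θ + (1 / 4) ^ n) :=
      mul_le_mul_of_nonneg_left hsq (by positivity)
    linarith
  have hwl : WL φ (u' - s.b.u) ≤ ENNReal.ofReal ((1 / 4) ^ n) := by
    have hcd : CF (u' - s.b.u) := fun k => (hu'.cf k).sub (s.b.hu.cf k)
    refine (WL_le hφ hcd (dl' / 2)).trans ?_
    have h1 : φ (dl' / 2) ≤ φ d3 := hφ.mono (by linarith)
    refine (add_le_add ((mul_le_mul' h1 hDN2).trans hd3') (huL.trans (ENNReal.ofReal_le_ofReal hσ2))).trans ?_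
    rw [← ENNReal.ofReal_add (by positivity) (by positivity)]
    apply ENNReal.ofReal_le_ofReal
    linarith
  refine ⟨⟨⟨D', a', u', dl', min δ (s.b.be / 2), hD', ha', hu', hdlp, lt_min hδ (half_pos s.b.hbe)⟩,
    V', ρs + (NH (V - V')).toReal, hV', by positivity, ?_⟩, ⟨rfl,
    ⟨min_le_right _ _, min_le_right _ _, fun t ht => ?_, fun t ht => ?_, fun t ht0 ht => ?_, fun r hr => ?_,
      fun h h1 h2 h3 h4 => ?_⟩, ?_, ?_, ?_, fun t ht0 ht => ?_, fun q hq => ?_⟩, hwl⟩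
  · have h1 := hStr'.add (Str_of_NH hVV ENNReal.toReal_nonneg hNVV)
    have e1 : D' - V + (V - V') = D' - V' := by abel
    rwa [e1] at h1
  · refine hlate a' ha' _ u' hu' (huL.trans (ENNReal.ofReal_le_ofReal hσ1)) t ?_
    have : dl' ≤ t := ht
    linarith
  · exact (huW t ht).trans (ENNReal.ofReal_le_ofReal hρs2)
  · have ht2 : t ≤ d2 := (show t ≤ dl' from ht).trans hdl2
    refine (LW_le_of hsd ht0 hM0.le fun s' _ => ?_).trans (ENNReal.ofReal_le_ofReal ?_)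
    · have := hAb s'
      linarith
    · have h1 : Real.sqrt t ≤ ρ / M := by
        rw [Real.sqrt_le_left (by positivity)]
        exact ht2
      calc Real.sqrt t * M ≤ ρ / M * M := mul_le_mul_of_nonneg_right h1 hM0.le
        _ = ρ := by field_simp
  · obtain ⟨c1, c2⟩ := hcr r hr
    refine ⟨c1.trans (ENNReal.ofReal_le_ofReal hρs2), fun N hN hNr t ht0 ht => ?_⟩
    have h5 : N (at' s.b.u t - s.b.D) ≤ ENNReal.ofReal (2 * ρ) := by
      refine (hN.le _).trans ?_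
      rw [ENNReal.ofReal_mul (by norm_num), ENNReal.ofReal_ofNat]
      refine mul_le_mul' le_rfl (hY t ht0 ((show t ≤ dl' from ht).trans hdl1))
    refine (c2 N hN hNr t ht0).trans ?_
    calc _ ≤ ENNReal.ofReal (2 * ρ) + N (s.b.D - V) + ENNReal.ofReal ρ :=
          add_le_add (add_le_add h5 le_rfl) (ENNReal.ofReal_le_ofReal hρs2)
      _ = N (s.b.D - V) + (ENNReal.ofReal (2 * ρ) + ENNReal.ofReal ρ) := by ring
      _ = _ := by
          rw [← ENNReal.ofReal_add (by positivity) hρ.le]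
          congr 2
          rw [hρdef]; ring
  · obtain ⟨a'', ha'', z, hz, -⟩ := hopen h h1 h2 h3 (h4.trans (min_le_left _ _))
    exact ⟨a'', ha'', z, hz⟩
  · show ρs + (NH (V - V')).toReal ≤ (1 / 4) ^ n + (NH (V - V')).toReal
    linarith
  · refine hL2.trans (ENNReal.ofReal_le_ofReal ?_)
    linarith
  · exact hN1.trans (ENNReal.ofReal_le_ofReal hbd)
  · have h5 : NH (at' s.b.u t - s.b.D) ≤ ENNReal.ofReal (2 * ρ) := by
      refine (NH_solid.le _).trans ?_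
      rw [ENNReal.ofReal_mul (by norm_num), ENNReal.ofReal_ofNat]
      refine mul_le_mul' le_rfl (hY t ht0 ((show t ≤ dl' from ht).trans hdl1))
    refine (hN2 t ht0).trans ?_
    calc _ ≤ ENNReal.ofReal (2 * ρ) + NH (s.b.D - V) + ENNReal.ofReal (16 * Real.sqrt c *
          Real.sqrt (36 * s.θ + (1 / 4) ^ n) + (1 / 4) ^ n) :=
          add_le_add (add_le_add h5 le_rfl) (ENNReal.ofReal_le_ofReal hbd)
      _ = NH (s.b.D - V) + (ENNReal.ofReal (2 * ρ) + ENNReal.ofReal (16 * Real.sqrt c *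
          Real.sqrt (36 * s.θ + (1 / 4) ^ n) + (1 / 4) ^ n)) := by ring
      _ = _ := by
          rw [← ENNReal.ofReal_add (by positivity) (by positivity)]
          congr 2
          rw [hρdef]; ring
  · exact (huD q hq).trans (ENNReal.ofReal_le_ofReal hρs3)

/-- The Fourier form of the theorem. -/
theorem bif_F8 {φ : ℝ → ℝ≥0∞} (hφ : Wgt φ) {c : ℝ} (hc : 0 < c) {V : ℕ → K → C3} (hV : ∀ n, SD (V n)) {D : K → C3} (hD : SD D)
    {a : Wt} (ha : Sup a) {w : Fam} (hw : Sol c a D w) {ε : ℝ} (hε : 0 < ε) :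
    ∃ U : Fam, (∀ t0, 0 < t0 → SD (at' U t0) ∧ ∃ a' : Wt, Sup a' ∧ ∃ z : Fam,
        Sol c a' (at' U t0) z ∧ ∀ k s, 0 ≤ s → z k s = U k (t0 + s)) ∧
      (∀ t, ε ≤ t → Summable (fun k => ‖U k t - w k t‖) ∧ ∑' k, ‖U k t - w k t‖ ≤ ε) ∧
      (∀ ρ : ℝ, 0 < ρ → ∃ δ : ℝ, 0 < δ ∧ ∀ t, 0 < t → t ≤ δ → Real.sqrt t * ∑' k, ‖U k t‖ ≤ ρ) ∧
      (∃ G : ℕ → ℝ≥0∞, (∀ (j : ℕ) (t : ℝ), (1 / 4) ^ (j + 1) < t → t ≤ (1 / 4) ^ j →
        ENNReal.ofReal (Real.sqrt t * ∑' k, ‖U k t‖) ≤ G j) ∧ ∀ q : ℝ, 2 < q → ∑' j, G j ^ q ≠ ⊤) ∧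
      (∀ r : ℝ, 2 < r → ∀ N : (K → C3) → ℝ≥0∞, GoodN N → (∀ x, N x ≤ critNorm r x) → ∀ v : K → C3,
        Tendsto (fun n => N (V n - v)) atTop (𝓝 0) → ∀ ρ : ℝ, 0 < ρ → ∃ δ : ℝ, 0 < δ ∧ ∀ t, 0 < t → t ≤ δ →
        N (at' U t - v) ≤ ENNReal.ofReal ρ) ∧
      ((∀ n, NH (V n - V (n + 1)) ≤ ENNReal.ofReal ((1 / 4) ^ n)) → L2N U ≠ ⊤ ∧
        ∀ v : K → C3, Tendsto (fun n => NH (V n - v)) atTop (𝓝 0) → ∀ ρ : ℝ, 0 < ρ → ∃ δ : ℝ, 0 < δ ∧
          ∀ t, 0 < t → t ≤ δ → NH (at' U t - v) ≤ ENNReal.ofReal ρ) ∧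
      ∫⁻ t in Ioc 0 (min 1 1), (φ t * ∑' k, ‖U k t‖ₑ) ^ (2 : ℝ) ≠ ⊤ := by
  choose f hf using fun n s => exists_next8 hφ hc (hV (n + 1)) n s
  have hD0 : SD (D - V 0) := hD.sub (hV 0)
  set b0 : BSt c := ⟨D, a, w, ε, ε, hD, ha, hw, hε, hε⟩ with hb0
  set c0 : CSt c := ⟨b0, V 0, (NH (D - V 0)).toReal, hV 0, ENNReal.toReal_nonneg,
    Str_of_NH hD0 ENNReal.toReal_nonneg (by rw [ENNReal.ofReal_toReal hD0.NH_ne])⟩ with hc0
  obtain ⟨S, hS0, hR⟩ : ∃ S : ℕ → CSt c, S 0 = c0 ∧ ∀ n, CRelG φ c (V (n + 1)) n (S n) (S (n + 1)) :=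
    ⟨fun n => Nat.rec c0 f n, rfl, fun n => hf n _⟩
  have hSV : ∀ n, (S n).V = V n := by
    intro n
    cases n with
    | zero => rw [hS0]
    | succ m => exact (hR m).tgt
  have hRb : ∀ n, BRel c (V n) n (S n).b (S (n + 1)).b := fun n => by
    have := (hR n).base
    rwa [hSV n] at this
  obtain ⟨U, hU1, hU2, hU3, hU4, hU5⟩ := bif_seq hc (S := fun n => (S n).b) hRb
  have hS0b : (S 0).b = b0 := by rw [hS0]
  have hS0u : (S 0).b.u = w := by rw [hS0b]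
  have hS0d : (S 0).b.dl = ε := by rw [hS0b]
  have hS0e : (S 0).b.be = ε := by rw [hS0b]
  have hXw : XN w ≠ ⊤ := by
    refine ne_top_of_le_ne_top hw.l2 (LN_mono fun t _ => ?_)
    have hone : ∀ k, om Wt.one k ≤ om a k := fun k => a.one_le k
    exact NW_mono (fun k => Wa_mono hone k) _
  have hwfin : ∫⁻ t in Ioc 0 (min 1 1), (φ t * ∑' k, ‖U k t‖ₑ) ^ (2 : ℝ) ≠ ⊤ := by
    have h1 := WL_seq hφ (u := fun n => (S n).b.u) (fun n => (S n).b.hu.cf) fun n => (hR n).wl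
    have h2 := WL_lim hφ (T0 := 1) (fun n => (S n).b.hu.cf) (fun k t ht _ => hU1 k t ht) h1
    refine ne_top_of_le_ne_top (ENNReal.rpow_ne_top_of_nonneg (by norm_num) (ENNReal.add_ne_top.2
      ⟨?_, ENNReal.ofReal_ne_top⟩)) h2
    show XN (S 0).b.u ≠ ⊤
    rw [hS0u]
    exact hXw
  refine ⟨U, hU3, fun t ht => ?_, hU4, growth_seq hc hRb (fun n => (hR n).dn) (fun t ht => (hU3 t ht).1) hU2, hU5,
    fun hNV => ⟨?_, fun v hv ρ hρ => ?_⟩, hwfin⟩
  · have h1 : (S 1).b.dl ≤ t := by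
      have h2 := (hRb 0).dl
      have h3 := (S 0).b.hdl
      rw [zero_add] at h2
      rw [hS0d] at h2 h3
      linarith
    have h6 := hU2 0 t h1
    rw [hS0u, hS0e] at h6
    exact h6
  all_goals
    have hth : ∀ n, (S (n + 1)).θ ≤ 2 * (1 / 4) ^ n := by
      intro n
      have h1 := (hR n).th
      rw [hSV n] at h1
      have h2 : (NH (V n - V (n + 1))).toReal ≤ (1 / 4) ^ n := ENNReal.toReal_le_of_le_ofReal (by positivity) (hNV n)
      linarith
    have hsq : ∀ n, Real.sqrt (36 * (S (n + 1)).θ + (1 / 4) ^ (n + 1)) ≤ 9 * (1 / 2) ^ n := by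
      intro n
      rw [Real.sqrt_le_left (by positivity)]
      have h1 := hth n
      have e1 : ((1 : ℝ) / 2) ^ n * (1 / 2) ^ n = (1 / 4) ^ n := by
        rw [← mul_pow]; norm_num
      have h2 : (0 : ℝ) < (1 / 4) ^ n := by positivity
      rw [pow_succ]
      nlinarith
    have h42 : ∀ n : ℕ, ((1 : ℝ) / 4) ^ n ≤ (1 / 2) ^ n := fun n =>
      pow_le_pow_left₀ (by norm_num) (by norm_num) n
  · -- the norm in `L²`
    set B0 := 14 * Real.sqrt (36 * (S 0).θ + (1 / 4) ^ 0) + (1 / 4) ^ 0 with hB0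
    have hB00 : 0 ≤ B0 := by positivity
    have key : ∀ n, L2N ((S (n + 1)).b.u - w) ≤ ENNReal.ofReal (B0 + 254 * (1 - (1 / 2) ^ n)) := by
      intro n
      induction n with
      | zero =>
        have h1 := (hR 0).l2
        rw [hS0u] at h1
        refine h1.trans (ENNReal.ofReal_le_ofReal ?_)
        simp [hB0]
      | succ n ih =>
        have e1 : (S (n + 1 + 1)).b.u - w = ((S (n + 1 + 1)).b.u - (S (n + 1)).b.u) + ((S (n + 1)).b.u - w) := by abel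
        have c1 : CF ((S (n + 1 + 1)).b.u - (S (n + 1)).b.u) := fun k =>
          ((S (n + 1 + 1)).b.hu.cf k).sub ((S (n + 1)).b.hu.cf k)
        have c2 : CF ((S (n + 1)).b.u - w) := fun k => ((S (n + 1)).b.hu.cf k).sub (hw.cf k)
        rw [e1]
        have h3 : (0 : ℝ) ≤ (1 / 2) ^ n := by positivity
        have h4 : ((1 : ℝ) / 2) ^ n ≤ 1 := pow_le_one₀ (by norm_num) (by norm_num)
        refine (L2N_add c1 c2).trans ((add_le_add (hR (n + 1)).l2 ih).trans ?_)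
        rw [← ENNReal.ofReal_add (by positivity) (by nlinarith)]
        apply ENNReal.ofReal_le_ofReal
        have h1 := hsq n
        have h2 := h42 (n + 1)
        rw [pow_succ] at h2
        have h5 : ((1 : ℝ) / 2) ^ (n + 1) = (1 / 2) ^ n * (1 / 2) := pow_succ _ _
        rw [h5]
        have h6 : ((1 : ℝ) / 4) ^ (n + 1) ≤ (1 / 2) ^ n * (1 / 2) := by
          have := h42 (n + 1)
          rwa [h5] at this
        linarith
    have hXfin : XN w ≠ ⊤ := by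
      refine ne_top_of_le_ne_top hw.l2 (LN_mono fun t _ => ?_)
      have hone : ∀ k, om Wt.one k ≤ om a k := fun k => a.one_le k
      exact NW_mono (fun k => Wa_mono hone k) _
    refine ne_top_of_le_ne_top (ENNReal.add_ne_top.2 ⟨ENNReal.ofReal_ne_top (r := B0 + 254), hXfin⟩) ?_
    refine L2N_lim (x := fun n => (S (n + 1)).b.u) (fun n => (S (n + 1)).b.hu.cf)
      (fun k t ht => (tendsto_add_atTop_iff_nat 1).2 (hU1 k t ht)) fun n => ?_
    have e1 : (S (n + 1)).b.u = ((S (n + 1)).b.u - w) + w := by abel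
    have c2 : CF ((S (n + 1)).b.u - w) := fun k => ((S (n + 1)).b.hu.cf k).sub (hw.cf k)
    rw [e1]
    refine (L2N_add c2 hw.cf).trans (add_le_add ((key n).trans (ENNReal.ofReal_le_ofReal ?_)) (L2N_le_XN w))
    have : (0 : ℝ) ≤ (1 / 2) ^ n := by positivity
    linarith
  · -- the initial value in `H⁻¹`
    have hsc := Real.sqrt_nonneg c
    set Kc := 16 * Real.sqrt c * 9 + 1 with hKc
    have hKc0 : 0 < Kc := by positivity
    have hbd : ∀ n, 16 * Real.sqrt c * Real.sqrt (36 * (S (n + 1)).θ + (1 / 4) ^ (n + 1)) + (1 / 4) ^ (n + 1) ≤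
        Kc * (1 / 2) ^ n := by
      intro n
      have h1 := mul_le_mul_of_nonneg_left (hsq n) (show 0 ≤ 16 * Real.sqrt c by positivity)
      have h2 := h42 (n + 1)
      have h5 : ((1 : ℝ) / 2) ^ (n + 1) = (1 / 2) ^ n * (1 / 2) := pow_succ _ _
      rw [h5] at h2
      have h3 : (0 : ℝ) ≤ (1 / 2) ^ n := by positivity
      rw [hKc]
      nlinarith
    have dl0 : ∀ n, 0 < (S n).b.dl := fun n => (S n).b.hdl
    have be0 : ∀ n, 0 < (S n).b.be := fun n => (S n).b.hbe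
    have dlh : ∀ n, (S (n + 1)).b.dl ≤ (S n).b.dl / 2 := fun n => (hRb n).dl
    have beh : ∀ n, (S (n + 1)).b.be ≤ (S n).b.be / 2 := fun n => (hRb n).be
    have hanti : Antitone fun n => (S n).b.dl := half_anti dl0 dlh
    have hdl : Tendsto (fun n => (S n).b.dl) atTop (𝓝 0) := half_tendsto dl0 dlh
    have hbe : Tendsto (fun n => (S n).b.be) atTop (𝓝 0) := half_tendsto be0 beh
    have hpow : Tendsto (fun n : ℕ => Kc * (1 / 2 : ℝ) ^ n) atTop (𝓝 0) := by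
      have := (tendsto_pow_atTop_nhds_zero_of_lt_one (r := (1 / 2 : ℝ)) (by norm_num) (by norm_num)).const_mul Kc
      rwa [mul_zero] at this
    have hn3' : Tendsto (fun n : ℕ => 2 / ((n : ℝ) + 1)) atTop (𝓝 0) := by
      have := tendsto_one_div_add_atTop_nhds_zero_nat.const_mul (2 : ℝ)
      rw [mul_zero] at this
      refine this.congr fun n => by ring
    have hρ8 : (0 : ℝ≥0∞) < ENNReal.ofReal (ρ / 8) := by
      rw [ENNReal.ofReal_pos]; positivity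
    obtain ⟨n3, hn3⟩ := Filter.eventually_atTop.1 ((((hbe.eventually (gt_mem_nhds (show 0 < ρ / 16 by positivity))).and
      (hv.eventually (gt_mem_nhds hρ8))).and (hpow.eventually (gt_mem_nhds (show 0 < ρ / 16 by positivity)))).and
      (hn3'.eventually (gt_mem_nhds (show 0 < ρ / 16 by positivity))))
    set n1 := n3 + 3 with hn1def
    refine ⟨(S n1).b.dl / 2, by have := dl0 n1; positivity, fun t ht htd => ?_⟩
    have htn : t < (S n1).b.dl := by have := dl0 n1; linarith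
    -- the index
    obtain ⟨n, hnn, hm1, hm3⟩ : ∃ n, n1 ≤ n + 1 ∧ (S (n + 2)).b.dl ≤ t ∧ t < (S (n + 1)).b.dl := by
      classical
      have hex : ∃ m, (S m).b.dl ≤ t := by
        obtain ⟨m, hm⟩ := (hdl.eventually (gt_mem_nhds ht)).exists
        exact ⟨m, hm.le⟩
      set m := Nat.find hex with hm
      have hm1 : (S m).b.dl ≤ t := Nat.find_spec hex
      have hm2 : n1 < m := by
        by_contra hcon
        push Not at hcon
        have : (S n1).b.dl ≤ (S m).b.dl := hanti hcon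
        linarith
      obtain ⟨n, hn⟩ : ∃ n, m = n + 2 := ⟨m - 2, by omega⟩
      have hm3 : t < (S (n + 1)).b.dl := by
        have := Nat.find_min hex (m := n + 1) (by omega)
        push Not at this
        exact this
      rw [hn] at hm1
      exact ⟨n, by omega, hm1, hm3⟩
    obtain ⟨n', rfl⟩ : ∃ n', n = n' + 2 := ⟨n - 2, by omega⟩
    obtain ⟨q1, q2⟩ := hU2 (n' + 2 + 1) t hm1
    obtain ⟨⟨⟨-, v1⟩, -⟩, w1⟩ := hn3 (n' + 2) (by omega)
    obtain ⟨⟨⟨-, v2⟩, p1⟩, -⟩ := hn3 (n' + 1) (by omega)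
    obtain ⟨⟨⟨-, -⟩, p2⟩, -⟩ := hn3 n' (by omega)
    obtain ⟨⟨⟨b1, -⟩, -⟩, -⟩ := hn3 (n' + 2 + 1) (by omega)
    have hN := NH_solid.toGoodN
    have p3 := (hR (n' + 2)).nh2 t ht.le hm3.le
    have p5 := (hR (n' + 1)).nh1
    rw [hSV] at p3 p5
    have hb1 := hbd (n' + 1)
    have hb2 := hbd n'
    have p4 : NH ((S (n' + 2)).b.D - V (n' + 2)) ≤
        ENNReal.ofReal (ρ / 16) + (ENNReal.ofReal (ρ / 8) + ENNReal.ofReal (ρ / 8)) := by
      have e3 : (S (n' + 2)).b.D - V (n' + 2) = ((S (n' + 2)).b.D - V (n' + 1)) +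
          ((V (n' + 1) - v) + -(V (n' + 2) - v)) := by abel
      rw [e3]
      refine (hN.add _ _).trans (add_le_add ?_ ((hN.add _ _).trans (add_le_add v2.le ((hN.neg _).trans v1.le))))
      exact p5.trans (ENNReal.ofReal_le_ofReal (hb2.trans p2.le))
    have p3' : NH (at' (S (n' + 2 + 1)).b.u t - V (n' + 2)) ≤
        ENNReal.ofReal (ρ / 16) + (ENNReal.ofReal (ρ / 8) + ENNReal.ofReal (ρ / 8)) + ENNReal.ofReal (ρ / 8) := by
      refine p3.trans (add_le_add p4 (ENNReal.ofReal_le_ofReal ?_))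
      have h7 := hb1.trans p1.le
      have h8 : (2 : ℝ) / (((n' + 2 : ℕ) : ℝ) + 1) ≤ ρ / 16 := w1.le
      have e9 : n' + 1 + 1 = n' + 2 := rfl
      rw [e9] at h7
      linarith
    have e3 : at' U t - v = (at' U t - at' (S (n' + 2 + 1)).b.u t) +
        ((at' (S (n' + 2 + 1)).b.u t - V (n' + 2)) + (V (n' + 2) - v)) := by abel
    rw [e3]
    have p6 : NH (at' U t - at' (S (n' + 2 + 1)).b.u t) ≤ ENNReal.ofReal (ρ / 8) := by
      have q3 : SN (at' U t - at' (S (n' + 2 + 1)).b.u t) := q1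
      refine (hN.le _).trans ?_
      have q4 : leiLin (at' U t - at' (S (n' + 2 + 1)).b.u t) ≤ ENNReal.ofReal (ρ / 16) :=
        (LL_le_tsum q3).trans (ENNReal.ofReal_le_ofReal (le_trans q2 b1.le))
      calc 2 * leiLin (at' U t - at' (S (n' + 2 + 1)).b.u t) ≤ 2 * ENNReal.ofReal (ρ / 16) := mul_le_mul' le_rfl q4
        _ = ENNReal.ofReal (ρ / 8) := by
            rw [show (2 : ℝ≥0∞) = ENNReal.ofReal 2 by simp, ← ENNReal.ofReal_mul (by norm_num)]
            congr 1; ring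
    refine (hN.add _ _).trans ((add_le_add p6 ((hN.add _ _).trans (add_le_add p3' v1.le))).trans ?_)
    rw [← ENNReal.ofReal_add (by positivity) (by positivity), ← ENNReal.ofReal_add (by positivity) (by positivity),
      ← ENNReal.ofReal_add (by positivity) (by positivity), ← ENNReal.ofReal_add (by positivity) (by positivity),
      ← ENNReal.ofReal_add (by positivity) (by positivity)]
    apply ENNReal.ofReal_le_ofReal
    linarith

end Pool.Agent.K1H11.NS
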