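import Pool.Agent.H8.NS.Step7

/-!
# Forced solutions whose force vanishes for small times: shifts, windows, limits
-/

open MeasureTheory Set Filter Topology
open scoped ENNReal NNReal

namespace Pool.Agent.K1H11.NS

open Pool.Agent.H356R3.NS (shellSum critNorm leiLin)

section
variable {c : ℝ} {F : Fam} {a : Wt} {V : K → C3} {u : Fam}

lemma DS.mono {T T' : ℝ} (h : DS c T u) (hT : T' ≤ T) : DS c T' u :=
  fun k t0 t h0 ht hT' => h k t0 t h0 ht (hT'.trans hT)

lemma sol_shiftF (hBc : CF (Bt u)) (hF : CF F) (h : SolF c F a V u) (k : K) {t0 t : ℝ} (h0 : 0 ≤ t0) (ht : t0 ≤ t) :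
    u k t = Real.exp (-(c * sq k * (t - t0))) • u k t0 +
      ∫ s in t0..t, Real.exp (-(c * sq k * (t - s))) • (Bt u - F) k s := by
  have e1 := h.eq k t
  have e0 := h.eq k t0
  rw [Duh_eq, max_eq_left (h0.trans ht)] at e1
  rw [Duh_eq, max_eq_left h0] at e0
  have hG : CF (Bt u - F) := fun k => (hBc k).sub (hF k)
  have hc := cont_inner hG c k
  have hadd : ∫ s in (0 : ℝ)..t, Real.exp (c * sq k * s) • (Bt u - F) k s
      = (∫ s in (0 : ℝ)..t0, Real.exp (c * sq k * s) • (Bt u - F) k s)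
        + ∫ s in t0..t, Real.exp (c * sq k * s) • (Bt u - F) k s :=
    (intervalIntegral.integral_add_adjacent_intervals (hc.intervalIntegrable _ _)
      (hc.intervalIntegrable _ _)).symm
  have e2 : ∫ s in t0..t, Real.exp (-(c * sq k * (t - s))) • (Bt u - F) k s
      = Real.exp (-(c * sq k * t)) • ∫ s in t0..t, Real.exp (c * sq k * s) • (Bt u - F) k s := by
    rw [← intervalIntegral.integral_smul]
    refine intervalIntegral.integral_congr fun s _ => ?_
    simp only [smul_smul, ← Real.exp_add]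
    congr 2
    ring
  rw [e2, e1, e0, hadd]
  simp only [smul_add, smul_smul, ← Real.exp_add]
  have e3 : -(c * sq k * (t - t0)) + -(c * sq k * t0) = -(c * sq k * t) := by ring
  rw [e3, add_assoc]

end

lemma SolF.XN_ne {c : ℝ} {F : Fam} {a : Wt} {V : K → C3} {u : Fam} (h : SolF c F a V u) : XN u ≠ ⊤ := by
  refine ne_top_of_le_ne_top h.l2 (LN_mono fun t _ => ?_)
  have hone : ∀ k, om Wt.one k ≤ om a k := fun k => a.one_le k
  exact NW_mono (fun k => Wa_mono hone k) _

lemma sh_zero_of {F : Fam} {T t0 : ℝ} (hF : ∀ k t, t ≤ T → F k t = 0) (h0 : t0 ≤ T) :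
    ∀ k t, t ≤ T - t0 → sh t0 F k t = 0 := by
  intro k t ht
  refine hF k _ ?_
  rcases max_cases t 0 with ⟨h, _⟩ | ⟨h, _⟩ <;> rw [h] <;> linarith

lemma SolF.sh {c : ℝ} {F : Fam} (hF : CF F) {a : Wt} (ha : Sup a) {V : K → C3} {u : Fam} (h : SolF c F a V u) {t0 : ℝ} (h0 : 0 ≤ t0) :
    SolF c (NS.sh t0 F) a (at' u t0) (NS.sh t0 u) where
  cf := sh_cf h.cf t0
  z := fun t => h.z _
  sym := fun t => h.sym (t0 + max t 0)
  dom := by
    obtain ⟨b, hb, hb'⟩ := h.dom
    exact ⟨b, hb, fun k t => hb' k _⟩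
  l2 := by
    refine ne_top_of_le_ne_top h.l2 ?_
    unfold LN
    refine ENNReal.rpow_le_rpow ?_ (by norm_num)
    set φ : ℝ → ℝ≥0∞ := fun t => NW (Wa a) (at' u t) ^ (2 : ℝ)
    calc ∫⁻ t in Ioi 0, NW (Wa a) (at' (NS.sh t0 u) t) ^ (2 : ℝ)
        = ∫⁻ t in Ioi 0, φ (t0 + t) := by
            refine setLIntegral_congr_fun measurableSet_Ioi fun t ht => ?_
            simp only [φ]
            rw [at'_sh u t0 (le_of_lt ht)]
      _ = ∫⁻ t, (Ioi (0 : ℝ)).indicator (fun t => φ (t0 + t)) t := (lintegral_indicator measurableSet_Ioi _).symm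
      _ = ∫⁻ t, (Ioi t0).indicator φ (t0 + t) := by
            refine lintegral_congr fun t => ?_
            by_cases ht : 0 < t
            · rw [indicator_of_mem (show t ∈ Ioi (0 : ℝ) from ht),
                indicator_of_mem (show t0 + t ∈ Ioi t0 by simpa using ht)]
            · rw [indicator_of_notMem (by simpa using ht), indicator_of_notMem (by simpa using ht)]
      _ = ∫⁻ t, (Ioi t0).indicator φ t := lintegral_add_left_eq_self _ t0
      _ = ∫⁻ t in Ioi t0, φ t := lintegral_indicator measurableSet_Ioi _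
      _ ≤ _ := lintegral_mono_set (Ioi_subset_Ioi h0)
  eq := fun k t => by
    have hm := le_max_right t 0
    have hB := Bt_cont h.cf (h.dom' ha)
    have e := sol_shiftF hB hF h k h0 (t := t0 + max t 0) (by linarith)
    show u k (t0 + max t 0) = _
    rw [e]
    have e1 : t0 + max t 0 - t0 = max t 0 := by ring
    rw [e1]
    congr 1
    have e2 := intervalIntegral.integral_comp_add_left
      (fun s => Real.exp (-(c * sq k * (t0 + max t 0 - s))) • (Bt u - F) k s) t0 (a := 0) (b := max t 0)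
    rw [add_zero] at e2
    rw [← e2]
    unfold Duh
    refine intervalIntegral.integral_congr fun s hs => ?_
    rw [uIcc_of_le hm] at hs
    have e3 : Bt (NS.sh t0 u) k s = Bt u k (t0 + s) := by
      unfold Bt
      rw [at'_sh u t0 hs.1]
    have e4 : NS.sh t0 F k s = F k (t0 + s) := by
      show F k (t0 + max s 0) = _
      rw [max_eq_left hs.1]
    show _ = Real.exp (-(c * sq k * (max t 0 - s))) • (Bt (NS.sh t0 u) k s - NS.sh t0 F k s)
    rw [e3, e4]
    show _ • (Bt u k (t0 + s) - F k (t0 + s)) = _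
    congr 3
    ring

/-- Solutions converge to their data. -/
lemma cont0F {c : ℝ} {F : Fam} {a : Wt} (ha : Sup a) {V : K → C3} {u : Fam} (hu : SolF c F a V u) {ρ : ℝ} (hρ : 0 < ρ) :
    ∃ d : ℝ, 0 < d ∧ ∀ t, 0 ≤ t → t ≤ d → leiLin (at' u t - V) ≤ ENNReal.ofReal ρ := by
  have hud := hu.dom' ha
  have hV : ∀ k, u k 0 = V k := fun k => by
    rw [hu.eq k 0, Duh_at_zero]
    simp
  set v : Fam := fun k _ => V k
  have hvc : CF v := fun k => continuous_const
  have hvd : Dom v := by
    obtain ⟨b, hb, hb'⟩ := hud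
    exact ⟨b, hb, fun k t => by show ‖V k‖ ≤ b k; rw [← hV]; exact hb' k 0⟩
  have hdc : CF (u - v) := fun k => (hu.cf k).sub (hvc k)
  have hcont := An_cont hdc (hud.sub hvd)
  have h0 : An (u - v) 0 = 0 := by
    unfold An
    have : ∀ k, ‖(u - v) k 0‖ = 0 := fun k => by
      show ‖u k 0 - V k‖ = 0
      rw [hV, sub_self, norm_zero]
    simp only [this, tsum_zero]
  have h1 : ∀ᶠ t in 𝓝 (0 : ℝ), An (u - v) t < ρ :=
    (hcont.tendsto 0).eventually (gt_mem_nhds (by rw [h0]; exact hρ))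
  obtain ⟨d, hd, hd'⟩ := Metric.eventually_nhds_iff.1 h1
  refine ⟨d / 2, by positivity, fun t h0t htd => ?_⟩
  have h2 : An (u - v) t < ρ := hd' (by rw [Real.dist_eq, sub_zero, abs_of_nonneg h0t]; linarith)
  have h3 : SN (at' u t - V) := (hud.sub hvd).sn t
  exact (LL_le_tsum h3).trans (ENNReal.ofReal_le_ofReal h2.le)

/-- A small norm on the window `(t/2, t)` gives a small norm at the time `t`. -/
lemma win_AnL {c : ℝ} (hc : 0 < c) : ∃ θ : ℝ, 0 < θ ∧ ∀ (u : Fam), CF u → Dom u →
    ∀ t lam : ℝ, DS c t u → 0 < t → 0 < lam → lam ≤ θ → LW t u ≤ ENNReal.ofReal lam → Real.sqrt t * An u t ≤ 4 * lam := by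
  have hC := C0_pos
  have hsc : 0 < Real.sqrt c := Real.sqrt_pos.2 hc
  refine ⟨Real.sqrt c / (32 * C0), by positivity, fun u hu hud t lam hD ht hl hlθ hLW => ?_⟩
  have hst : 0 < Real.sqrt t := Real.sqrt_pos.2 ht
  have hst2 : Real.sqrt t ^ 2 = t := Real.sq_sqrt ht.le
  set M := 2 * lam / Real.sqrt t with hM
  have hM0 : 0 < M := by positivity
  obtain ⟨s, hs, hA⟩ : ∃ s ∈ Ioo (t / 2) t, An u s ≤ M := by
    by_contra hcon
    push Not at hcon
    have h2 : ENNReal.ofReal (2 * lam ^ 2) ≤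
        ∫⁻ s in Ioi 0, ((Ioo (t / 2) t).indicator (fun s => NW (Wa Wt.one) (at' u s)) s) ^ (2 : ℝ) := by
      calc ENNReal.ofReal (2 * lam ^ 2) = ∫⁻ s in Ioo (t / 2) t, ENNReal.ofReal (M ^ 2) := by
            rw [setLIntegral_const, Real.volume_Ioo, ← ENNReal.ofReal_mul (by positivity)]
            congr 1
            rw [hM, div_pow, hst2]; field_simp; ring
        _ ≤ ∫⁻ s in Ioo (t / 2) t, ((Ioo (t / 2) t).indicator (fun s => NW (Wa Wt.one) (at' u s)) s) ^ (2 : ℝ) := by
            refine setLIntegral_mono' measurableSet_Ioo fun s hs => ?_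
            rw [indicator_of_mem hs, NW_Wa_zero]
            show _ ≤ (∑' k, ‖u k s‖ₑ) ^ (2 : ℝ)
            rw [An_eq hud, ENNReal.rpow_two, ← ENNReal.ofReal_pow (An_nonneg _ s)]
            apply ENNReal.ofReal_le_ofReal
            exact pow_le_pow_left₀ hM0.le (hcon s hs).le 2
        _ ≤ _ := lintegral_mono_set fun s hs => by
            have := hs.1
            simp only [mem_Ioi]; linarith
    have h3 : ENNReal.ofReal (Real.sqrt 2 * lam) ≤ LW t u := by
      unfold LW LN
      calc ENNReal.ofReal (Real.sqrt 2 * lam) = (ENNReal.ofReal (2 * lam ^ 2)) ^ (1 / 2 : ℝ) := by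
            rw [ENNReal.ofReal_rpow_of_nonneg (by positivity) (by norm_num), ← Real.sqrt_eq_rpow,
              Real.sqrt_mul (by norm_num), Real.sqrt_sq hl.le]
        _ ≤ _ := ENNReal.rpow_le_rpow h2 (by norm_num)
    have h4 := h3.trans hLW
    rw [ENNReal.ofReal_le_ofReal_iff hl.le] at h4
    have h5 : (1 : ℝ) < Real.sqrt 2 := by
      rw [Real.lt_sqrt (by norm_num)]; norm_num
    nlinarith
  have hs0 : 0 ≤ s := by have := hs.1; linarith
  have hh0 : 0 ≤ t - s := by have := hs.2; linarith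
  have hK : ENNReal.ofReal (C0 * (4 * M)) * KI (c / 2) (t - s) < 1 := by
    have h1 : KI (c / 2) (t - s) ≤ ENNReal.ofReal (2 * (Real.sqrt t / Real.sqrt c)) := by
      refine (KI_le (by positivity) hh0).trans (ENNReal.ofReal_le_ofReal ?_)
      rw [← Real.sqrt_div ht.le]
      apply mul_le_mul_of_nonneg_left _ (by norm_num)
      apply Real.sqrt_le_sqrt
      rw [div_le_div_iff₀ (by positivity) hc]
      have := hs.1
      nlinarith
    calc _ ≤ ENNReal.ofReal (C0 * (4 * M)) * ENNReal.ofReal (2 * (Real.sqrt t / Real.sqrt c)) :=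
          mul_le_mul' le_rfl h1
      _ = ENNReal.ofReal (16 * C0 * lam / Real.sqrt c) := by
          rw [← ENNReal.ofReal_mul (by positivity)]
          congr 1
          rw [hM]; field_simp; ring
      _ < 1 := by
          rw [ENNReal.ofReal_lt_one, div_lt_one hsc]
          rw [le_div_iff₀ (by positivity)] at hlθ
          nlinarith
  have h6 := Gv_short (R := 0) hc le_rfl hu hud hD hM0 hK hs0 hA hs.2.le (by linarith : t ≤ s + (t - s)) le_rfl
  have h7 : Gv (c / 2) 0 s u t = An u t := by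
    unfold Gv An
    refine tsum_congr fun k => ?_
    have : gE (c / 2) 0 k (t - s) = 1 := by
      unfold gE
      rw [min_eq_right, Real.exp_zero]
      exact mul_nonneg (by positivity) (nk_nonneg k)
    rw [this, one_mul]
  rw [h7] at h6
  calc Real.sqrt t * An u t ≤ Real.sqrt t * (2 * M) := mul_le_mul_of_nonneg_left h6 hst.le
    _ = 4 * lam := by rw [hM]; field_simp; ring

section
variable {c : ℝ} {u : ℕ → Fam} {dl be : ℕ → ℝ}

lemma An_teleL {T0 : ℝ} (hd : ∀ n, Dom (u n)) (dl0 : ∀ n, 0 < dl n) (dlh : ∀ n, dl (n + 1) ≤ dl n / 2)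
    (beh : ∀ n, be (n + 1) ≤ be n / 2) (hdiff : ∀ n t, dl (n + 1) ≤ t → t ≤ T0 → An (u (n + 1) - u n) t ≤ be n / 2)
    (n j : ℕ) {t : ℝ} (ht : dl (n + 1) ≤ t) (htT : t ≤ T0) : An (u (n + j) - u n) t ≤ be n - be (n + j) := by
  have hanti := half_anti dl0 dlh
  induction j with
  | zero =>
    simp only [add_zero, sub_self]
    unfold An
    simp
  | succ j ih =>
    have e : u (n + (j + 1)) - u n = (u (n + j + 1) - u (n + j)) + (u (n + j) - u n) := by
      rw [← add_assoc]; abel
    rw [e]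
    refine (An_add_le ((hd _).sub (hd _)) ((hd _).sub (hd _)) t).trans ?_
    have h1 := hdiff (n + j) t ((hanti (by omega : n + 1 ≤ n + j + 1)).trans ht) htT
    have h2 := beh (n + j)
    rw [← add_assoc]
    linarith

/-- The limit of a sequence of solutions. -/
theorem lim_existsL {T0 : ℝ} (hc : 0 < c) (hcf : ∀ n, CF (u n)) (hd : ∀ n, Dom (u n)) (hD : ∀ n, DS c T0 (u n))
    (dl0 : ∀ n, 0 < dl n) (dlh : ∀ n, dl (n + 1) ≤ dl n / 2) (be0 : ∀ n, 0 < be n)
    (beh : ∀ n, be (n + 1) ≤ be n / 2) (hdiff : ∀ n t, dl (n + 1) ≤ t → t ≤ T0 → An (u (n + 1) - u n) t ≤ be n / 2) :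
    ∃ U : Fam, (∀ k t, 0 < t → t ≤ T0 → Tendsto (fun n => u n k t) atTop (𝓝 (U k t))) ∧
      (∀ n t, dl (n + 1) ≤ t → t ≤ T0 → Summable (fun k => ‖U k t - u n k t‖) ∧ ∑' k, ‖U k t - u n k t‖ ≤ be n) ∧
      ∀ t, 0 < t → t ≤ T0 → ∃ C γ : ℝ, 0 < C ∧ 0 < γ ∧ ∀ k, ‖U k t‖ ≤ C * Real.exp (-(γ * nk k)) := by
  have hanti := half_anti dl0 dlh
  have hdl := half_tendsto dl0 dlh
  have hbe := half_tendsto be0 beh
  have tele := fun n j t (ht : dl (n + 1) ≤ t) (htT : t ≤ T0) => An_teleL hd dl0 dlh beh hdiff n j ht htT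
  have htele : ∀ n m t, n ≤ m → dl (n + 1) ≤ t → t ≤ T0 → An (u m - u n) t ≤ be n := by
    intro n m t hnm ht htT
    obtain ⟨j, rfl⟩ := Nat.exists_eq_add_of_le hnm
    have := tele n j t ht htT
    have := be0 (n + j)
    linarith
  have hex : ∀ k t, 0 < t → t ≤ T0 → ∃ L, Tendsto (fun n => u n k t) atTop (𝓝 L) := by
    intro k t ht htT
    apply cauchySeq_tendsto_of_complete
    rw [Metric.cauchySeq_iff']
    intro ε hε
    obtain ⟨N, hN1, hN2⟩ := ((hbe.eventually (gt_mem_nhds hε)).and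
      (hdl.eventually (gt_mem_nhds ht))).exists
    refine ⟨N, fun n hn => ?_⟩
    rw [dist_eq_norm]
    have h1 := norm_le_An ((hd n).sub (hd N)) k t
    have h2 := htele N n t hn ((hanti (Nat.le_succ N)).trans hN2.le) htT
    exact (h1.trans h2).trans_lt hN1
  choose L hL using hex
  classical
  set U : Fam := fun k t => if h : 0 < t ∧ t ≤ T0 then L k t h.1 h.2 else 0 with hU
  have hUt : ∀ k t, 0 < t → t ≤ T0 → Tendsto (fun n => u n k t) atTop (𝓝 (U k t)) := by
    intro k t ht htT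
    have : U k t = L k t ht htT := by simp only [hU]; rw [dif_pos ⟨ht, htT⟩]
    rw [this]
    exact hL k t ht htT
  refine ⟨U, hUt, fun n t ht htT => ?_, fun t ht htT => ?_⟩
  · have ht0 : 0 < t := (dl0 _).trans_le ht
    have hfin : ∀ s : Finset K, ∑ k ∈ s, ‖U k t - u n k t‖ ≤ be n := by
      intro s
      have h1 : Tendsto (fun m => ∑ k ∈ s, ‖u m k t - u n k t‖) atTop (𝓝 (∑ k ∈ s, ‖U k t - u n k t‖)) :=
        tendsto_finset_sum _ fun k _ => ((hUt k t ht0 htT).sub_const _).norm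
      refine le_of_tendsto h1 ?_
      filter_upwards [eventually_ge_atTop n] with m hm
      have h2 : Summable fun k => ‖(u m - u n) k t‖ := ((hd m).sub (hd n)).sn t
      refine le_trans ?_ (htele n m t hm ht htT)
      exact h2.sum_le_tsum s fun _ _ => norm_nonneg _
    exact ⟨summable_of_sum_le (fun _ => norm_nonneg _) hfin,
      Real.tsum_le_of_sum_le (fun _ => norm_nonneg _) hfin⟩
  · obtain ⟨n, hn⟩ := (hdl.eventually (gt_mem_nhds (show 0 < t / 2 by positivity))).exists
    obtain ⟨b, hb, hb'⟩ := hd n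
    set M := ∑' k, b k + be n + 1 with hM
    have hAb : ∀ s, An (u n) s ≤ ∑' k, b k := fun s =>
      Summable.tsum_le_tsum (fun k => hb' k s) (hb.of_nonneg_of_le (fun _ => norm_nonneg _) fun k => hb' k s) hb
    have hM0 : 0 < M := by
      have h1 := (An_nonneg (u n) 0).trans (hAb 0)
      have h2 := be0 n
      linarith
    obtain ⟨hh, a1, a2, a3⟩ := smoothing hc hM0 (show 0 < t / 2 by positivity)
    refine ⟨2 * M, c / 2 * hh, by positivity, by positivity, fun k => ?_⟩
    have h1 : ∀ m, n ≤ m → ‖u m k t‖ ≤ 2 * M * Real.exp (-(c / 2 * hh * nk k)) := by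
      intro m hm
      have hs : dl (n + 1) ≤ t - hh := by
        have := hanti (Nat.le_succ n)
        have e : dl (n + 1) ≤ dl n := this
        linarith
      have h2 : An (u m) (t - hh) ≤ M := by
        have h3 := An_sub_le (hd m) (hd n) (t - hh)
        have h4 := htele n m (t - hh) hm hs (by linarith)
        have h5 := hAb (t - hh)
        linarith
      have h6 := a3 t (u m) (hcf m) (hd m) ((hD m).mono htT) (t - hh) (by linarith) (by linarith) h2 k
      rwa [sub_add_cancel] at h6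
    refine le_of_tendsto (hUt k t ht htT).norm ?_
    filter_upwards [eventually_ge_atTop n] with m hm using h1 m hm

end

end Pool.Agent.K1H11.NS
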