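import Pool.Agent.H8.NS.Par

/-!
# The main theorem on the Fourier side
-/

open MeasureTheory Set Filter Topology
open scoped ENNReal NNReal ContDiff

namespace Pool.Agent.K1H11.NS

open H459R3.NS (ee fc fr cube S SP Per pd D Rap)
open Pool.Agent.H356R3.NS (shellSum critNorm leiLin)

/-- **The main theorem, on the Fourier side.** -/
theorem flow_main {φ₀ : ℝ → ℝ≥0∞} (hφ₀ : Wgt φ₀) {c : ℝ} (hc : 0 < c) {R : ℝ} (hR : 0 < R) {v : ℝ → K → C3} (hv : ∀ t ∈ Icc 0 R, DH (v t))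
    (hcont : PathN NH R v) {g : K → C3} (hg : SD g) {a : Wt} (ha : Sup a) {w : Fam} (hw : Sol c a g w)
    {ε : ℝ} (hε : 0 < ε) {p : ℝ} (hp : 0 < p) (hp2 : p < 2) {r : ℝ} (hr : 2 < r) :
    ∃ (S : Finset ℝ) (V : Fam), (∀ s ∈ S, 0 ≤ s ∧ s ≤ R) ∧ (0 : ℝ) ∈ S ∧
      (∀ L : ℝ, 0 < L → Flow c S (R + L) (v 0) V ∧ FW φ₀ S (R + L) V) ∧
      (∀ t, 0 < t → t ≤ R → NH (at' V t - v t) ≤ ENNReal.ofReal ε) ∧
      (∀ t0, R < t0 → SD (at' V t0) ∧ ∃ a' : Wt, Sup a' ∧ ∃ z : Fam,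
        Sol c a' (at' V t0) z ∧ ∀ k s, 0 ≤ s → z k s = V k (t0 + s)) ∧
      (∀ t, R + ε ≤ t → Summable (fun k => ‖V k t - w k (t - R)‖) ∧ ∑' k, ‖V k t - w k (t - R)‖ ≤ ε) ∧
      (PathN A1 R v → (∃ E : Set ℝ, MeasurableSet E ∧ volume E ≤ ENNReal.ofReal ε ∧
          ∀ t, 0 < t → t ≤ R → t ∉ E → A1 (at' V t - v t) ≤ ENNReal.ofReal ε) ∧
        ∫⁻ t in Ioc 0 R, A1 (at' V t - v t) ^ p ≤ ENNReal.ofReal ε) ∧
      (PathN (critNorm r) R v → ∀ t, 0 < t → t ≤ R → critNorm r (at' V t - v t) ≤ ENNReal.ofReal ε) := by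
  obtain ⟨θc, hθc, hblk⟩ := blockA hφ₀ hc hr
  obtain ⟨η, hη, hη1, hηε, hη6, hηp⟩ := exists_eta (c := c) hε hR hp
  obtain ⟨n0, a1, a2, a3, a4, a5⟩ := exists_n0 hη hθc hr
  have hCP : PN (critNorm r) := CN_PN (by linarith)
  have hz : ∀ t ∈ Icc 0 R, v t 0 = 0 := fun t ht => (hv t ht).z
  -- the truncation level
  obtain ⟨N0, hN0, hN0', hN0''⟩ : ∃ N0 : ℕ, (∀ t ∈ Icc 0 R, NH (trc N0 (v t) - v t) ≤ ENNReal.ofReal η) ∧
      (PathN A1 R v → ∀ t ∈ Icc 0 R, A1 (trc N0 (v t) - v t) ≤ ENNReal.ofReal η) ∧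
      (PathN (critNorm r) R v → ∀ t ∈ Icc 0 R, critNorm r (trc N0 (v t) - v t) ≤ ENNReal.ofReal η) := by
    obtain ⟨n1, hn1⟩ := hcont.trunc NH_PN hz hη
    obtain ⟨n2, hn2⟩ : ∃ n2, PathN A1 R v → ∀ n, n2 ≤ n → ∀ t ∈ Icc 0 R, A1 (trc n (v t) - v t) ≤ ENNReal.ofReal η := by
      by_cases hA : PathN A1 R v
      · obtain ⟨n2, hn2⟩ := hA.trunc A1_PN hz hη
        exact ⟨n2, fun _ => hn2⟩
      · exact ⟨0, fun h => absurd h hA⟩
    obtain ⟨n3, hn3⟩ : ∃ n3, PathN (critNorm r) R v → ∀ n, n3 ≤ n → ∀ t ∈ Icc 0 R,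
        critNorm r (trc n (v t) - v t) ≤ ENNReal.ofReal η := by
      by_cases hA : PathN (critNorm r) R v
      · obtain ⟨n3, hn3⟩ := hA.trunc hCP hz hη
        exact ⟨n3, fun _ => hn3⟩
      · exact ⟨0, fun h => absurd h hA⟩
    exact ⟨max n1 (max n2 n3), hn1 _ (le_max_left _ _), fun h => hn2 h _ ((le_max_left _ _).trans (le_max_right _ _)),
      fun h => hn3 h _ ((le_max_right _ _).trans (le_max_right _ _))⟩
  -- the uniform continuity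
  obtain ⟨du, hdu, hdu1, hdu2, hdu3⟩ : ∃ du : ℝ, 0 < du ∧
      (∀ s ∈ Icc 0 R, ∀ t ∈ Icc 0 R, |s - t| < du → NH (v s - v t) ≤ ENNReal.ofReal η) ∧
      (PathN A1 R v → ∀ s ∈ Icc 0 R, ∀ t ∈ Icc 0 R, |s - t| < du → A1 (v s - v t) ≤ ENNReal.ofReal η) ∧
      (PathN (critNorm r) R v → ∀ s ∈ Icc 0 R, ∀ t ∈ Icc 0 R, |s - t| < du →
        critNorm r (v s - v t) ≤ ENNReal.ofReal η) := by
    obtain ⟨d1, hd1, hd1'⟩ := hcont.unif NH_PN hη
    obtain ⟨d2, hd2, hd2'⟩ : ∃ d2 : ℝ, 0 < d2 ∧ (PathN A1 R v → ∀ s ∈ Icc 0 R, ∀ t ∈ Icc 0 R, |s - t| < d2 →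
        A1 (v s - v t) ≤ ENNReal.ofReal η) := by
      by_cases hA : PathN A1 R v
      · obtain ⟨d2, hd2, hd2'⟩ := hA.unif A1_PN hη
        exact ⟨d2, hd2, fun _ => hd2'⟩
      · exact ⟨1, one_pos, fun h => absurd h hA⟩
    obtain ⟨d3, hd3, hd3'⟩ : ∃ d3 : ℝ, 0 < d3 ∧ (PathN (critNorm r) R v → ∀ s ∈ Icc 0 R, ∀ t ∈ Icc 0 R, |s - t| < d3 →
        critNorm r (v s - v t) ≤ ENNReal.ofReal η) := by
      by_cases hA : PathN (critNorm r) R v
      · obtain ⟨d3, hd3, hd3'⟩ := hA.unif hCP hη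
        exact ⟨d3, hd3, fun _ => hd3'⟩
      · exact ⟨1, one_pos, fun h => absurd h hA⟩
    exact ⟨min d1 (min d2 d3), lt_min hd1 (lt_min hd2 hd3),
      fun s hs t ht h => hd1' s hs t ht (h.trans_le (min_le_left _ _)),
      fun hA s hs t ht h => hd2' hA s hs t ht (h.trans_le ((min_le_right _ _).trans (min_le_left _ _))),
      fun hA s hs t ht h => hd3' hA s hs t ht (h.trans_le ((min_le_right _ _).trans (min_le_right _ _)))⟩
  obtain ⟨C, hC, hC'⟩ := hcont.bdd NH_PN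
  obtain ⟨M0, hM0, hM0'⟩ : ∃ M0 : ℝ, 0 ≤ M0 ∧ (PathN A1 R v → ∀ t ∈ Icc 0 R, A1 (v t) ≤ ENNReal.ofReal M0) := by
    by_cases hA : PathN A1 R v
    · obtain ⟨M0, h1, h2⟩ := hA.bdd A1_PN
      exact ⟨M0, h1, fun _ => h2⟩
    · exact ⟨0, le_rfl, fun h => absurd h hA⟩
  -- the local solutions
  obtain ⟨rb, hrb, hrb'⟩ := trc_RM N0 C hC
  obtain ⟨T, hT, F, W, hFW⟩ := Pool.Agent.H8.HP.local_family hc (Θ := Icc (0 : ℝ) R) (V := fun θ => trc N0 (v θ)) hrb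
    (fun θ => (trc_SD (hv θ θ.2).sym (hv θ θ.2).dt N0).sym) (fun θ => (trc_SD (hv θ θ.2).sym (hv θ θ.2).dt N0).z)
    (fun θ k => hrb' _ (hC' θ θ.2) k) hη
  -- the number of blocks
  obtain ⟨n, hn⟩ := exists_nat_gt (max (R / T) (R / du))
  have hn1 : R / T < n := (le_max_left _ _).trans_lt hn
  have hn2 : R / du < n := (le_max_right _ _).trans_lt hn
  have hn0 : (0 : ℝ) < n := lt_trans (by positivity) hn1
  have hnpos : 0 < n := by exact_mod_cast hn0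
  set h := R / n with hh_def
  have hh : 0 < h := by positivity
  have hnh : (n : ℝ) * h = R := by rw [hh_def]; field_simp
  have hhT : h < T := by
    rw [div_lt_iff₀ hT] at hn1
    rw [hh_def, div_lt_iff₀ hn0]
    linarith
  have hhdu : h < du := by
    rw [div_lt_iff₀ hdu] at hn2
    rw [hh_def, div_lt_iff₀ hn0]
    linarith
  -- the exceptional times
  obtain ⟨d, hd, hd'⟩ := small_lint hp hp2 (M := 2 * M0 + 2) (by positivity) (ρ := ENNReal.ofReal (ε / (2 * n)))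
    (by rw [ENNReal.ofReal_pos]; positivity)
  set δ := min h (min d (ε / n)) with hδ_def
  have hδ : 0 < δ := lt_min hh (lt_min hd (by positivity))
  have hδh : δ ≤ h := min_le_left _ _
  have hδd : δ ≤ d := (min_le_right _ _).trans (min_le_left _ _)
  have hδn : n * δ ≤ ε := by
    have : δ ≤ ε / n := (min_le_right _ _).trans (min_le_right _ _)
    calc (n : ℝ) * δ ≤ n * (ε / n) := mul_le_mul_of_nonneg_left this hn0.le
      _ = ε := by field_simp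
  have hmem : ∀ j : ℕ, j ≤ n → ∀ s, 0 ≤ s → (j : ℝ) * h + s ≤ R → (j : ℝ) * h + s ∈ Icc (0 : ℝ) R := fun j _ s hs h1 =>
    ⟨by positivity, h1⟩
  have hjh : ∀ j : ℕ, j < n → ((j : ℝ) + 1) * h ≤ R := by
    intro j hj
    have h1 : ((j : ℝ) + 1) ≤ n := by exact_mod_cast hj
    rw [← hnh]
    exact mul_le_mul_of_nonneg_right h1 hh.le
  -- the blocks
  have hstep : ∀ j, j < n → ∀ b, (DH b ∧ (j ≤ n → NH (b - v (j * h)) ≤ ENNReal.ofReal (6 * η)) ∧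
      (PathN (critNorm r) R v → j ≤ n → critNorm r (b - v (j * h)) ≤ ENNReal.ofReal (6 * η))) →
      ∃ U : Fam, (Flow c {0} h b U ∧ FW φ₀ {0} h U) ∧ (∀ s, 0 < s → s ≤ h →
        (NH (at' U s - v (j * h + s)) ≤ ENNReal.ofReal ε ∧
        (PathN A1 R v → δ ≤ s → A1 (at' U s - v (j * h + s)) ≤ ENNReal.ofReal (4 * η)) ∧
        (PathN A1 R v → s ≤ δ → A1 (at' U s - v (j * h + s)) ≤ ENNReal.ofReal (2 * M0 + 2 + 1 / Real.sqrt s)) ∧
        (PathN (critNorm r) R v → critNorm r (at' U s - v (j * h + s)) ≤ ENNReal.ofReal ε))) ∧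
      (DH (at' U h) ∧ (j + 1 ≤ n → NH (at' U h - v ((j + 1 : ℕ) * h)) ≤ ENNReal.ofReal (6 * η)) ∧
        (PathN (critNorm r) R v → j + 1 ≤ n → critNorm r (at' U h - v ((j + 1 : ℕ) * h)) ≤
          ENNReal.ofReal (6 * η))) := by
    intro j hj b hb
    have hj1 := hjh j hj
    have hjm : (j : ℝ) * h ∈ Icc (0 : ℝ) R := ⟨by positivity, by nlinarith⟩
    have hsm : ∀ s, 0 < s → s ≤ h → (j : ℝ) * h + s ∈ Icc (0 : ℝ) R := fun s h1 h2 =>
      ⟨by positivity, by nlinarith⟩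
    have hdist : ∀ s, 0 < s → s ≤ h → |(j : ℝ) * h - (j * h + s)| < du := by
      intro s h1 h2
      rw [sub_add_cancel_left, abs_neg, abs_of_pos h1]
      linarith
    obtain ⟨f1, f2, ⟨a', ha', f3⟩, f4⟩ := hFW ⟨j * h, hjm⟩
    obtain ⟨U, u1, u2, u3, u4, u5, u6, u7⟩ := one_step (v := fun s => v (j * h + s)) (PA := PathN A1 R v)
      (M0 := M0) (b := b) hr hblk hη hη1 hηε a1 a2 a3 a4 a5 hhT hδ hδh f1 f2 ha' (hv _ hjm) f3 f4 (hN0 _ hjm)
      (fun s h1 h2 => hdu1 _ hjm _ (hsm s h1 h2) (hdist s h1 h2)) hb.1 (hb.2.1 hj.le) hM0 (fun hA => hN0' hA _ hjm)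
      (fun hA => hM0' hA _ hjm) (fun hA s h1 h2 => hM0' hA _ (hsm s h1 h2))
      (fun hA s h1 h2 => hdu2 hA _ hjm _ (hsm s h1 h2) (hdist s h1 h2)) (PC := PathN (critNorm r) R v)
      (fun hA => hN0'' hA _ hjm) (fun hA s h1 h2 => hdu3 hA _ hjm _ (hsm s h1 h2) (hdist s h1 h2))
      (fun hA => by
        have e1 : b = (b - v (j * h)) + v (j * h) := by abel
        rw [e1]
        exact ne_top_of_le_ne_top (ENNReal.add_ne_top.2 ⟨ne_top_of_le_ne_top ENNReal.ofReal_ne_top (hb.2.2 hA hj.le),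
          hA.fin _ hjm⟩) (hCP.add _ _)) (fun hA => hb.2.2 hA hj.le)
    have e1 : ((j + 1 : ℕ) : ℝ) * h = j * h + h := by push_cast; ring
    refine ⟨U, u1, fun s h1 h2 => ⟨u2 s h1 h2, fun hA h3 => u4 hA s h3 h2, fun hA h3 => u5 hA s h1 h3,
      fun hA => u7 hA s h1 h2⟩, (u1.1.sd h hh le_rfl).toDH, fun _ => ?_, fun hA _ => ?_⟩
    · rw [e1]
      exact u3 h hδh le_rfl
    · rw [e1]
      exact u6 hA h hδh le_rfl
  have hE0 : DH (v 0) ∧ (0 ≤ n → NH (v 0 - v ((0 : ℕ) * h)) ≤ ENNReal.ofReal (6 * η)) ∧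
      (PathN (critNorm r) R v → 0 ≤ n → critNorm r (v 0 - v ((0 : ℕ) * h)) ≤ ENNReal.ofReal (6 * η)) := by
    refine ⟨hv 0 ⟨le_rfl, hR.le⟩, fun _ => ?_, fun hA _ => ?_⟩
    · rw [Nat.cast_zero, zero_mul]
      exact (hdu1 0 ⟨le_rfl, hR.le⟩ 0 ⟨le_rfl, hR.le⟩ (by rw [sub_zero, abs_zero]; exact hdu)).trans
        (ENNReal.ofReal_le_ofReal (by linarith))
    · rw [Nat.cast_zero, zero_mul]
      exact (hdu3 hA 0 ⟨le_rfl, hR.le⟩ 0 ⟨le_rfl, hR.le⟩ (by rw [sub_zero, abs_zero]; exact hdu)).trans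
        (ENNReal.ofReal_le_ofReal (by linarith))
  obtain ⟨S, V, s1, s2, s3, s4⟩ := glue_blocks hh (n := n)
    (Q := fun j s x => NH (x - v (j * h + s)) ≤ ENNReal.ofReal ε ∧
        (PathN A1 R v → δ ≤ s → A1 (x - v (j * h + s)) ≤ ENNReal.ofReal (4 * η)) ∧
        (PathN A1 R v → s ≤ δ → A1 (x - v (j * h + s)) ≤ ENNReal.ofReal (2 * M0 + 2 + 1 / Real.sqrt s)) ∧
        (PathN (critNorm r) R v → critNorm r (x - v (j * h + s)) ≤ ENNReal.ofReal ε))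
    (E := fun j b => DH b ∧ (j ≤ n → NH (b - v (j * h)) ≤ ENNReal.ofReal (6 * η)) ∧
      (PathN (critNorm r) R v → j ≤ n → critNorm r (b - v (j * h)) ≤ ENNReal.ofReal (6 * η))) hstep hE0 (n - 1) (by omega)
  have hnn : (((n - 1 : ℕ) : ℝ) + 1) * h = R := by
    rw [Nat.cast_sub hnpos, Nat.cast_one, sub_add_cancel]
    exact hnh
  rw [hnn] at s2 s4
  -- the last block
  obtain ⟨Z, z1, z2, z3, z4⟩ := lastBlock hφ₀ hc s4.1 hg ha hw hε
  have hleft : ∀ t, t ≤ R → at' (cat R V Z) t = at' V t := fun t ht => at'_cat_left ht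
  have hQ : ∀ i : ℕ, i < n → ∀ s, 0 < s → s ≤ h →
      NH (at' (cat R V Z) (i * h + s) - v (i * h + s)) ≤ ENNReal.ofReal ε ∧
        (PathN A1 R v → δ ≤ s → A1 (at' (cat R V Z) (i * h + s) - v (i * h + s)) ≤ ENNReal.ofReal (4 * η)) ∧
        (PathN A1 R v → s ≤ δ → A1 (at' (cat R V Z) (i * h + s) - v (i * h + s)) ≤
          ENNReal.ofReal (2 * M0 + 2 + 1 / Real.sqrt s)) ∧
        (PathN (critNorm r) R v → critNorm r (at' (cat R V Z) (i * h + s) - v (i * h + s)) ≤ ENNReal.ofReal ε) := by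
    intro i hi s h1 h2
    have h3 : (i : ℝ) * h + s ≤ R := by have := hjh i hi; nlinarith
    rw [hleft _ h3]
    exact s3 i (by omega) s h1 h2
  refine ⟨_, cat R V Z, ?_, Finset.mem_union_left _ s1,
    fun L hL => ⟨s2.1.cat hR hL (z1 L hL) (Finset.mem_singleton_self 0),
      s2.2.cat hL (z4 L hL) fun s hs => le_of_eq (Finset.mem_singleton.1 hs).symm⟩, fun t ht htR => ?_,
    fun t0 ht0 => ?_, fun t ht => ?_, fun hA => ⟨⟨Exc n h δ, Exc_meas n h δ, ?_, fun t ht htR hE => ?_⟩, ?_⟩,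
    fun hA t ht htR => ?_⟩
  · intro s hs
    rw [Finset.mem_union, Finset.mem_image] at hs
    rcases hs with hs | ⟨s', hs', rfl⟩
    · obtain ⟨q1, q2⟩ := s2.1.hS s hs
      exact ⟨q1, q2.le⟩
    · rw [Finset.mem_singleton] at hs'
      subst hs'
      rw [add_zero]
      exact ⟨hR.le, le_rfl⟩
  · obtain ⟨i, hi, s, hs, hsh, rfl⟩ := find_block hh ht (n := n) (by rw [hnh]; exact htR)
    exact (hQ i hi s hs hsh).1
  · obtain ⟨q1, a', ha', z, hz1, hz2⟩ := z2 (t0 - R) (by linarith)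
    rw [at'_cat_right ht0]
    refine ⟨q1, a', ha', z, hz1, fun k s hs => ?_⟩
    rw [hz2 k s hs, cat_right (by linarith)]
    congr 1; ring
  · have e1 : ∀ k, cat R V Z k t = Z k (t - R) := fun k => cat_right (by linarith)
    simp_rw [e1]
    exact z3 (t - R) (by linarith)
  · refine (Exc_vol n h).trans (ENNReal.ofReal_le_ofReal hδn)
  · refine Exc_out (P := fun t => A1 (at' (cat R V Z) t - v t) ≤ ENNReal.ofReal ε) hh (fun i hi s q1 q2 q3 => ?_) ht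
      (by rw [hnh]; exact htR) hE
    exact ((hQ i hi s q1 q3).2.1 hA q2).trans (ENNReal.ofReal_le_ofReal (by linarith))
  · have h1 := lp_blocks hh hδ (f := fun t => A1 (at' (cat R V Z) t - v t) ^ p)
      (g := fun s => ENNReal.ofReal (2 * M0 + 2 + 1 / Real.sqrt s) ^ p) (B := ENNReal.ofReal (4 * η) ^ p) n
      (fun i hi s q1 q2 => ENNReal.rpow_le_rpow ((hQ i hi s q1 (q2.trans hδh)).2.2.1 hA q2) hp.le)
      (fun i hi s q1 q2 q3 => ENNReal.rpow_le_rpow ((hQ i hi s q1 q3).2.1 hA q2) hp.le)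
    rw [hnh] at h1
    refine h1.trans ?_
    have h2 : (n : ℝ≥0∞) * (∫⁻ s in Ioc 0 δ, ENNReal.ofReal (2 * M0 + 2 + 1 / Real.sqrt s) ^ p) ≤ ENNReal.ofReal (ε / 2) := by
      refine (mul_le_mul' le_rfl (hd' δ hδ hδd)).trans (le_of_eq ?_)
      rw [← ENNReal.ofReal_natCast, ← ENNReal.ofReal_mul hn0.le]
      congr 1
      field_simp
    have h3 : ENNReal.ofReal R * ENNReal.ofReal (4 * η) ^ p ≤ ENNReal.ofReal (ε / 2) := by
      rw [ENNReal.ofReal_rpow_of_pos (by positivity), ← ENNReal.ofReal_mul hR.le]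
      exact ENNReal.ofReal_le_ofReal hηp
    refine (add_le_add h2 h3).trans (le_of_eq ?_)
    rw [← ENNReal.ofReal_add (by positivity) (by positivity)]
    congr 1; ring
  · obtain ⟨i, hi, s, hs, hsh, rfl⟩ := find_block hh ht (n := n) (by rw [hnh]; exact htR)
    exact (hQ i hi s hs hsh).2.2.2 hA

end Pool.Agent.K1H11.NS
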