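import Pool.Agent.H8.NS.Lp
import Pool.Agent.H8.HP.Loc

/-!
# Parameters, and one step of the construction
-/

open MeasureTheory Set Filter Topology
open scoped ENNReal NNReal ContDiff

namespace Pool.Agent.K1H11.NS

open H459R3.NS (ee fc fr cube S SP Per pd D Rap)
open Pool.Agent.H356R3.NS (shellSum critNorm leiLin)

lemma exists_n0 {η : ℝ} (hη : 0 < η) {θc : ℝ} (hθc : 0 < θc) {r : ℝ} (hr : 2 < r) : ∃ n0 : ℕ, (1 / 4 : ℝ) ^ n0 ≤ η ∧
    2 / ((n0 : ℝ) + 1) ≤ η ∧ 3 / ((n0 : ℝ) + 1) ≤ θc ∧ 12 / ((n0 : ℝ) + 1) ≤ 1 ∧ 2 + 1 / ((n0 : ℝ) + 1) ≤ r := by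
  have h1 : Tendsto (fun n : ℕ => (1 / 4 : ℝ) ^ n) atTop (𝓝 0) :=
    tendsto_pow_atTop_nhds_zero_of_lt_one (by norm_num) (by norm_num)
  have h2 : ∀ C : ℝ, Tendsto (fun n : ℕ => C / ((n : ℝ) + 1)) atTop (𝓝 0) := by
    intro C
    have := tendsto_one_div_add_atTop_nhds_zero_nat.const_mul C
    rw [mul_zero] at this
    refine this.congr fun n => by ring
  obtain ⟨n, ⟨⟨⟨a1, a2⟩, a3⟩, a4⟩, a5⟩ := (((((h1.eventually (gt_mem_nhds hη)).and ((h2 2).eventually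
    (gt_mem_nhds hη))).and ((h2 3).eventually (gt_mem_nhds hθc))).and ((h2 12).eventually (gt_mem_nhds one_pos))).and
    ((h2 1).eventually (gt_mem_nhds (show 0 < r - 2 by linarith)))).exists
  exact ⟨n, a1.le, a2.le, a3.le, a4.le, by linarith⟩

lemma BB_small {c η θ : ℝ} {n0 : ℕ} (h0 : 0 ≤ η) (h1 : η ≤ 1) (hθ : θ ≤ 8 * η) (h4 : (1 / 4 : ℝ) ^ n0 ≤ η) :
    BB c θ n0 ≤ (304 * Real.sqrt c + 1) * Real.sqrt η := by
  unfold BB
  have hs := Real.sqrt_nonneg η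
  have hsc := Real.sqrt_nonneg c
  have h2 : Real.sqrt (36 * (θ + 2 * (1 / 4) ^ n0) + (1 / 4) ^ n0) ≤ 19 * Real.sqrt η := by
    rw [Real.sqrt_le_left (by positivity), mul_pow, Real.sq_sqrt h0]
    linarith
  have h3 : η ≤ Real.sqrt η := by
    apply Real.le_sqrt_of_sq_le
    nlinarith
  have h5 := mul_le_mul_of_nonneg_left h2 (show 0 ≤ 16 * Real.sqrt c by positivity)
  nlinarith

lemma exists_eta {c : ℝ} {ε R p : ℝ} (hε : 0 < ε) (hR : 0 < R) (hp : 0 < p) : ∃ η : ℝ, 0 < η ∧ η ≤ 1 ∧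
    25 * η + 2 * ((304 * Real.sqrt c + 1) * Real.sqrt η) ≤ ε ∧ 6 * η ≤ ε ∧ R * (4 * η) ^ p ≤ ε / 2 := by
  have hsc := Real.sqrt_nonneg c
  set K1 := 27 + 608 * Real.sqrt c with hK1
  have hK0 : 0 < K1 := by positivity
  set ε2 := (ε / (2 * R)) ^ (1 / p) with hε2
  have hε20 : 0 < ε2 := by positivity
  have q1 : 0 < (ε / K1) ^ 2 := by positivity
  have q2 : 0 < ε / 6 := by positivity
  have q3 : 0 < ε2 / 4 := by positivity
  refine ⟨min 1 (min ((ε / K1) ^ 2) (min (ε / 6) (ε2 / 4))), lt_min one_pos (lt_min q1 (lt_min q2 q3)),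
    min_le_left _ _, ?_, ?_, ?_⟩
  · set η := min 1 (min ((ε / K1) ^ 2) (min (ε / 6) (ε2 / 4))) with hη
    have h0 : 0 < η := lt_min one_pos (lt_min q1 (lt_min q2 q3))
    have h1 : η ≤ 1 := min_le_left _ _
    have h2 : η ≤ (ε / K1) ^ 2 := (min_le_right _ _).trans (min_le_left _ _)
    have h3 : Real.sqrt η ≤ ε / K1 := by
      rw [Real.sqrt_le_left (by positivity)]
      exact h2
    have h4 : η ≤ Real.sqrt η := by
      apply Real.le_sqrt_of_sq_le
      nlinarith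
    have h5 : K1 * Real.sqrt η ≤ ε := by
      have := mul_le_mul_of_nonneg_left h3 hK0.le
      rwa [mul_div_cancel₀ _ hK0.ne'] at this
    have h6 : 25 * η + 2 * ((304 * Real.sqrt c + 1) * Real.sqrt η) ≤ K1 * Real.sqrt η := by
      rw [hK1]
      nlinarith
    exact h6.trans h5
  · have : min 1 (min ((ε / K1) ^ 2) (min (ε / 6) (ε2 / 4))) ≤ ε / 6 :=
      (min_le_right _ _).trans ((min_le_right _ _).trans (min_le_left _ _))
    linarith
  · set η := min 1 (min ((ε / K1) ^ 2) (min (ε / 6) (ε2 / 4))) with hη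
    have h0 : 0 < η := lt_min one_pos (lt_min q1 (lt_min q2 q3))
    have h1 : η ≤ ε2 / 4 := (min_le_right _ _).trans ((min_le_right _ _).trans (min_le_right _ _))
    have h2 : (4 * η) ^ p ≤ ε2 ^ p := Real.rpow_le_rpow (by positivity) (by linarith) hp.le
    have h3 : ε2 ^ p = ε / (2 * R) := by
      rw [hε2, ← Real.rpow_mul (by positivity), one_div, inv_mul_cancel₀ hp.ne', Real.rpow_one]
    calc R * (4 * η) ^ p ≤ R * ε2 ^ p := mul_le_mul_of_nonneg_left h2 hR.le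
      _ = ε / 2 := by rw [h3]; field_simp

lemma A1_eq {x : K → C3} (hx : SN x) : A1 x = ENNReal.ofReal (∑' k, ‖x k‖) := by
  unfold A1
  rw [ENNReal.ofReal_tsum_of_nonneg (fun _ => norm_nonneg _) hx]
  exact tsum_congr fun k => (ofReal_norm _).symm

lemma A1_trc_le (n : ℕ) (x : K → C3) : A1 (trc n x) ≤ A1 x := by
  refine A1_PN.mono _ _ fun k => ?_
  unfold trc
  split_ifs
  · exact le_rfl
  · rw [norm_zero]; exact norm_nonneg _

/-- **One step.** -/
theorem one_step {φ₀ : ℝ → ℝ≥0∞} {c : ℝ} {θc r : ℝ} (hr : 2 < r) (hblk : ∀ {F : Fam}, CF F → ∀ {T0 : ℝ},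
    (∀ k t, t ≤ T0 → F k t = 0) → ∀ {g : K → C3}, SD g → ∀ {a : Wt}, Sup a → ∀ {w : Fam}, SolF c F a g w →
    ∀ (n0 : ℕ) {b : K → C3}, DH b → ∀ {θ : ℝ}, NH (g - b) ≤ ENNReal.ofReal θ → 0 ≤ θ →
    ∀ {h δ β : ℝ}, 0 < δ → δ ≤ h → h < T0 → 0 < β → ∃ U : Fam, Flow c {0} h b U ∧
      (∀ t, δ ≤ t → t ≤ h → Summable (fun k => ‖U k t - w k t‖) ∧ ∑' k, ‖U k t - w k t‖ ≤ β) ∧
      (∀ t, 0 < t → t ≤ δ → NH (at' U t - b) ≤ NH (at' w t - g) +
          ENNReal.ofReal (2 * β + (θ + (1 / 4) ^ n0) + 2 * BB c (θ + (1 / 4) ^ n0) n0 +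
            2 / ((n0 : ℝ) + 1) + 3 * (1 / 4) ^ n0)) ∧
      (3 / ((n0 : ℝ) + 1) ≤ θc → ∀ t, 0 < t → t ≤ δ →
        Real.sqrt t * ∑' k, ‖U k t‖ ≤ Real.sqrt t * (An w t + β) + 12 / ((n0 : ℝ) + 1)) ∧
      (2 + 1 / ((n0 : ℝ) + 1) ≤ r → critNorm r b ≠ ⊤ → ∀ t, 0 < t → t ≤ δ → critNorm r (at' U t - b) ≤
        critNorm r (at' w t - g) + critNorm r (g - b) + ENNReal.ofReal (2 * β + 4 / ((n0 : ℝ) + 1) + 4 * (1 / 4) ^ n0)) ∧
      FW φ₀ {0} h U)
    {η ε : ℝ} (hη : 0 < η) (hη1 : η ≤ 1) (hηε : 25 * η + 2 * ((304 * Real.sqrt c + 1) * Real.sqrt η) ≤ ε)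
    {n0 : ℕ} (a1 : (1 / 4 : ℝ) ^ n0 ≤ η) (a2 : 2 / ((n0 : ℝ) + 1) ≤ η)
    (a3 : 3 / ((n0 : ℝ) + 1) ≤ θc) (a4 : 12 / ((n0 : ℝ) + 1) ≤ 1) (a5 : 2 + 1 / ((n0 : ℝ) + 1) ≤ r)
    {N0 : ℕ} {F W : Fam} {T h δ : ℝ} (hT : h < T) (hδ : 0 < δ) (hδh : δ ≤ h)
    (hCF : CF F) (hF : ∀ k t, t ≤ T → F k t = 0) {a : Wt} (ha : Sup a)
    -- `x₀` is the value of the path at the beginning of the block
    {x₀ : K → C3} (hx₀ : DH x₀) (hW : SolF c F a (trc N0 x₀) W)
    (hAn : ∀ t, 0 ≤ t → t ≤ T → An (W - fun k _ => trc N0 x₀ k) t ≤ η)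
    (ht1 : NH (trc N0 x₀ - x₀) ≤ ENNReal.ofReal η)
    {v : ℝ → K → C3} (hv : ∀ s, 0 < s → s ≤ h → NH (x₀ - v s) ≤ ENNReal.ofReal η)
    {b : K → C3} (hb : DH b) (hbx : NH (b - x₀) ≤ ENNReal.ofReal (6 * η)) {PA : Prop} {M0 : ℝ} (hM0 : 0 ≤ M0)
    (ht2 : PA → A1 (trc N0 x₀ - x₀) ≤ ENNReal.ofReal η) (hM1 : PA → A1 x₀ ≤ ENNReal.ofReal M0)
    (hM2 : PA → ∀ s, 0 < s → s ≤ h → A1 (v s) ≤ ENNReal.ofReal M0)
    (hv2 : PA → ∀ s, 0 < s → s ≤ h → A1 (x₀ - v s) ≤ ENNReal.ofReal η) {PC : Prop}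
    (hc1 : PC → critNorm r (trc N0 x₀ - x₀) ≤ ENNReal.ofReal η)
    (hc2 : PC → ∀ s, 0 < s → s ≤ h → critNorm r (x₀ - v s) ≤ ENNReal.ofReal η) (hc3 : PC → critNorm r b ≠ ⊤)
    (hc4 : PC → critNorm r (b - x₀) ≤ ENNReal.ofReal (6 * η)) :
    ∃ U : Fam, (Flow c {0} h b U ∧ FW φ₀ {0} h U) ∧ (∀ s, 0 < s → s ≤ h → NH (at' U s - v s) ≤ ENNReal.ofReal ε) ∧
      (∀ s, δ ≤ s → s ≤ h → NH (at' U s - v s) ≤ ENNReal.ofReal (6 * η)) ∧
      (PA → ∀ s, δ ≤ s → s ≤ h → A1 (at' U s - v s) ≤ ENNReal.ofReal (4 * η)) ∧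
      (PA → ∀ s, 0 < s → s ≤ δ → A1 (at' U s - v s) ≤ ENNReal.ofReal (2 * M0 + 2 + 1 / Real.sqrt s)) ∧
      (PC → ∀ s, δ ≤ s → s ≤ h → critNorm r (at' U s - v s) ≤ ENNReal.ofReal (6 * η)) ∧
      (PC → ∀ s, 0 < s → s ≤ h → critNorm r (at' U s - v s) ≤ ENNReal.ofReal ε) := by
  have hN := NH_PN
  have hG : GoodN (critNorm r) := critNorm_goodN (by linarith)
  set g := trc N0 x₀ with hg
  have hgSD : SD g := trc_SD hx₀.sym hx₀.dt N0
  have hgb : NH (g - b) ≤ ENNReal.ofReal (7 * η) := by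
    have e1 : g - b = (g - x₀) + -(b - x₀) := by abel
    rw [e1, show 7 * η = η + 6 * η by ring, ENNReal.ofReal_add hη.le (by positivity)]
    exact (hN.add _ _).trans (add_le_add ht1 ((hN.neg _).trans hbx))
  obtain ⟨U, u1, u2, u3, u4, u5, u6⟩ := hblk hCF hF hgSD ha hW n0 hb hgb (by positivity) hδ hδh hT hη
  have hh : 0 < h := hδ.trans_le hδh
  have hWs : ∀ t, SN (at' W t) := fun t => (hW.dom' ha).sn t
  have hWg : ∀ t, SN (at' W t - g) := fun t => by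
    exact Summable.of_nonneg_of_le (fun _ => norm_nonneg _) (fun k => norm_sub_le _ _) (Summable.add (hWs t) hgSD.rr.summ)
  have hWgb : ∀ t, 0 ≤ t → t ≤ T → ∑' k, ‖(at' W t - g) k‖ ≤ η := fun t h0 h1 => hAn t h0 h1
  have hNWg : ∀ t, 0 ≤ t → t ≤ T → NH (at' W t - g) ≤ ENNReal.ofReal (2 * η) := fun t h0 h1 =>
    NH_le_An (hWg t) (hWgb t h0 h1)
  have hd1 : ∀ s, δ ≤ s → s ≤ h → NH (at' U s - v s) ≤ ENNReal.ofReal (6 * η) := by
    intro s h1 h2
    obtain ⟨q1, q2⟩ := u2 s h1 h2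
    have hs : 0 < s := hδ.trans_le h1
    have e1 : at' U s - v s = (at' U s - at' W s) + ((at' W s - g) + ((g - x₀) + (x₀ - v s))) := by abel
    rw [e1]
    have p1 : NH (at' U s - at' W s) ≤ ENNReal.ofReal (2 * η) := NH_le_An (x := at' U s - at' W s) q1 q2
    refine (hN.add _ _).trans ((add_le_add p1 ((hN.add _ _).trans (add_le_add (hNWg s hs.le (h2.trans hT.le))
      ((hN.add _ _).trans (add_le_add ht1 (hv s hs h2)))))).trans (le_of_eq ?_))
    rw [← ENNReal.ofReal_add (by positivity) (by positivity), ← ENNReal.ofReal_add (by positivity) (by positivity),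
      ← ENNReal.ofReal_add (by positivity) (by positivity)]
    congr 1; ring
  have hCWg : ∀ t, 0 ≤ t → t ≤ T → critNorm r (at' W t - g) ≤ ENNReal.ofReal (2 * η) := fun t h0 h1 =>
    GoodN_le_An hG (hWg t) (hWgb t h0 h1)
  have hd2 : PC → ∀ s, δ ≤ s → s ≤ h → critNorm r (at' U s - v s) ≤ ENNReal.ofReal (6 * η) := by
    intro hPC s h1 h2
    obtain ⟨q1, q2⟩ := u2 s h1 h2
    have hs : 0 < s := hδ.trans_le h1
    have e1 : at' U s - v s = (at' U s - at' W s) + ((at' W s - g) + ((g - x₀) + (x₀ - v s))) := by abel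
    rw [e1]
    have p1 : critNorm r (at' U s - at' W s) ≤ ENNReal.ofReal (2 * η) := GoodN_le_An hG (x := at' U s - at' W s) q1 q2
    refine (hG.add _ _).trans ((add_le_add p1 ((hG.add _ _).trans (add_le_add (hCWg s hs.le (h2.trans hT.le))
      ((hG.add _ _).trans (add_le_add (hc1 hPC) (hc2 hPC s hs h2)))))).trans (le_of_eq ?_))
    rw [← ENNReal.ofReal_add (by positivity) (by positivity), ← ENNReal.ofReal_add (by positivity) (by positivity),
      ← ENNReal.ofReal_add (by positivity) (by positivity)]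
    congr 1; ring
  have hsq := Real.sqrt_nonneg η
  have hsc := Real.sqrt_nonneg c
  have hB0 : 0 ≤ 2 * ((304 * Real.sqrt c + 1) * Real.sqrt η) := by positivity
  refine ⟨U, ⟨u1, u6⟩, fun s hs hsh => ?_, hd1, fun hPA s h1 h2 => ?_, fun hPA s hs hsδ => ?_, hd2, fun hPC s hs hsh => ?_⟩
  · rcases le_or_gt δ s with h1 | h1
    · refine (hd1 s h1 hsh).trans (ENNReal.ofReal_le_ofReal ?_)
      have : 0 ≤ 2 * ((304 * Real.sqrt c + 1) * Real.sqrt η) := by positivity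
      linarith
    · have p1 := u3 s hs h1.le
      have e1 : at' U s - v s = (at' U s - b) + ((b - x₀) + (x₀ - v s)) := by abel
      rw [e1]
      have h4p : (0 : ℝ) < (1 / 4) ^ n0 := by positivity
      have hBB : BB c (7 * η + (1 / 4) ^ n0) n0 ≤ (304 * Real.sqrt c + 1) * Real.sqrt η :=
        BB_small hη.le hη1 (by linarith) a1
      have hBB0 : 0 ≤ BB c (7 * η + (1 / 4) ^ n0) n0 := by unfold BB; positivity
      have hn2 : (0 : ℝ) < 2 / ((n0 : ℝ) + 1) := by positivity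
      refine (hN.add _ _).trans ((add_le_add (p1.trans (add_le_add (hNWg s hs.le (hsh.trans hT.le)) le_rfl))
        ((hN.add _ _).trans (add_le_add hbx (hv s hs hsh)))).trans ?_)
      rw [← ENNReal.ofReal_add (by positivity) (by positivity), ← ENNReal.ofReal_add (by positivity) (by positivity),
        ← ENNReal.ofReal_add (by positivity) (by positivity)]
      apply ENNReal.ofReal_le_ofReal
      linarith
  · obtain ⟨q1, q2⟩ := u2 s h1 h2
    have hs : 0 < s := hδ.trans_le h1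
    have e1 : at' U s - v s = (at' U s - at' W s) + ((at' W s - g) + ((g - x₀) + (x₀ - v s))) := by abel
    rw [e1]
    have p1 : A1 (at' U s - at' W s) ≤ ENNReal.ofReal η := by
      rw [A1_eq (x := at' U s - at' W s) q1]
      exact ENNReal.ofReal_le_ofReal q2
    have p2 : A1 (at' W s - g) ≤ ENNReal.ofReal η := by
      rw [A1_eq (hWg s)]
      exact ENNReal.ofReal_le_ofReal (hWgb s hs.le (h2.trans hT.le))
    refine (A1_PN.add _ _).trans ((add_le_add p1 ((A1_PN.add _ _).trans (add_le_add p2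
      ((A1_PN.add _ _).trans (add_le_add (ht2 hPA) (hv2 hPA s hs h2)))))).trans (le_of_eq ?_))
    rw [← ENNReal.ofReal_add (by positivity) (by positivity), ← ENNReal.ofReal_add (by positivity) (by positivity),
      ← ENNReal.ofReal_add (by positivity) (by positivity)]
    congr 1; ring
  · have hss : 0 < Real.sqrt s := Real.sqrt_pos.2 hs
    have hsh : s ≤ h := hsδ.trans hδh
    have p1 := u4 a3 s hs hsδ
    have hUs : SN (at' U s) := (u1.sd s hs hsh).rr.summ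
    have hg1 : ∑' k, ‖g k‖ ≤ M0 := by
      have h1 : A1 g ≤ ENNReal.ofReal M0 := (A1_trc_le N0 x₀).trans (hM1 hPA)
      rw [A1_eq hgSD.rr.summ, ENNReal.ofReal_le_ofReal_iff hM0] at h1
      exact h1
    have hWn : An W s ≤ η + M0 := by
      have h1 : An W s ≤ ∑' k, ‖(at' W s - g) k‖ + ∑' k, ‖g k‖ := by
        unfold An
        rw [← Summable.tsum_add (hWg s) hgSD.rr.summ]
        refine Summable.tsum_le_tsum (fun k => ?_) (hWs s) (Summable.add (hWg s) hgSD.rr.summ)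
        have : W k s = (at' W s - g) k + g k := by
          show W k s = (W k s - g k) + g k
          abel
        calc ‖W k s‖ = ‖(at' W s - g) k + g k‖ := by rw [← this]
          _ ≤ _ := norm_add_le _ _
      exact h1.trans (add_le_add (hWgb s hs.le (hsh.trans hT.le)) hg1)
    have h5 : ∑' k, ‖U k s‖ ≤ M0 + 2 + 1 / Real.sqrt s := by
      have h6 : Real.sqrt s * ∑' k, ‖U k s‖ ≤ Real.sqrt s * (M0 + 2) + 1 := by
        refine p1.trans (add_le_add (mul_le_mul_of_nonneg_left ?_ hss.le) a4)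
        linarith
      have h7 : ∑' k, ‖U k s‖ ≤ (Real.sqrt s * (M0 + 2) + 1) / Real.sqrt s := by
        rw [le_div_iff₀ hss]
        linarith
      refine h7.trans (le_of_eq ?_)
      field_simp
    have h8 : A1 (at' U s) ≤ ENNReal.ofReal (M0 + 2 + 1 / Real.sqrt s) := by
      rw [A1_eq hUs]
      exact ENNReal.ofReal_le_ofReal h5
    rw [sub_eq_add_neg]
    refine (A1_PN.add _ _).trans ((add_le_add h8 ((A1_PN.neg _).trans (hM2 hPA s hs hsh))).trans (le_of_eq ?_))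
    rw [← ENNReal.ofReal_add (by positivity) hM0]
    congr 1; ring
  · rcases le_or_gt δ s with h1 | h1
    · refine (hd2 hPC s h1 hsh).trans (ENNReal.ofReal_le_ofReal ?_)
      linarith
    · have p1 := u5 a5 (hc3 hPC) s hs h1.le
      have e1 : at' U s - v s = (at' U s - b) + ((b - x₀) + (x₀ - v s)) := by abel
      rw [e1]
      have h4p : (0 : ℝ) < (1 / 4) ^ n0 := by positivity
      have hn2 : (0 : ℝ) < 4 / ((n0 : ℝ) + 1) := by positivity
      have hn4 : 4 / ((n0 : ℝ) + 1) = 2 * (2 / ((n0 : ℝ) + 1)) := by ring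
      have hgb' : critNorm r (g - b) ≤ ENNReal.ofReal (7 * η) := by
        have e1 : g - b = (g - x₀) + -(b - x₀) := by abel
        rw [e1, show 7 * η = η + 6 * η by ring, ENNReal.ofReal_add hη.le (by positivity)]
        exact (hG.add _ _).trans (add_le_add (hc1 hPC) ((hG.neg _).trans (hc4 hPC)))
      refine (hG.add _ _).trans ((add_le_add (p1.trans (add_le_add (add_le_add (hCWg s hs.le (hsh.trans hT.le)) hgb')
        le_rfl)) ((hG.add _ _).trans (add_le_add (hc4 hPC) (hc2 hPC s hs hsh)))).trans ?_)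
      rw [← ENNReal.ofReal_add (by positivity) (by positivity), ← ENNReal.ofReal_add (by positivity) (by positivity),
        ← ENNReal.ofReal_add (by positivity) (by positivity), ← ENNReal.ofReal_add (by positivity) (by positivity)]
      apply ENNReal.ofReal_le_ofReal
      linarith

end Pool.Agent.K1H11.NS
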