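import Pool.Agent.H8.NS.Last

/-!
# Continuous paths of divergence free fields
-/

open MeasureTheory Set Filter Topology
open scoped ENNReal NNReal ContDiff

namespace Pool.Agent.K1H11.NS

open H459R3.NS (ee fc fr cube S SP Per pd D Rap)
open Pool.Agent.H356R3.NS (shellSum critNorm leiLin)

/-- norms of sequences -/
structure PN (N : (K → C3) → ℝ≥0∞) : Prop where
  add : ∀ x y : K → C3, N (x + y) ≤ N x + N y
  mono : ∀ x y : K → C3, (∀ k, ‖x k‖ ≤ ‖y k‖) → N x ≤ N y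
  trc : ∀ x : K → C3, x 0 = 0 → N x ≠ ⊤ → Tendsto (fun n => N (trc n x - x)) atTop (𝓝 0)

lemma PN.neg {N : (K → C3) → ℝ≥0∞} (h : PN N) (x : K → C3) : N (-x) ≤ N x :=
  h.mono _ _ fun k => by rw [Pi.neg_apply, norm_neg]

lemma trc_sub_le' (n : ℕ) (v : K → C3) (k : K) : ‖(trc n v - v) k‖ ≤ ‖v k‖ := by
  show ‖trc n v k - v k‖ ≤ _
  unfold trc
  split_ifs
  · rw [sub_self, norm_zero]; exact norm_nonneg _
  · rw [zero_sub, norm_neg]

lemma trc_sub (n : ℕ) (x y : K → C3) : trc n (x - y) = trc n x - trc n y := by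
  funext k
  show trc n (x - y) k = trc n x k - trc n y k
  unfold trc
  split_ifs
  · rfl
  · rw [sub_zero]

lemma NH_PN : PN NH where
  add := NH_solid.add
  mono := fun x y h => NH_solid.mono x y fun k _ => h k
  trc := fun _ _ hx => trc_NH hx

lemma CN_PN {r : ℝ} (hr : 1 ≤ r) : PN (critNorm r) where
  add := (critNorm_goodN hr).add
  mono := fun x y h => (critNorm_solid hr).mono x y fun k _ => h k
  trc := fun _ _ hx => trc_crit hr hx

/-- the norm of the Wiener algebra -/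
noncomputable def A1 (x : K → C3) : ℝ≥0∞ := ∑' k, ‖x k‖ₑ

lemma A1_PN : PN A1 where
  add := fun x y => by
    unfold A1
    rw [← ENNReal.tsum_add]
    exact ENNReal.tsum_le_tsum fun k => enorm_add_le _ _
  mono := fun x y h => by
    refine ENNReal.tsum_le_tsum fun k => ?_
    rw [← ofReal_norm, ← ofReal_norm]
    exact ENNReal.ofReal_le_ofReal (h k)
  trc := fun x hx0 hx => by
    unfold A1 at hx ⊢
    refine tail_tendsto hx (fun n k => ?_) fun k => ?_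
    · rw [← ofReal_norm, ← ofReal_norm]
      exact ENNReal.ofReal_le_ofReal (trc_sub_le' n x k)
    · obtain ⟨n0, hn0⟩ := exists_nat_gt (nk k)
      filter_upwards [eventually_ge_atTop n0] with n hn
      by_cases hk : k = 0
      · subst hk
        have h1 := trc_sub_le' n x 0
        rw [hx0, norm_zero] at h1
        rw [norm_le_zero_iff.1 h1, enorm_zero]
      · have h8 : (n0 : ℝ) ≤ n := by exact_mod_cast hn
        rw [trc_sub_zero x hk (by linarith), enorm_zero]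

/-- continuous paths -/
structure PathN (N : (K → C3) → ℝ≥0∞) (R : ℝ) (v : ℝ → K → C3) : Prop where
  fin : ∀ t ∈ Icc 0 R, N (v t) ≠ ⊤
  cont : ∀ t ∈ Icc 0 R, ∀ ρ : ℝ, 0 < ρ → ∃ δ : ℝ, 0 < δ ∧ ∀ s ∈ Icc 0 R, |s - t| < δ → N (v s - v t) ≤ ENNReal.ofReal ρ

section
variable {N : (K → C3) → ℝ≥0∞} {R : ℝ} {v : ℝ → K → C3}

lemma PathN.unif (hN : PN N) (h : PathN N R v) {ρ : ℝ} (hρ : 0 < ρ) : ∃ δ : ℝ, 0 < δ ∧
    ∀ s ∈ Icc 0 R, ∀ t ∈ Icc 0 R, |s - t| < δ → N (v s - v t) ≤ ENNReal.ofReal ρ := by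
  have h1 := fun t : ℝ => fun ht : t ∈ Icc 0 R => h.cont t ht (ρ / 2) (by positivity)
  choose! d hd0 hd using h1
  obtain ⟨δ, hδ, hδ'⟩ := lebesgue_number_lemma_of_metric (c := fun t : Icc (0 : ℝ) R => Metric.ball (t : ℝ) (d t))
    (isCompact_Icc (a := (0 : ℝ)) (b := R)) (fun _ => Metric.isOpen_ball)
    fun t ht => mem_iUnion.2 ⟨⟨t, ht⟩, Metric.mem_ball_self (hd0 t ht)⟩
  refine ⟨δ, hδ, fun s hs t ht hst => ?_⟩
  obtain ⟨⟨r, hr⟩, hr'⟩ := hδ' t ht
  have m1 : |s - r| < d r := by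
    have : s ∈ Metric.ball r (d r) := hr' (by rw [Metric.mem_ball, Real.dist_eq]; exact hst)
    rwa [Metric.mem_ball, Real.dist_eq] at this
  have m2 : |t - r| < d r := by
    have : t ∈ Metric.ball r (d r) := hr' (Metric.mem_ball_self hδ)
    rwa [Metric.mem_ball, Real.dist_eq] at this
  have e1 : v s - v t = (v s - v r) + -(v t - v r) := by abel
  rw [e1]
  refine (hN.add _ _).trans ((add_le_add (hd r hr s hs m1) ((hN.neg _).trans (hd r hr t ht m2))).trans ?_)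
  rw [← ENNReal.ofReal_add (by positivity) (by positivity)]
  exact ENNReal.ofReal_le_ofReal (by linarith)

lemma PathN.trunc (hN : PN N) (h : PathN N R v) (h0 : ∀ t ∈ Icc 0 R, v t 0 = 0) {ρ : ℝ} (hρ : 0 < ρ) :
    ∃ n0 : ℕ, ∀ n, n0 ≤ n → ∀ t ∈ Icc 0 R, N (NS.trc n (v t) - v t) ≤ ENNReal.ofReal ρ := by
  have key : ∃ n0 : ℕ, ∀ n, n0 ≤ n → ∀ t ∈ Icc 0 R, t ∈ Icc 0 R → N (NS.trc n (v t) - v t) ≤ ENNReal.ofReal ρ := by
    refine (isCompact_Icc (a := (0 : ℝ)) (b := R)).induction_on (p := fun s => ∃ n0 : ℕ, ∀ n, n0 ≤ n → ∀ t ∈ s,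
      t ∈ Icc 0 R → N (NS.trc n (v t) - v t) ≤ ENNReal.ofReal ρ) ⟨0, fun _ _ _ h _ => absurd h (notMem_empty _)⟩
      (fun s t hst ⟨n0, hn0⟩ => ⟨n0, fun n hn r hr => hn0 n hn r (hst hr)⟩) ?_ ?_
    · rintro s t ⟨n0, hn0⟩ ⟨n1, hn1⟩
      refine ⟨max n0 n1, fun n hn r hr hR => ?_⟩
      rcases hr with hr | hr
      · exact hn0 n ((le_max_left _ _).trans hn) r hr hR
      · exact hn1 n ((le_max_right _ _).trans hn) r hr hR
    · intro t ht
      obtain ⟨δ, hδ, hc⟩ := h.cont t ht (ρ / 2) (by positivity)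
      have hρ2 : (0 : ℝ≥0∞) < ENNReal.ofReal (ρ / 2) := by rw [ENNReal.ofReal_pos]; positivity
      obtain ⟨n0, hn0⟩ := Filter.eventually_atTop.1 ((hN.trc (v t) (h0 t ht) (h.fin t ht)).eventually (gt_mem_nhds hρ2))
      refine ⟨Metric.ball t δ, mem_nhdsWithin_of_mem_nhds (Metric.ball_mem_nhds t hδ), n0, fun n hn s hs hsR => ?_⟩
      rw [Metric.mem_ball, Real.dist_eq] at hs
      have e1 : NS.trc n (v s) - v s = (NS.trc n (v s - v t) - (v s - v t)) + (NS.trc n (v t) - v t) := by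
        rw [trc_sub]; abel
      rw [e1]
      refine (hN.add _ _).trans ((add_le_add ((hN.mono _ _ (trc_sub_le' n _)).trans (hc s hsR hs)) (hn0 n hn).le).trans ?_)
      rw [← ENNReal.ofReal_add (by positivity) (by positivity)]
      exact ENNReal.ofReal_le_ofReal (by linarith)
  obtain ⟨n0, hn0⟩ := key
  exact ⟨n0, fun n hn t ht => hn0 n hn t ht ht⟩

lemma PathN.bdd (hN : PN N) (h : PathN N R v) : ∃ C : ℝ, 0 ≤ C ∧ ∀ t ∈ Icc 0 R, N (v t) ≤ ENNReal.ofReal C := by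
  have key : ∃ C : ℝ, 0 ≤ C ∧ ∀ t ∈ Icc 0 R, t ∈ Icc 0 R → N (v t) ≤ ENNReal.ofReal C := by
    refine (isCompact_Icc (a := (0 : ℝ)) (b := R)).induction_on (p := fun s => ∃ C : ℝ, 0 ≤ C ∧ ∀ t ∈ s,
      t ∈ Icc 0 R → N (v t) ≤ ENNReal.ofReal C) ⟨0, le_rfl, fun _ h _ => absurd h (notMem_empty _)⟩
      (fun s t hst ⟨C, hC, hC'⟩ => ⟨C, hC, fun r hr => hC' r (hst hr)⟩) ?_ ?_
    · rintro s t ⟨C, hC, hC'⟩ ⟨C1, hC1, hC1'⟩
      refine ⟨max C C1, le_max_of_le_left hC, fun r hr hR => ?_⟩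
      rcases hr with hr | hr
      · exact (hC' r hr hR).trans (ENNReal.ofReal_le_ofReal (le_max_left _ _))
      · exact (hC1' r hr hR).trans (ENNReal.ofReal_le_ofReal (le_max_right _ _))
    · intro t ht
      obtain ⟨δ, hδ, hc⟩ := h.cont t ht 1 one_pos
      refine ⟨Metric.ball t δ, mem_nhdsWithin_of_mem_nhds (Metric.ball_mem_nhds t hδ), 1 + (N (v t)).toReal,
        by positivity, fun s hs hsR => ?_⟩
      rw [Metric.mem_ball, Real.dist_eq] at hs
      have e1 : v s = (v s - v t) + v t := by abel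
      rw [e1, ENNReal.ofReal_add (by positivity) (by positivity), ENNReal.ofReal_toReal (h.fin t ht)]
      exact (hN.add _ _).trans (add_le_add (hc s hsR hs) le_rfl)
  obtain ⟨C, hC, hC'⟩ := key
  exact ⟨C, hC, fun t ht => hC' t ht ht⟩

end

lemma norm_le_NH {x : K → C3} {k : K} (hk : k ≠ 0) {C : ℝ} (hC : 0 ≤ C) (h : NH x ≤ ENNReal.ofReal C) :
    ‖x k‖ ≤ C * nk k := by
  have h1 : NH x ^ 2 ≤ ENNReal.ofReal C ^ 2 := pow_le_pow_left₀ (by positivity) h 2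
  rw [NH_sq] at h1
  have h2 := (ENNReal.le_tsum k).trans h1
  rw [if_neg hk] at h2
  have hs : 0 < sq k := sq_pos hk
  have e1 : ENNReal.ofReal (∑ i, (k i : ℝ) ^ 2) = ENNReal.ofReal (sq k) := rfl
  rw [e1, ← ofReal_norm, ← ENNReal.ofReal_pow (norm_nonneg _), ← ENNReal.ofReal_div_of_pos hs,
    ← ENNReal.ofReal_pow hC, ENNReal.ofReal_le_ofReal_iff (by positivity), div_le_iff₀ hs] at h2
  have h3 : nk k ^ 2 = sq k := nk_sq k
  have h4 : 0 ≤ nk k := nk_nonneg k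
  have h5 : ‖x k‖ ^ 2 ≤ (C * nk k) ^ 2 := by rw [mul_pow, h3]; exact h2
  exact le_of_sq_le_sq h5 (by positivity)

/-- a rapidly decreasing majorant of the truncated path -/
lemma trc_RM (n : ℕ) (C : ℝ) (hC : 0 ≤ C) : ∃ b : K → ℝ, RM b ∧ ∀ x : K → C3, NH x ≤ ENNReal.ofReal C →
    ∀ k, ‖trc n x k‖ ≤ b k := by
  classical
  refine ⟨fun k => if k ≠ 0 ∧ nk k ≤ n then C * nk k else 0, ⟨fun k => ?_, fun m => ?_⟩, fun x hx k => ?_⟩
  · split_ifs
    · exact mul_nonneg hC (nk_nonneg k)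
    · exact le_rfl
  · apply summable_of_finite_support
    refine (finite_nk n).subset fun k hk => ?_
    by_contra hcon
    apply hk
    have : (if k ≠ 0 ∧ nk k ≤ n then C * nk k else 0) = 0 := if_neg fun h => hcon h.2
    dsimp only
    rw [this, mul_zero]
  · unfold trc
    dsimp only
    by_cases h : k ≠ 0 ∧ nk k ≤ n
    · rw [if_pos h, if_pos h]
      exact norm_le_NH h.1 hC hx
    · rw [if_neg h, if_neg h, norm_zero]

end Pool.Agent.K1H11.NS
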