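import Pool.Agent.H8.NS.LocL

/-!
# The construction with local targets
-/

open MeasureTheory Set Filter Topology
open scoped ENNReal NNReal ContDiff

namespace Pool.Agent.K1H11.NS

open H459R3.NS (ee fc fr cube S SP Per pd D Rap)
open Pool.Agent.H356R3.NS (shellSum critNorm leiLin)

/-- the state of the construction -/
structure BStF (c : ℝ) (F : Fam) where
  D : K → C3
  a : Wt
  u : Fam
  dl : ℝ
  be : ℝ
  hD : SD D
  ha : Sup a
  hu : SolF c F a D u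
  hdl : 0 < dl
  hbe : 0 < be

/-- consecutive states -/
structure BRelF (c : ℝ) (F : Fam) (T0 : ℝ) (V : K → C3) (n : ℕ) (s s' : BStF c F) : Prop where
  dl : s'.dl ≤ s.dl / 2
  be : s'.be ≤ s.be / 2
  diff : ∀ t, s'.dl ≤ t → t ≤ T0 → An (s'.u - s.u) t ≤ s.be / 2
  win : ∀ t, 0 < t → LW t (s'.u - s.u) ≤ ENNReal.ofReal (1 / ((n : ℝ) + 1))
  small : ∀ t, 0 < t → t ≤ s'.dl → LW t s.u ≤ ENNReal.ofReal (1 / ((n : ℝ) + 1))
  crit : ∀ r : ℝ, 2 + 1 / ((n : ℝ) + 1) ≤ r → critNorm r (s'.D - V) ≤ ENNReal.ofReal (1 / ((n : ℝ) + 1)) ∧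
    ∀ N : (K → C3) → ℝ≥0∞, GoodN N → (∀ x, N x ≤ critNorm r x) → ∀ t, 0 ≤ t → t ≤ s'.dl →
      N (at' s'.u t - V) ≤ N (s.D - V) + ENNReal.ofReal (3 / ((n : ℝ) + 1))
  opn : ∀ h : K → C3, Sym h → h 0 = 0 → RR (fun k => ‖h k‖) → ∑' k, ‖h k‖ / nk k ≤ s'.be →
    ∃ a' : Wt, Sup a' ∧ ∃ z : Fam, SolF c (sh s'.dl F) a' (at' s'.u s'.dl + h) z

/-- the state of the construction, with the next target and its stress -/
structure CStF (c : ℝ) (F : Fam) where
  b : BStF c F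
  V : K → C3
  θ : ℝ
  hV : SD V
  hθ : 0 ≤ θ
  str : Str (b.D - V) θ

/-- consecutive states -/
structure CRelF (c : ℝ) (F : Fam) (T0 : ℝ) (V' : K → C3) (n : ℕ) (s s' : CStF c F) : Prop where
  tgt : s'.V = V'
  base : BRelF c F T0 s.V n s.b s'.b
  th : s'.θ ≤ (1 / 4) ^ n + (NH (s.V - V')).toReal
  l2 : L2N (s'.b.u - s.b.u) ≤ ENNReal.ofReal (14 * Real.sqrt (36 * s.θ + (1 / 4) ^ n) + (1 / 4) ^ n)
  nh1 : NH (s'.b.D - s.V) ≤ ENNReal.ofReal (16 * Real.sqrt c * Real.sqrt (36 * s.θ + (1 / 4) ^ n) + (1 / 4) ^ n)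
  nh2 : ∀ t, 0 ≤ t → t ≤ s'.b.dl → NH (at' s'.b.u t - s.V) ≤ NH (s.b.D - s.V) +
    ENNReal.ofReal (2 / ((n : ℝ) + 1) + (16 * Real.sqrt c * Real.sqrt (36 * s.θ + (1 / 4) ^ n) + (1 / 4) ^ n))
  dn : ∀ q : ℝ, 2 + 1 / ((n : ℝ) + 1) ≤ q → DN q (s'.b.u - s.b.u) ≤ ENNReal.ofReal ((1 / 4) ^ n)

lemma exists_next7F {c : ℝ} (hc : 0 < c) {F : Fam} (hCF : CF F) {T0 : ℝ} (hF : ∀ k t, t ≤ T0 → F k t = 0)
    {V' : K → C3} (hV' : SD V') (n : ℕ) (s : CStF c F) :
    ∃ s' : CStF c F, CRelF c F T0 V' n s s' := by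
  set V := s.V with hVdef
  have hV := s.hV
  set ρ : ℝ := 1 / ((n : ℝ) + 1) with hρdef
  have hρ : 0 < ρ := by positivity
  have h4n : (0 : ℝ) < (1 / 4) ^ n := by positivity
  obtain ⟨d1, hd1, hY⟩ := cont0F s.b.ha s.b.hu hρ
  have hsd := s.b.hu.dom' s.b.ha
  obtain ⟨b, hb, hb'⟩ := s.b.hu.dom' s.b.ha
  set M := ∑' k, b k + 1 with hM
  have hAb : ∀ t, An s.b.u t ≤ ∑' k, b k := fun t =>
    Summable.tsum_le_tsum (fun k => hb' k t) (hb.of_nonneg_of_le (fun _ => norm_nonneg _) fun k => hb' k t) hb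
  have hM0 : 0 < M := by
    have h1 := (An_nonneg s.b.u 0).trans (hAb 0)
    linarith
  set d2 := (ρ / M) ^ 2 with hd2def
  have hd2 : 0 < d2 := by positivity
  set dl' := min (min d1 d2) (s.b.dl / 2) with hdl'
  have hdlp : 0 < dl' := lt_min (lt_min hd1 hd2) (half_pos s.b.hdl)
  obtain ⟨ε', hε', hlate⟩ := late2F hF hc (half_pos hdlp) (half_pos s.b.hbe) s.b.ha s.b.hu
  set ρs := min ε' (min ρ ((1 / 4) ^ n)) with hρs
  have hρs0 : 0 < ρs := lt_min hε' (lt_min hρ h4n)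
  have hρs1 : ρs ≤ ε' := min_le_left _ _
  have hρs2 : ρs ≤ ρ := (min_le_right _ _).trans (min_le_left _ _)
  have hρs3 : ρs ≤ (1 / 4) ^ n := (min_le_right _ _).trans (min_le_right _ _)
  obtain ⟨D', hD', hStr', a', ha', u', hu', huL, huW, huD, hL2, hN1, hN2, hcr⟩ := step_all7F hCF hc hV s.b.hD s.hθ s.str
    s.b.ha s.b.hu (r0 := 2 + ρ) (ρ := ρs) (dl := dl' / 2) (by linarith) hρs0 (half_pos hdlp)
  obtain ⟨δ, hδ, hopen⟩ := open_solF (sh_cf hCF dl') hc ha' (hu'.sh hCF ha' hdlp.le) one_pos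
  have hVV : SD (V - V') := hV.sub hV'
  have hNVV : NH (V - V') ≤ ENNReal.ofReal (NH (V - V')).toReal := by rw [ENNReal.ofReal_toReal hVV.NH_ne]
  have hsq : Real.sqrt (36 * s.θ + ρs) ≤ Real.sqrt (36 * s.θ + (1 / 4) ^ n) := Real.sqrt_le_sqrt (by linarith)
  have hsc := Real.sqrt_nonneg c
  have hbd : 16 * Real.sqrt c * Real.sqrt (36 * s.θ + ρs) + ρs ≤
      16 * Real.sqrt c * Real.sqrt (36 * s.θ + (1 / 4) ^ n) + (1 / 4) ^ n := by
    have : 16 * Real.sqrt c * Real.sqrt (36 * s.θ + ρs) ≤ 16 * Real.sqrt c * Real.sqrt (36 * s.θ + (1 / 4) ^ n) :=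
      mul_le_mul_of_nonneg_left hsq (by positivity)
    linarith
  refine ⟨⟨⟨D', a', u', dl', min δ (s.b.be / 2), hD', ha', hu', hdlp, lt_min hδ (half_pos s.b.hbe)⟩,
    V', ρs + (NH (V - V')).toReal, hV', by positivity, ?_⟩, rfl,
    ⟨min_le_right _ _, min_le_right _ _, fun t ht htT => ?_, fun t ht => ?_, fun t ht0 ht => ?_, fun r hr => ?_,
      fun h h1 h2 h3 h4 => ?_⟩, ?_, ?_, ?_, fun t ht0 ht => ?_, fun q hq => ?_⟩
  · have h1 := hStr'.add (Str_of_NH hVV ENNReal.toReal_nonneg hNVV)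
    have e1 : D' - V + (V - V') = D' - V' := by abel
    rwa [e1] at h1
  · refine hlate a' ha' _ u' hu' (huL.trans (ENNReal.ofReal_le_ofReal hρs1)) t ?_ htT
    have : dl' ≤ t := ht
    linarith
  · exact (huW t ht).trans (ENNReal.ofReal_le_ofReal hρs2)
  · have ht2 : t ≤ d2 := (show t ≤ dl' from ht).trans ((min_le_left _ _).trans (min_le_right _ _))
    refine (LW_le_of hsd ht0 hM0.le fun s' _ => ?_).trans (ENNReal.ofReal_le_ofReal ?_)
    · have := hAb s'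
      linarith
    · have h1 : Real.sqrt t ≤ ρ / M := by
        rw [Real.sqrt_le_left (by positivity)]
        exact ht2
      calc Real.sqrt t * M ≤ ρ / M * M := mul_le_mul_of_nonneg_right h1 hM0.le
        _ = ρ := by field_simp
  · obtain ⟨c1, c2⟩ := hcr r hr
    refine ⟨c1.trans (ENNReal.ofReal_le_ofReal hρs2), fun N hN hNr t ht0 ht => ?_⟩
    have h5 : N (at' s.b.u t - s.b.D) ≤ ENNReal.ofReal (2 * ρ) := by
      refine (hN.le _).trans ?_
      rw [ENNReal.ofReal_mul (by norm_num), ENNReal.ofReal_ofNat]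
      refine mul_le_mul' le_rfl (hY t ht0 ((show t ≤ dl' from ht).trans ((min_le_left _ _).trans (min_le_left _ _))))
    refine (c2 N hN hNr t ht0).trans ?_
    calc _ ≤ ENNReal.ofReal (2 * ρ) + N (s.b.D - V) + ENNReal.ofReal ρ :=
          add_le_add (add_le_add h5 le_rfl) (ENNReal.ofReal_le_ofReal hρs2)
      _ = N (s.b.D - V) + (ENNReal.ofReal (2 * ρ) + ENNReal.ofReal ρ) := by ring
      _ = _ := by
          rw [← ENNReal.ofReal_add (by positivity) hρ.le]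
          congr 2
          rw [hρdef]; ring
  · obtain ⟨a'', ha'', z, hz, -⟩ := hopen h h1 h2 h3 (h4.trans (min_le_left _ _))
    exact ⟨a'', ha'', z, hz⟩
  · show ρs + (NH (V - V')).toReal ≤ (1 / 4) ^ n + (NH (V - V')).toReal
    linarith
  · refine hL2.trans (ENNReal.ofReal_le_ofReal ?_)
    linarith
  · exact hN1.trans (ENNReal.ofReal_le_ofReal hbd)
  · have h5 : NH (at' s.b.u t - s.b.D) ≤ ENNReal.ofReal (2 * ρ) := by
      refine (NH_solid.le _).trans ?_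
      rw [ENNReal.ofReal_mul (by norm_num), ENNReal.ofReal_ofNat]
      refine mul_le_mul' le_rfl (hY t ht0 ((show t ≤ dl' from ht).trans ((min_le_left _ _).trans (min_le_left _ _))))
    refine (hN2 t ht0).trans ?_
    calc _ ≤ ENNReal.ofReal (2 * ρ) + NH (s.b.D - V) + ENNReal.ofReal (16 * Real.sqrt c *
          Real.sqrt (36 * s.θ + (1 / 4) ^ n) + (1 / 4) ^ n) :=
          add_le_add (add_le_add h5 le_rfl) (ENNReal.ofReal_le_ofReal hbd)
      _ = NH (s.b.D - V) + (ENNReal.ofReal (2 * ρ) + ENNReal.ofReal (16 * Real.sqrt c *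
          Real.sqrt (36 * s.θ + (1 / 4) ^ n) + (1 / 4) ^ n)) := by ring
      _ = _ := by
          rw [← ENNReal.ofReal_add (by positivity) (by positivity)]
          congr 2
          rw [hρdef]; ring
  · exact (huD q hq).trans (ENNReal.ofReal_le_ofReal hρs3)

end Pool.Agent.K1H11.NS
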