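import Pool.Agent.H8.NS.Rec

/-!
# The limit of a sequence of states, with local targets
-/

open MeasureTheory Set Filter Topology
open scoped ENNReal NNReal ContDiff

namespace Pool.Agent.K1H11.NS

open H459R3.NS (ee fc fr cube S SP Per pd D Rap)
open Pool.Agent.H356R3.NS (shellSum critNorm leiLin)

theorem bif_seqF {c : ℝ} (hc : 0 < c) {F : Fam} (hCF : CF F) {T0 : ℝ} (hF : ∀ k t, t ≤ T0 → F k t = 0)
    {V : ℕ → K → C3} {S : ℕ → BStF c F} (hR : ∀ n, BRelF c F T0 (V n) n (S n) (S (n + 1)))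
    (hdT : (S 0).dl ≤ T0) :
    ∃ U : Fam, (∀ k t, 0 < t → t ≤ T0 → Tendsto (fun n => (S n).u k t) atTop (𝓝 (U k t))) ∧
      (∀ n t, (S (n + 1)).dl ≤ t → t ≤ T0 → Summable (fun k => ‖U k t - (S n).u k t‖) ∧
        ∑' k, ‖U k t - (S n).u k t‖ ≤ (S n).be) ∧
      (∀ t0, 0 < t0 → t0 ≤ T0 → SD (at' U t0) ∧ ∃ a' : Wt, Sup a' ∧ ∃ z : Fam,
        SolF c (sh t0 F) a' (at' U t0) z ∧ ∀ k s, 0 ≤ s → t0 + s ≤ T0 → z k s = U k (t0 + s)) ∧
      (∀ ρ : ℝ, 0 < ρ → ∃ δ : ℝ, 0 < δ ∧ ∀ t, 0 < t → t ≤ δ → Real.sqrt t * ∑' k, ‖U k t‖ ≤ ρ) ∧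
      ∀ r : ℝ, 2 < r → ∀ N : (K → C3) → ℝ≥0∞, GoodN N → (∀ x, N x ≤ critNorm r x) → ∀ v : K → C3,
        Tendsto (fun n => N (V n - v)) atTop (𝓝 0) → ∀ ρ : ℝ, 0 < ρ → ∃ δ : ℝ, 0 < δ ∧ ∀ t, 0 < t → t ≤ δ →
        N (at' U t - v) ≤ ENNReal.ofReal ρ := by
  have hd : ∀ n, Dom (S n).u := fun n => (S n).hu.dom' (S n).ha
  have hcf : ∀ n, CF (S n).u := fun n => (S n).hu.cf
  have dl0 : ∀ n, 0 < (S n).dl := fun n => (S n).hdl
  have be0 : ∀ n, 0 < (S n).be := fun n => (S n).hbe
  have dlh : ∀ n, (S (n + 1)).dl ≤ (S n).dl / 2 := fun n => (hR n).dl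
  have beh : ∀ n, (S (n + 1)).be ≤ (S n).be / 2 := fun n => (hR n).be
  obtain ⟨U, hUt, hUs, hUe⟩ := lim_existsL (T0 := T0) (u := fun n => (S n).u) (dl := fun n => (S n).dl)
    (be := fun n => (S n).be) hc hcf hd (fun n => (S n).hu.DS (S n).ha hF) dl0 dlh be0 beh
    (fun n t ht htT => (hR n).diff t ht htT)
  have hanti : Antitone fun n => (S n).dl := half_anti dl0 dlh
  have hdl : Tendsto (fun n => (S n).dl) atTop (𝓝 0) := half_tendsto dl0 dlh
  have hbe : Tendsto (fun n => (S n).be) atTop (𝓝 0) := half_tendsto be0 beh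
  have hbanti : Antitone fun n => (S n).be := half_anti be0 beh
  have hdlT : ∀ n, (S n).dl ≤ T0 := fun n => (hanti (Nat.zero_le n)).trans hdT
  have hURR : ∀ t, 0 < t → t ≤ T0 → RR fun k => ‖U k t‖ := by
    intro t ht htT
    obtain ⟨C, γ, hC, hγ, hb⟩ := hUe t ht htT
    exact (RR_exp hC.le hγ).mono (fun _ => norm_nonneg _) hb
  have hUsym : ∀ t, 0 < t → t ≤ T0 → Sym (at' U t) := by
    intro t ht htT k i
    have h1 := ((continuous_apply i).tendsto _).comp (hUt (-k) t ht htT)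
    have h2 := (continuous_star.tendsto _).comp (((continuous_apply i).tendsto _).comp (hUt k t ht htT))
    refine tendsto_nhds_unique h1 (h2.congr fun n => ?_)
    exact ((S n).hu.sym t k i).symm
  have hU0 : ∀ t, 0 < t → t ≤ T0 → U 0 t = 0 := by
    intro t ht htT
    refine tendsto_nhds_unique (hUt 0 t ht htT) (tendsto_const_nhds.congr fun n => ?_)
    exact ((S n).hu.z t).symm
  have hUdt : ∀ t, 0 < t → t ≤ T0 → ∀ k, dt k (U k t) = 0 := by
    intro t ht htT k
    have h1 := ((dt_cont k).tendsto _).comp (hUt k t ht htT)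
    refine tendsto_nhds_unique h1 (tendsto_const_nhds.congr fun n => ?_)
    exact (sol_divF hCF hF (ht.le.trans htT) (S n).ha (S n).hD.dt (S n).hu k htT).symm
  have hUSD : ∀ t, 0 < t → t ≤ T0 → SD (at' U t) := fun t ht htT =>
    ⟨hUsym t ht htT, hU0 t ht htT, hURR t ht htT, hUdt t ht htT⟩
  -- the solutions which start at the times `dl n`
  have hz : ∀ n, 1 ≤ n → ∃ a' : Wt, Sup a' ∧ ∃ z : Fam, SolF c (sh (S n).dl F) a' (at' U (S n).dl) z ∧
      ∀ k s, 0 ≤ s → (S n).dl + s ≤ T0 → z k s = U k ((S n).dl + s) := by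
    intro n hn
    obtain ⟨m, rfl⟩ : ∃ m, n = m + 1 := ⟨n - 1, by omega⟩
    set s' := S (m + 1) with hs'
    have hdp : 0 < s'.dl := s'.hdl
    obtain ⟨bu, bu0, bur, bub, -⟩ := s'.hu.rap s'.ha
    obtain ⟨a', ha', z, hz⟩ := (hR m).opn (at' U s'.dl - at' s'.u s'.dl) ((hUsym _ hdp (hdlT _)).sub (s'.hu.sym _))
      (by
        show U 0 s'.dl - s'.u 0 s'.dl = 0
        rw [hU0 _ hdp (hdlT _), s'.hu.z, sub_zero])
      (((hURR _ hdp (hdlT _)).add bur).mono (fun _ => norm_nonneg _) fun k =>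
        (norm_sub_le _ _).trans (add_le_add le_rfl (bub k _)))
      (by
        obtain ⟨q1, q2⟩ := hUs (m + 1) s'.dl (hanti (Nat.le_succ (m + 1))) (hdlT _)
        have q3 : SN (at' U s'.dl - at' s'.u s'.dl) := q1
        refine le_trans ((summ_div_nk q3).tsum_le_tsum (fun k => ?_) q1) q2
        by_cases hk : k = 0
        · subst hk; rw [nk_zero, div_zero]; exact norm_nonneg _
        · exact div_le_self (norm_nonneg _) (one_le_nk hk))
    have e1 : at' s'.u s'.dl + (at' U s'.dl - at' s'.u s'.dl) = at' U s'.dl := by abel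
    rw [e1] at hz
    refine ⟨a', ha', z, hz, fun k s hs hsT => ?_⟩
    have hFs : ∀ k t, t ≤ s → sh s'.dl F k t = 0 := fun k t ht =>
      sh_zero_of hF (hdlT _) k t (by linarith)
    obtain ⟨C, hC, hdep⟩ := cont_dep hc hz.cf (hz.dom' ha') (hz.DS ha' hFs)
    have hz0 : ∀ k, z k 0 = U k s'.dl := fun k => by
      rw [hz.at_zero]
      rfl
    -- the shifted approximations
    have hshift : ∀ j, m + 1 ≤ j → (S j).be * C ≤ 1 → ‖(S j).u k (s'.dl + s) - z k s‖ ≤ C * (S j).be := by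
      intro j hj hjC
      have hsh := (S j).hu.sh hCF (S j).ha hdp.le
      have hshd : Dom (sh s'.dl (S j).u) := hsh.dom' (S j).ha
      have h1 : An (sh s'.dl (S j).u - z) 0 ≤ (S j).be := by
        obtain ⟨q1, q2⟩ := hUs j s'.dl (hanti (by omega : m + 1 ≤ j + 1)) (hdlT _)
        refine le_trans (le_of_eq ?_) q2
        unfold An
        refine tsum_congr fun k => ?_
        show ‖(S j).u k (s'.dl + max 0 0) - z k 0‖ = _
        rw [max_self, add_zero, hz0, norm_sub_rev]
      have h2 := hdep _ hsh.cf hshd (hsh.DS (S j).ha hFs) (S j).be (S j).hbe hjC h1 s hs le_rfl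
      refine le_trans ?_ h2
      have h3 := norm_le_An (hshd.sub (hz.dom' ha')) k s
      have e2 : (sh s'.dl (S j).u - z) k s = (S j).u k (s'.dl + s) - z k s := by
        show (S j).u k (s'.dl + max s 0) - z k s = _
        rw [max_eq_left hs]
      rwa [e2] at h3
    have hlim : Tendsto (fun j => (S j).u k (s'.dl + s) - z k s) atTop (𝓝 0) := by
      apply squeeze_zero_norm' (a := fun j => C * (S j).be)
      · have hC1 : ∀ᶠ j in atTop, (S j).be * C < 1 := by
          have h4 : Tendsto (fun j => (S j).be * C) atTop (𝓝 0) := by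
            have := hbe.mul_const C
            rwa [zero_mul] at this
          exact h4.eventually (gt_mem_nhds one_pos)
        filter_upwards [hC1, eventually_ge_atTop (m + 1)] with j hj1 hj2 using hshift j hj2 hj1.le
      · have := hbe.const_mul C
        rwa [mul_zero] at this
    have hlim2 := (hUt k (s'.dl + s) (by linarith) hsT).sub_const (z k s)
    have h5 := tendsto_nhds_unique hlim hlim2
    exact (sub_eq_zero.1 h5.symm).symm
  -- small times
  have hfind : ∀ n1 t, 0 < t → t < (S n1).dl → ∃ n, n1 ≤ n + 1 ∧ (S (n + 2)).dl ≤ t ∧ t < (S (n + 1)).dl ∨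
      n1 = 0 := by
    intro n1 t ht htn
    classical
    rcases Nat.eq_zero_or_pos n1 with h0 | h0
    · exact ⟨0, Or.inr h0⟩
    have hex : ∃ m, (S m).dl ≤ t := by
      obtain ⟨m, hm⟩ := (hdl.eventually (gt_mem_nhds ht)).exists
      exact ⟨m, hm.le⟩
    set m := Nat.find hex with hm
    have hm1 : (S m).dl ≤ t := Nat.find_spec hex
    have hm2 : n1 < m := by
      by_contra hcon
      push Not at hcon
      have : (S n1).dl ≤ (S m).dl := hanti hcon
      linarith
    obtain ⟨n, hn⟩ : ∃ n, m = n + 2 := ⟨m - 2, by omega⟩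
    have hm3 : t < (S (n + 1)).dl := by
      have := Nat.find_min hex (m := n + 1) (by omega)
      push Not at this
      exact this
    rw [hn] at hm1
    exact ⟨n, Or.inl ⟨by omega, hm1, hm3⟩⟩
  refine ⟨U, hUt, hUs, fun t0 ht0 ht0T => ⟨hUSD t0 ht0 ht0T, ?_⟩, fun ρ hρ => ?_, fun r hr N hN hNr v hv ρ hρ => ?_⟩
  · obtain ⟨n, hn1, hn2⟩ := ((hdl.eventually (gt_mem_nhds ht0)).and (eventually_ge_atTop 1)).exists
    obtain ⟨a', ha', z, hz1, hz2⟩ := hz n hn2
    have h1 : 0 ≤ t0 - (S n).dl := by linarith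
    have h2 := hz1.sh (sh_cf hCF _) ha' h1
    have e : at' z (t0 - (S n).dl) = at' U t0 := by
      funext k
      show z k (t0 - (S n).dl) = U k t0
      rw [hz2 k _ h1 (by linarith)]
      congr 1; ring
    have e2 : sh (t0 - (S n).dl) (sh (S n).dl F) = sh t0 F := by
      funext k t
      show F k ((S n).dl + max (t0 - (S n).dl + max t 0) 0) = F k (t0 + max t 0)
      rw [max_eq_left (by have := le_max_right t 0; linarith)]
      congr 1; ring
    rw [e, e2] at h2
    refine ⟨a', ha', _, h2, fun k s hs hsT => ?_⟩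
    show z k (t0 - (S n).dl + max s 0) = U k (t0 + s)
    rw [max_eq_left hs, hz2 k _ (by linarith) (by linarith)]
    congr 1; ring
  · -- the growth at time zero
    obtain ⟨θ, hθ, hwin⟩ := win_AnL hc
    have hn3 : Tendsto (fun n : ℕ => (1 : ℝ) / ((n : ℝ) + 1)) atTop (𝓝 0) := tendsto_one_div_add_atTop_nhds_zero_nat
    obtain ⟨n2, hn2⟩ := Filter.eventually_atTop.1 ((hn3.eventually (gt_mem_nhds (show 0 < min (θ / 3) (ρ / 24) by
      positivity))).and (hbe.eventually (gt_mem_nhds (show 0 < ρ / 2 by positivity))))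
    refine ⟨min ((S (n2 + 1)).dl / 2) 1, lt_min (by have := dl0 (n2 + 1); positivity) one_pos, fun t ht htd => ?_⟩
    have htn : t < (S (n2 + 1)).dl := by
      have h1 := htd.trans (min_le_left _ _)
      have := dl0 (n2 + 1); linarith
    have ht1 : t ≤ 1 := htd.trans (min_le_right _ _)
    have htT : t ≤ T0 := htn.le.trans (hdlT _)
    obtain ⟨n, hn | hn⟩ := hfind (n2 + 1) t ht htn
    swap
    · omega
    obtain ⟨m1, m2, m3⟩ := hn
    obtain ⟨k1, -⟩ := hn2 n (by omega)
    obtain ⟨-, k2⟩ := hn2 (n + 2) (by omega)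
    have k3 : (1 : ℝ) / ((n : ℝ) + 1) < θ / 3 := k1.trans_le (min_le_left _ _)
    have k4 : (1 : ℝ) / ((n : ℝ) + 1) < ρ / 24 := k1.trans_le (min_le_right _ _)
    have hnp : (0 : ℝ) < (n : ℝ) + 1 := by positivity
    set lam := 3 * (1 / ((n : ℝ) + 1)) with hlam
    have hl0 : 0 < lam := by positivity
    have hW : LW t (S (n + 2)).u ≤ ENNReal.ofReal lam := by
      have e1 : (S (n + 2)).u = ((S (n + 2)).u - (S (n + 1)).u) + (((S (n + 1)).u - (S n).u) + (S n).u) := by abel
      have c1 : CF ((S (n + 2)).u - (S (n + 1)).u) := fun k => (hcf (n + 2) k).sub (hcf (n + 1) k)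
      have c2 : CF ((S (n + 1)).u - (S n).u) := fun k => (hcf (n + 1) k).sub (hcf n k)
      have c3 : CF (((S (n + 1)).u - (S n).u) + (S n).u) := fun k => (c2 k).add (hcf n k)
      rw [e1]
      refine (LW_add t c1 c3).trans ((add_le_add ((hR (n + 1)).win t ht) ((LW_add t c2 (hcf n)).trans
        (add_le_add ((hR n).win t ht) ((hR n).small t ht m3.le)))).trans ?_)
      rw [← ENNReal.ofReal_add (by positivity) (by positivity), ← ENNReal.ofReal_add (by positivity) (by positivity)]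
      apply ENNReal.ofReal_le_ofReal
      have : (1 : ℝ) / (((n + 1 : ℕ) : ℝ) + 1) ≤ 1 / ((n : ℝ) + 1) := by
        apply one_div_le_one_div_of_le hnp
        push_cast; linarith
      rw [hlam]
      linarith
    have hA := hwin (S (n + 2)).u (hcf (n + 2)) (hd (n + 2)) t lam (((S (n + 2)).hu.DS (S (n + 2)).ha hF).mono htT) ht hl0
      (by rw [hlam]; linarith) hW
    obtain ⟨q1, q2⟩ := hUs (n + 2) t ((hanti (Nat.le_succ (n + 2))).trans m2) htT
    have hs1 : Summable fun k => ‖(S (n + 2)).u k t‖ := (hd (n + 2)).sn t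
    have hUle : ∑' k, ‖U k t‖ ≤ An (S (n + 2)).u t + (S (n + 2)).be := by
      have hs2 : Summable fun k => ‖U k t‖ := (hURR t ht htT).summ
      refine (hs2.tsum_le_tsum (fun k => ?_) (hs1.add q1)).trans ?_
      · have : U k t = (S (n + 2)).u k t + (U k t - (S (n + 2)).u k t) := by abel
        calc ‖U k t‖ = ‖(S (n + 2)).u k t + (U k t - (S (n + 2)).u k t)‖ := by rw [← this]
          _ ≤ _ := norm_add_le _ _
      · rw [hs1.tsum_add q1]
        exact add_le_add le_rfl q2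
    have hst : Real.sqrt t ≤ 1 := by rw [Real.sqrt_le_left zero_le_one]; linarith
    have hst0 := Real.sqrt_nonneg t
    have hbp := be0 (n + 2)
    calc Real.sqrt t * ∑' k, ‖U k t‖ ≤ Real.sqrt t * (An (S (n + 2)).u t + (S (n + 2)).be) :=
          mul_le_mul_of_nonneg_left hUle hst0
      _ = Real.sqrt t * An (S (n + 2)).u t + Real.sqrt t * (S (n + 2)).be := by ring
      _ ≤ 4 * lam + 1 * (S (n + 2)).be := by gcongr
      _ ≤ ρ := by rw [hlam]; linarith
  · -- the initial value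
    obtain ⟨n0, hn0⟩ : ∃ n0 : ℕ, max (1 / (r - 2)) (16 / ρ) < n0 := exists_nat_gt _
    have hr2 : 0 < r - 2 := by linarith
    have hn1 : 1 / (r - 2) < n0 := (le_max_left _ _).trans_lt hn0
    have hn2 : 16 / ρ < n0 := (le_max_right _ _).trans_lt hn0
    have hn0p : (0 : ℝ) < n0 := lt_trans (by positivity) hn1
    have hρ8 : (0 : ℝ≥0∞) < ENNReal.ofReal (ρ / 8) := by
      rw [ENNReal.ofReal_pos]; positivity
    -- large indices
    obtain ⟨n3, hn3⟩ := Filter.eventually_atTop.1 ((hbe.eventually (gt_mem_nhds (show 0 < ρ / 8 by positivity))).and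
      (hv.eventually (gt_mem_nhds hρ8)))
    set n1 := max (n0 + 2) (n3 + 2) with hn1def
    have hn1a : n0 + 2 ≤ n1 := le_max_left _ _
    have hn1b : n3 + 2 ≤ n1 := le_max_right _ _
    refine ⟨(S n1).dl / 2, by have := dl0 n1; positivity, fun t ht htd => ?_⟩
    have htn : t < (S n1).dl := by have := dl0 n1; linarith
    obtain ⟨n, hn | hn⟩ := hfind n1 t ht htn
    swap
    · omega
    obtain ⟨hnn, hm1, hm3⟩ := hn
    obtain ⟨q1, q2⟩ := hUs (n + 1) t hm1 (htn.le.trans (hdlT _))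
    have hnr : (n0 : ℝ) ≤ n := by exact_mod_cast (by omega : n0 ≤ n)
    have hnpos : (0 : ℝ) < n := lt_of_lt_of_le hn0p hnr
    have c0 : 1 / (n : ℝ) ≤ r - 2 := by
      rw [div_le_iff₀ hnpos]
      rw [div_lt_iff₀ hr2] at hn1
      nlinarith
    have c1 : 1 / ((n : ℝ) + 1) ≤ 1 / (n : ℝ) := one_div_le_one_div_of_le hnpos (by linarith)
    have c3 : 1 / (n : ℝ) ≤ ρ / 16 := by
      rw [div_le_iff₀ hnpos]
      rw [div_lt_iff₀ hρ] at hn2
      nlinarith
    have r1 : 2 + 1 / ((n : ℝ) + 1) ≤ r := by linarith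
    obtain ⟨-, p2⟩ := (hR n).crit r r1
    have p3 := p2 N hN hNr t ht.le hm3.le
    obtain ⟨n', hn'⟩ : ∃ n', n = n' + 1 := ⟨n - 1, by
      have : 0 < n := by exact_mod_cast hnpos
      omega⟩
    have en' : (n : ℝ) = (n' : ℝ) + 1 := by rw [hn']; push_cast; ring
    have r2 : 2 + 1 / ((n' : ℝ) + 1) ≤ r := by
      rw [← en']; linarith
    obtain ⟨-, v1⟩ := hn3 n (by omega)
    obtain ⟨-, v2⟩ := hn3 n' (by omega)
    obtain ⟨b1, -⟩ := hn3 (n + 1) (by omega)
    have p4 : N ((S n).D - V n) ≤ ENNReal.ofReal (ρ / 16) + (ENNReal.ofReal (ρ / 8) + ENNReal.ofReal (ρ / 8)) := by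
      have e3 : (S n).D - V n = ((S n).D - V n') + ((V n' - v) + -(V n - v)) := by abel
      rw [e3]
      refine (hN.add _ _).trans (add_le_add ?_ ((hN.add _ _).trans (add_le_add v2.le ((hN.neg _).trans v1.le))))
      obtain ⟨p5, -⟩ := (hR n').crit r r2
      rw [hn']
      refine (hNr _).trans (p5.trans (ENNReal.ofReal_le_ofReal ?_))
      rw [← en']; exact c3
    have e3 : at' U t - v = (at' U t - at' (S (n + 1)).u t) + ((at' (S (n + 1)).u t - V n) + (V n - v)) := by abel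
    rw [e3]
    have p6 : N (at' U t - at' (S (n + 1)).u t) ≤ ENNReal.ofReal (ρ / 4) := by
      have q3 : SN (at' U t - at' (S (n + 1)).u t) := q1
      refine (hN.le _).trans ?_
      have q4 : leiLin (at' U t - at' (S (n + 1)).u t) ≤ ENNReal.ofReal (ρ / 8) :=
        (LL_le_tsum q3).trans (ENNReal.ofReal_le_ofReal (le_trans q2 b1.le))
      calc 2 * leiLin (at' U t - at' (S (n + 1)).u t) ≤ 2 * ENNReal.ofReal (ρ / 8) := mul_le_mul' le_rfl q4
        _ = ENNReal.ofReal (ρ / 4) := by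
            rw [show (2 : ℝ≥0∞) = ENNReal.ofReal 2 by simp, ← ENNReal.ofReal_mul (by norm_num)]
            congr 1; ring
    refine (hN.add _ _).trans ((add_le_add p6 ((hN.add _ _).trans (add_le_add (p3.trans (add_le_add p4 le_rfl))
      v1.le))).trans ?_)
    rw [← ENNReal.ofReal_add (by positivity) (by positivity), ← ENNReal.ofReal_add (by positivity) (by positivity),
      ← ENNReal.ofReal_add (by positivity) (by positivity), ← ENNReal.ofReal_add (by positivity) (by positivity),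
      ← ENNReal.ofReal_add (by positivity) (by positivity)]
    apply ENNReal.ofReal_le_ofReal
    have e4 : 3 / ((n : ℝ) + 1) = 3 * (1 / ((n : ℝ) + 1)) := by ring
    rw [e4]
    linarith

end Pool.Agent.K1H11.NS
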