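import Pool.Agent.H8.NS.Stage7

/-!
# One step of the construction for forced solutions
-/

open MeasureTheory Set Filter Topology
open scoped ENNReal NNReal ContDiff

namespace Pool.Agent.K1H11.NS

open H459R3.NS (ee fc fr cube S SP Per pd D Rap)
open Pool.Agent.H356R3.NS (shellSum critNorm leiLin)

/-- One step. -/
theorem step_all7F {Fo : Fam} (hCF : CF Fo) {c : ℝ} (hc : 0 < c) {V D : K → C3} (hV : SD V) (hD : SD D) {θ : ℝ} (hθ : 0 ≤ θ)
    (hStr : Str (D - V) θ) {a : Wt} (ha : Sup a) {w : Fam} (hw : SolF c Fo a D w)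
    {r0 ρ dl : ℝ} (hr0 : 2 < r0) (hρ : 0 < ρ) (hdl : 0 < dl) :
    ∃ D' : K → C3, SD D' ∧ Str (D' - V) ρ ∧
      ∃ a' : Wt, Sup a' ∧ ∃ u : Fam, SolF c Fo a' D' u ∧
        LNd dl (u - w) ≤ ENNReal.ofReal ρ ∧
        (∀ t, 0 < t → LW t (u - w) ≤ ENNReal.ofReal ρ) ∧
        (∀ q : ℝ, r0 ≤ q → DN q (u - w) ≤ ENNReal.ofReal ρ) ∧
        L2N (u - w) ≤ ENNReal.ofReal (14 * Real.sqrt (36 * θ + ρ) + ρ) ∧
        NH (D' - V) ≤ ENNReal.ofReal (16 * Real.sqrt c * Real.sqrt (36 * θ + ρ) + ρ) ∧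
        (∀ t, 0 ≤ t → NH (at' u t - V) ≤ NH (at' w t - D) + NH (D - V) +
          ENNReal.ofReal (16 * Real.sqrt c * Real.sqrt (36 * θ + ρ) + ρ)) ∧
        ∀ r : ℝ, r0 ≤ r → critNorm r (D' - V) ≤ ENNReal.ofReal ρ ∧
          ∀ N : (K → C3) → ℝ≥0∞, GoodN N → (∀ x, N x ≤ critNorm r x) → ∀ t, 0 ≤ t →
            N (at' u t - V) ≤ N (at' w t - D) + N (D - V) + ENNReal.ofReal ρ := by
  have hDV := hD.sub hV
  obtain ⟨F, hF, hF0, hFE, hFs⟩ := amp_loc hDV.z (show 0 < ρ / 8 by positivity) hStr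
  set E := 4 * (ρ / 8 + 9 * θ) with hE
  have hE0 : 0 ≤ E := by positivity
  -- the amplitudes
  set wS := ∑ c, ∑ a, wn (F c a) with hwS
  have hwS0 : 0 ≤ wS := Finset.sum_nonneg fun c _ => Finset.sum_nonneg fun a _ => wn_nonneg _
  have hwF : ∀ c a, wn (F c a) ≤ wS := fun c a =>
    (Finset.single_le_sum (f := fun a => wn (F c a)) (fun a _ => wn_nonneg _) (Finset.mem_univ a)).trans
      (Finset.single_le_sum (f := fun c => ∑ a, wn (F c a))
        (fun c _ => Finset.sum_nonneg fun a _ => wn_nonneg _) (Finset.mem_univ c))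
  set K1 := wS ^ 2 + 1 with hK1
  have hK1p : 0 < K1 := by positivity
  have hFw : ∀ c a, wn (F c a) ≤ 2 * Real.sqrt K1 := by
    intro c a
    have h1 : wS ≤ Real.sqrt K1 := Real.le_sqrt_of_sq_le (by rw [hK1]; linarith)
    have h2 := hwF c a
    have h3 := Real.sqrt_nonneg K1
    linarith
  -- the walls
  set s := ρ / (30 * (1 + c) * (1 + E)) with hs
  have hs0 : 0 < s := by positivity
  have hs1 : s * (30 * (1 + c) * (1 + E)) = ρ := by rw [hs]; field_simp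
  set η := min (1 / 4) (s ^ 2 / 2) with hη
  have hη0 : 0 < η := lt_min (by norm_num) (by positivity)
  have hη1 : η ≤ 1 / 4 := min_le_left _ _
  have hηs : Real.sqrt (2 * η) ≤ s := by
    rw [Real.sqrt_le_left hs0.le]
    have : η ≤ s ^ 2 / 2 := min_le_right _ _
    linarith
  obtain ⟨Cg, hCg, hcut⟩ := exists_cut2
  obtain ⟨g, hg, hA⟩ := hcut η hη0 hη1
  have hg2 : ContDiff ℝ ∞ (fun y => g y ^ 2 - 1) := (hg.smooth.pow 2).sub contDiff_const
  have hg3 : ContDiff ℝ ∞ (fun y => g y - ∫ z in (0 : ℝ)..1, g z) := hg.smooth.sub contDiff_const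
  obtain ⟨Q, -, hQ⟩ := gM_norm hg2 (fun y => by rw [hg.per])
  obtain ⟨Q1, -, hQ1⟩ := gM_norm hg3 (fun y => by rw [hg.per])
  have hA0 : 0 ≤ Cg / Real.sqrt η := (wn_nonneg _).trans (hA 0 0)
  have h2c : 0 ≤ Real.sqrt (2 / c) := Real.sqrt_nonneg _
  set ρ' := ρ / (6 * (1 + Real.sqrt (2 / c))) with hρ'
  have hρ'0 : 0 < ρ' := by positivity
  have hρ'1 : ρ' * (6 * (1 + Real.sqrt (2 / c))) = ρ := by rw [hρ']; field_simp
  have hρ'6 : 6 * ρ' ≤ ρ := by
    have : 0 ≤ ρ' * Real.sqrt (2 / c) := by positivity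
    nlinarith
  have hρ'2 : ρ' ≤ ρ := by linarith
  obtain ⟨J, τ, hJ, hτ, hτρ, hJρ, hsm⟩ := small_WvB hc hK1p hA0 hr0 hρ'0
  have hwD : D = V + (D - V) := by abel
  rw [hwD] at hw
  obtain ⟨Wi, hWi, a', ha', u, hu, huL, huW, huD, hu2, huS, hcr, hNH, hgen⟩ := stage7F hCF hc hη0 hη1 hg hA hQ hQ1 hF hF0 hK1p hFw
    hFE hFs ha hw hJ hτ hdl
  set Ws := ∑ i ∈ Finset.range (15 * J), Wi i with hWs
  have hWsSD : SD Ws := SD_sum _ _ hWi
  have e1s : ∑ i ∈ Finset.range (15 * J), (1 : ℝ) • Wi i = Ws :=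
    Finset.sum_congr rfl fun i _ => one_smul _ _
  have eB : (V + Ws) - V = Ws := by abel
  have hEτ : E + τ ≤ 36 * θ + ρ := by rw [hE]; linarith
  have hsq : Real.sqrt (E + τ) ≤ Real.sqrt (36 * θ + ρ) := Real.sqrt_le_sqrt hEτ
  have hsc := Real.sqrt_nonneg c
  have hscs : 16 * Real.sqrt c * Real.sqrt (E + τ) ≤ 16 * Real.sqrt c * Real.sqrt (36 * θ + ρ) :=
    mul_le_mul_of_nonneg_left hsq (by positivity)
  have hsq0 := Real.sqrt_nonneg (E + τ)
  refine ⟨V + Ws, hV.add hWsSD, ?_, a', ha', u, hu,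
    huL.trans (ENNReal.ofReal_le_ofReal (hτρ.trans hρ'2)), fun t ht => ?_, fun q hq => ?_, ?_, ?_, fun t ht => ?_,
    fun r hr => ?_⟩
  · rw [eB]
    refine huS.mono ?_
    have h1 : 15 * (1 + c) * (Real.sqrt (2 * η) * (1 + E)) ≤ 15 * (1 + c) * (s * (1 + E)) := by gcongr
    have h2 : 15 * (1 + c) * (s * (1 + E)) = ρ / 2 := by linarith
    linarith
  · refine (huW t ht).trans (ENNReal.ofReal_le_ofReal ?_)
    have h1 : 16 * (Real.sqrt (c / J) * Real.sqrt K1 * (Cg / Real.sqrt η)) * Real.sqrt (2 / c) ≤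
        ρ' * Real.sqrt (2 / c) := mul_le_mul_of_nonneg_right hJρ h2c
    have h2 : τ * Real.sqrt (2 / c) ≤ ρ' * Real.sqrt (2 / c) := mul_le_mul_of_nonneg_right hτρ h2c
    have h3 : 0 ≤ ρ' * Real.sqrt (2 / c) := by positivity
    calc (4 * Real.sqrt (c / J) * Real.sqrt K1 * (Cg / Real.sqrt η) + τ) * Real.sqrt (2 / c) * 4 + 2 * τ
        = 16 * (Real.sqrt (c / J) * Real.sqrt K1 * (Cg / Real.sqrt η)) * Real.sqrt (2 / c) +
          4 * (τ * Real.sqrt (2 / c)) + 2 * τ := by ring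
      _ ≤ ρ' * Real.sqrt (2 / c) + 4 * (ρ' * Real.sqrt (2 / c)) + 2 * ρ' := by linarith
      _ ≤ ρ' * (6 * (1 + Real.sqrt (2 / c))) := by nlinarith
      _ = ρ := hρ'1
  · have h1 : WvB c K1 (Cg / Real.sqrt η) τ J q ≤ ENNReal.ofReal ρ' := by
      refine le_trans ?_ (hsm q hq)
      exact (le_add_left le_rfl).trans (le_add_right le_rfl)
    have h2 : Real.sqrt (4 / c) ≤ 2 * Real.sqrt (2 / c) := by
      rw [Real.sqrt_le_left (by positivity), mul_pow, Real.sq_sqrt (by positivity)]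
      rw [show (2 : ℝ) ^ 2 * (2 / c) = 8 / c by ring]
      gcongr
      norm_num
    refine (huD q (by linarith)).trans ?_
    rw [show (2 : ℝ≥0∞) = ENNReal.ofReal 2 by simp, ← ENNReal.ofReal_mul (by norm_num)]
    refine (add_le_add (mul_le_mul' (ENNReal.ofReal_le_ofReal h2) h1) le_rfl).trans ?_
    rw [← ENNReal.ofReal_mul (by positivity), ← ENNReal.ofReal_add (by positivity) (by positivity)]
    apply ENNReal.ofReal_le_ofReal
    have h3 : 0 ≤ ρ' * Real.sqrt (2 / c) := by positivity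
    nlinarith
  · refine hu2.trans (ENNReal.ofReal_le_ofReal ?_)
    linarith
  · rw [eB, ← e1s]
    refine (hNH (fun _ => 1) fun i => by simp).trans (ENNReal.ofReal_le_ofReal ?_)
    linarith
  · have h1 := hgen NH NH_solid.toGoodN _ hNH t ht
    rw [← hwD] at h1
    refine h1.trans (add_le_add le_rfl ?_)
    have h2 : 15 * (2 * ENNReal.ofReal (72 * Real.pi * K1 / J)) ≤ ENNReal.ofReal ρ' := by
      refine le_trans ?_ (hsm r0 le_rfl)
      exact le_add_right (le_add_right le_rfl)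
    have h3 : (2 : ℝ≥0∞) * ENNReal.ofReal τ = ENNReal.ofReal (2 * τ) := by
      rw [show (2 : ℝ≥0∞) = ENNReal.ofReal 2 by simp, ← ENNReal.ofReal_mul (by norm_num)]
    rw [h3]
    refine (add_le_add (add_le_add h2 le_rfl) le_rfl).trans ?_
    rw [← ENNReal.ofReal_add (by positivity) (by positivity), ← ENNReal.ofReal_add (by positivity) (by positivity)]
    apply ENNReal.ofReal_le_ofReal
    linarith
  · rw [eB]
    have h3 := (hsm r hr).trans (ENNReal.ofReal_le_ofReal hρ'2)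
    refine ⟨?_, fun N hN hNr t ht => ?_⟩
    · rw [← e1s]
      refine (hcr r (by linarith) (fun _ => 1) fun i => by simp).trans (le_trans ?_ h3)
      exact (le_add_left le_rfl).trans (le_add_right le_rfl)
    · have h4 := hgen N hN _ (fun b hb => (hNr _).trans (hcr r (by linarith) b hb)) t ht
      rw [← hwD] at h4
      exact h4.trans (add_le_add le_rfl h3)

end Pool.Agent.K1H11.NS
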