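import Pool.Graph.R_pool_sql_team_seeded_efc1946e.K1H11.NS8.Unify

/-!
# Forced approximate solutions: uniform bounds in the Lei-Lin norm
-/

open MeasureTheory Set Filter Topology
open scoped ENNReal NNReal

namespace Pool.Agent.K1H11.NS

/-- Approximate solutions with small residual are close to exact solutions, also uniformly in time. -/
theorem approx2F {F : Fam} (hCF : CF F) {c D τ : ℝ} (hc : 0 < c) (hD : 0 < D) (hτ : 0 < τ) : ∃ η : ℝ, 0 < η ∧
    ∀ (V : K → C3) (U FE : Fam) (b e : K → ℝ), CF U → SymF U → (∀ t, U 0 t = 0) →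
      (∀ k, 0 ≤ b k) → RR b → (∀ k t, ‖U k t‖ ≤ b k) →
      (∀ k, LN (fun t => ‖U k t‖ₑ) ≤ ENNReal.ofReal (b k)) → XN U ≤ ENNReal.ofReal D →
      CF FE → SymF FE → (∀ t, FE 0 t = 0) → (∀ k, 0 ≤ e k) → RR e →
      (∀ k, ∫⁻ t in Ioi 0, ‖FE k t‖ₑ ≤ ENNReal.ofReal (e k)) → ∑' k, e k / nk k ≤ η →
      (∀ k t, U k t = Real.exp (-(c * sq k * max t 0)) • V k + Duh c (Bt U - F - FE) k t) →
      ∃ a : Wt, Sup a ∧ ∃ u : Fam, SolF c F a V u ∧ XN (u - U) ≤ ENNReal.ofReal τ ∧
        ∀ t, YN (at' (u - U) t) ≤ ENNReal.ofReal τ := by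
  have hC := C0_pos
  set τ' := min (min τ 1) (τ / (2 * (C0 * (2 * D + 1)))) with hτ'
  have hτ0 : 0 < τ' := lt_min (lt_min hτ one_pos) (by positivity)
  have hτ1 : τ' ≤ τ := (min_le_left _ _).trans (min_le_left _ _)
  have hτ2 : τ' ≤ 1 := (min_le_left _ _).trans (min_le_right _ _)
  have hτ3 : τ' ≤ τ / (2 * (C0 * (2 * D + 1))) := min_le_right _ _
  obtain ⟨η, hη, happ⟩ := approxF hCF (c := c) (D := D) (τ := τ') hc hD hτ0
  refine ⟨min η (τ / 2), lt_min hη (half_pos hτ), ?_⟩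
  intro V U FE b e hU hUs hU0 hb0 hb hUb hUL hUX hF hFs hF0 he0 he hFe hesum heq
  obtain ⟨a, ha, u, hu, hX⟩ := happ V U FE b e hU hUs hU0 hb0 hb hUb hUL hUX hF hFs hF0 he0 he hFe
    (hesum.trans (min_le_left _ _)) heq
  refine ⟨a, ha, u, hu, hX.trans (ENNReal.ofReal_le_ofReal hτ1), fun t => ?_⟩
  have hud : Dom u := by
    obtain ⟨b, hb, h⟩ := hu.dom
    refine ⟨b, hb.of_nonneg_of_le (fun k => (norm_nonneg _).trans (h k 0)) fun k => ?_, h⟩
    have h0 : 0 ≤ b k := (norm_nonneg _).trans (h k 0)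
    have h1 : 1 ≤ om a k := a.one_le k
    nlinarith
  have hUd : Dom U := ⟨b, hb.summ, hUb⟩
  have hBu := Bt_cont hu.cf hud
  have hBU := Bt_cont hU hUd
  have hdif : CF (Bt u - Bt U) := fun k => (hBu k).sub (hBU k)
  have e1 : u - U = Duh c (Bt u - Bt U) + Duh c FE := by
    funext k t
    show u k t - U k t = _
    have hBUF : CF (Bt U - F) := fun k => (hBU k).sub (hCF k)
    have e2 : Duh c (Bt u - Bt U) + Duh c FE = Duh c (Bt u - F) - Duh c (Bt U - F - FE) := by
      rw [Duh_sub hBu hBU, Duh_sub hBu hCF, Duh_sub hBUF hF, Duh_sub hBU hCF]; abel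
    rw [e2, hu.eq k t, heq k t]
    show _ = Duh c (Bt u - F) k t - Duh c (Bt U - F - FE) k t
    abel
  have e3 : at' (u - U) t = at' (Duh c (Bt u - Bt U)) t + at' (Duh c FE) t := by
    rw [e1]; rfl
  rw [e3]
  have g1 : ∫⁻ s in Ioi 0, YN (at' FE s) ≤ ENNReal.ofReal (τ / 2) := by
    have hn : ∀ k, e k / nk k ≤ e k := by
      intro k
      by_cases hk : k = 0
      · subst hk; simp [nk_zero, he0]
      · exact div_le_self (he0 k) (one_le_nk hk)
    have hes : Summable fun k => e k / nk k :=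
      he.summ.of_nonneg_of_le (fun k => div_nonneg (he0 k) (nk_nonneg k)) hn
    unfold YN NW
    have m0 : ∀ k, AEMeasurable (fun s => Wm Wt.one k * ‖at' FE s k‖ₑ) (volume.restrict (Ioi 0)) := fun k =>
      (((hF k).enorm.measurable).const_mul (Wm Wt.one k)).aemeasurable
    rw [lintegral_tsum m0]
    calc ∑' k, ∫⁻ s in Ioi 0, Wm Wt.one k * ‖at' FE s k‖ₑ
        ≤ ∑' k, ENNReal.ofReal (e k / nk k) := by
          refine ENNReal.tsum_le_tsum fun k => ?_
          have m1 : Measurable fun s => ‖at' FE s k‖ₑ := (hF k).enorm.measurable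
          rw [lintegral_const_mul _ m1, Wm_one, div_eq_mul_inv (e k), mul_comm (e k), ← one_div,
            ENNReal.ofReal_mul (div_nonneg zero_le_one (nk_nonneg k))]
          exact mul_le_mul' le_rfl (hFe k)
      _ = ENNReal.ofReal (∑' k, e k / nk k) := by
          rw [ENNReal.ofReal_tsum_of_nonneg (fun k => div_nonneg (he0 k) (nk_nonneg k)) hes]
      _ ≤ _ := ENNReal.ofReal_le_ofReal (hesum.trans (min_le_right _ _))
  have g2 : ∫⁻ s in Ioi 0, YN (at' (Bt u - Bt U) s) ≤ ENNReal.ofReal (τ / 2) := by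
    refine (lint_YN_diff hu.cf hU hud hUd).trans ?_
    have x1 : XN u ≤ ENNReal.ofReal (D + 1) := by
      have e4 : u = U + (u - U) := by abel
      have hd : CF (u - U) := fun k => (hu.cf k).sub (hU k)
      rw [e4]
      refine (XN_add hU hd).trans ((add_le_add hUX (hX.trans (ENNReal.ofReal_le_ofReal hτ2))).trans ?_)
      rw [← ENNReal.ofReal_add hD.le zero_le_one]
    calc ENNReal.ofReal C0 * (XN (u - U) * (XN u + XN U))
        ≤ ENNReal.ofReal C0 * (ENNReal.ofReal τ' * (ENNReal.ofReal (D + 1) + ENNReal.ofReal D)) := by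
          gcongr
      _ = ENNReal.ofReal (C0 * (τ' * (D + 1 + D))) := by
          rw [← ENNReal.ofReal_add (by positivity) hD.le, ← ENNReal.ofReal_mul hτ0.le, ← ENNReal.ofReal_mul hC.le]
      _ ≤ _ := by
          apply ENNReal.ofReal_le_ofReal
          calc C0 * (τ' * (D + 1 + D)) = τ' * (C0 * (2 * D + 1)) := by ring
            _ ≤ τ / (2 * (C0 * (2 * D + 1))) * (C0 * (2 * D + 1)) := by
                gcongr
            _ = τ / 2 := by field_simp
  calc YN (at' (Duh c (Bt u - Bt U)) t + at' (Duh c FE) t)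
      ≤ YN (at' (Duh c (Bt u - Bt U)) t) + YN (at' (Duh c FE) t) := YN_add _ _
    _ ≤ ENNReal.ofReal (τ / 2) + ENNReal.ofReal (τ / 2) :=
        add_le_add ((YN_Duh hc.le hdif t).trans g2) ((YN_Duh hc.le hF t).trans g1)
    _ = ENNReal.ofReal τ := by
        rw [← ENNReal.ofReal_add (by positivity) (by positivity)]
        congr 1; ring

end Pool.Agent.K1H11.NS
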